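import Pool.Agent.Lib.VK.WDef
import Pool.Agent.Lib.VK.XDef
import Pool.Agent.Lib.G8.LDefs

/-!
# T8: the Hardy-Littlewood formula for almost all tuples, `n + h_i` with exactly `κ_i` prime factors, the least one in a given set `S_i`: definitions

`HL`, `box`, `nu`, `ram`, `rhoS`, `smo` are in VK (TDef, UDef, XDef), `di`, `SL`, `aL`, `IL`, `bL`, `sL`, `EL`, `RgL`, `QL` in G8/LDefs.
-/

set_option autoImplicit false

open Finset

namespace Pool.Agent.Lib.T8

open Pool.Agent.Lib.G3 (lp)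
open Pool.Agent.Lib.VKT (rhoS HL)
open Pool.Agent.Lib.G8 (di SL aL IL bL sL EL RgL)

/-- the blocks which meet `(Y, 3Y]` -/
noncomputable def IZ (Y k U : ℕ) (S : Finset ℕ) : Finset (ℕ × ℕ × ℕ) :=
  (IL (4 * Y) 3 k U S).filter fun b => Y ≤ 8 * (2 ^ b.1 * 2 ^ b.2.1 * 2 ^ b.2.2)

/-- weighted indicator function of the typical numbers `EL k U S` near `(Y, 3Y]` -/
noncomputable def FZ (Y k U : ℕ) (S : Finset ℕ) (n : ℕ) : ℝ :=
  ∑ b ∈ IZ Y k U S, Real.log (2 * 2 ^ b.2.2 : ℕ) / Real.log (32 * Y : ℕ) * bL k U S b n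

/-- its density -/
noncomputable def rZ (Y k U : ℕ) (S : Finset ℕ) (n : ℕ) : ℝ :=
  ∑ b ∈ IZ Y k U S, Real.log (2 * 2 ^ b.2.2 : ℕ) / Real.log (32 * Y : ℕ) *
    rhoS (SL S b.1) (aL k U b.1) (2 ^ b.2.2) (2 ^ b.2.1) n

/-- weighted count with general member functions `F i` (`κ i ≠ 1`); the members with `κ i = 1` are primes -/
noncomputable def wcA {m : ℕ} (Y : ℕ) (κ : Fin m → ℕ) (F : Fin m → ℕ → ℝ) (h : Fin m → ℕ) : ℝ :=
  ∑ n ∈ Ioc Y (2 * Y), lp n * ∏ i, if κ i = 1 then (if n + h i ≤ 32 * Y then lp (n + h i) / Real.log (32 * Y : ℕ) else 0)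
    else F i (n + h i)

/-- product of the densities -/
noncomputable def dA {m : ℕ} (κ : Fin m → ℕ) (s : Fin m → ℝ) : ℝ := ∏ i, if κ i = 1 then 1 else s i

open Classical in
/-- number of the primes `n` in `(Y, 2Y]` such that every `n + h_i` is prime (`κ_i = 1`) or typical (`κ_i ≠ 1`) -/
noncomputable def cntE {m : ℕ} (Y U : ℕ) (κ : Fin m → ℕ) (S : Fin m → Finset ℕ) (h : Fin m → ℕ) : ℕ :=
  ((Ioc Y (2 * Y)).filter fun n => n.Prime ∧ ∀ i, if κ i = 1 then (n + h i).Prime else EL (κ i) U (S i) (n + h i)).card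

open Classical in
/-- number of the primes `n` in `(Y, 2Y]` such that every `n + h_i` is prime (`κ_i = 1`) or has exactly `κ_i` prime factors, counted with
multiplicity, the least one in `S_i` (`κ_i ≠ 1`) -/
noncomputable def cntT {m : ℕ} (Y : ℕ) (κ : Fin m → ℕ) (S : Fin m → Finset ℕ) (h : Fin m → ℕ) : ℕ :=
  ((Ioc Y (2 * Y)).filter fun n => n.Prime ∧ ∀ i, if κ i = 1 then (n + h i).Prime else
    (n + h i).primeFactorsList.length = κ i ∧ (n + h i).minFac ∈ S i).card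

/-- `∑_{q ∈ S} 1/q · (log (log Y / log q))^(k-2) / (k-2)!` -/
noncomputable def dT (k : ℕ) (S : Finset ℕ) (Y : ℕ) : ℝ :=
  ∑ q ∈ S, 1 / (q : ℝ) * ((Real.log (Real.log Y / Real.log q)) ^ (k - 2) / (Nat.factorial (k - 2) : ℝ))

/-- the numbers `g ≤ x` with at most `K` prime factors (with multiplicity), the least one in `S` -/
def QF (K : ℕ) (S : Finset ℕ) (x : ℕ) : Finset ℕ := (Icc 1 x).filter fun g => g.primeFactorsList.length ≤ K ∧ g.minFac ∈ S

open Classical in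
/-- the exceptional ones: fewer than `K` prime factors, or a further prime factor `s` in the dyadic interval of the least one or above `U` -/
noncomputable def QE (K U : ℕ) (S : Finset ℕ) (x : ℕ) : Finset ℕ := (QF K S x).filter fun g => g.primeFactorsList.length + 1 ≤ K ∨
  ∃ s : ℕ, s.Prime ∧ g.minFac * s ∣ g ∧ (s ≤ 2 ^ (di g.minFac + 1) ∨ U < s)

end Pool.Agent.Lib.T8
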