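import Pool.Agent.Lib.T8.Esy
import Pool.Agent.Lib.G8.L4
import Pool.Agent.Lib.VK.UEsy

/-!
# T8, row Bd: bounds and supports of `FZ` and `rZ` (copy of VK/WBd.lean)

PROOF IN WORDS. As `rk2_le`, `Fk2_le`. `rZ n`: for given `q, m` at most one `g` has `q m 2^g < n ≤ 2 q m 2^g`, so `0 ≤ rZ n ≤ (1/log 32Y) ∑_{q ∈ S} 1/q ∑_m aL k U (di q) m/m = sL k U S/log 32Y ≤ 1` by `sL_le`; a term `≠ 0` has
`1 ≤ n ≤ 2 q m 2^g ≤ 8 · 2^(i+j+g) ≤ 32 Y`. `FZ n`: the weights `log (2·2^g)/log 32Y` are in `[0, 1]` and the `bL` are `≥ 0`, so `0 ≤ FZ n ≤ ∑_{b ∈ IL (4Y)} bL k U S b n ≤ 1` by `l4 k 3 c1` at `4Y`; support: a term `≠ 0` has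
`n = q m r ≤ 8 · 2^(i+j+g) ≤ 32 Y` and `n ≥ 1`. (`RgL (4Y) U w' c1 (1000 K) S` gives `RgL (4Y) U w' c1 (1000 k) S`; `U = 0` is trivial.)
-/

set_option autoImplicit false

open Finset Filter

namespace Pool.Agent.Lib.T8

open Pool.Agent.Lib.G8 (di SL aL IL bL sL EL RgL)
open Pool.Agent.Lib.G5 (bS PP aS esy)
open Pool.Agent.Lib.VKT (rhoS esy_sum)

private theorem bd_one {ι : Type} [DecidableEq ι] (A : Finset ι) (f : ι → ℝ) (c : ℝ) (hc : 0 ≤ c) (h1 : ∀ x ∈ A, f x ≤ c)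
    (h2 : ∀ x ∈ A, ∀ y ∈ A, f x ≠ 0 → f y ≠ 0 → x = y) : ∑ x ∈ A, f x ≤ c := by
  by_cases h : ∃ x ∈ A, f x ≠ 0
  · obtain ⟨x, hx, hfx⟩ := h
    rw [Finset.sum_eq_single x]
    · exact h1 x hx
    · intro y hy hyx
      by_contra hfy
      exact hyx (h2 y hy x hx hfy hfx)
    · intro h
      exact absurd hx h
  · push Not at h
    rw [Finset.sum_eq_zero h]
    exact hc

private theorem bd_lp (n : ℕ) : 0 ≤ Pool.Agent.Lib.G3.lp n := by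
  unfold Pool.Agent.Lib.G3.lp
  split_ifs
  · exact Real.log_natCast_nonneg n
  · exact le_rfl

private theorem bd_log2 (g : ℕ) : 0 < Real.log ((2 * 2 ^ g : ℕ) : ℝ) := by
  refine Real.log_pos ?_
  have : 1 < 2 * 2 ^ g := by
    have := Nat.one_le_two_pow (n := g)
    omega
  exact_mod_cast this

private theorem bd_i {a b x : ℕ} (h1 : 2 ^ a < x) (h2 : x ≤ 2 ^ (a + 1)) (h3 : 2 ^ b < x) (h4 : x ≤ 2 ^ (b + 1)) : a = b := by
  have key : ∀ u v : ℕ, 2 ^ v < x → x ≤ 2 ^ (u + 1) → ¬ u < v := by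
    intro u v hv hu huv
    have : 2 ^ (u + 1) ≤ 2 ^ v := Nat.pow_le_pow_right (by norm_num) huv
    omega
  have k1 := key a b h3 h2
  have k2 := key b a h1 h4
  omega

private theorem bd_j {a b x : ℕ} (h1 : 2 ^ a ≤ x) (h2 : x < 2 * 2 ^ a) (h3 : 2 ^ b ≤ x) (h4 : x < 2 * 2 ^ b) : a = b := by
  have key : ∀ u v : ℕ, 2 ^ v ≤ x → x < 2 * 2 ^ u → ¬ u < v := by
    intro u v hv hu huv
    have : 2 ^ (u + 1) ≤ 2 ^ v := Nat.pow_le_pow_right (by norm_num) huv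
    rw [pow_succ] at this
    omega
  have k1 := key a b h3 h2
  have k2 := key b a h1 h4
  omega

private theorem bd_g {a b c x : ℕ} (h1 : c * 2 ^ a < x) (h2 : x ≤ 2 * (c * 2 ^ a)) (h3 : c * 2 ^ b < x)
    (h4 : x ≤ 2 * (c * 2 ^ b)) : a = b := by
  have key : ∀ u v : ℕ, c * 2 ^ v < x → x ≤ 2 * (c * 2 ^ u) → ¬ u < v := by
    intro u v hv hu huv
    have h5 : 2 ^ (u + 1) ≤ 2 ^ v := Nat.pow_le_pow_right (by norm_num) huv
    have h6 : c * 2 ^ (u + 1) ≤ c * 2 ^ v := Nat.mul_le_mul_left c h5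
    have h7 : c * 2 ^ (u + 1) = 2 * (c * 2 ^ u) := by
      rw [pow_succ]
      ring
    omega
  have k1 := key a b h3 h2
  have k2 := key b a h1 h4
  omega

private theorem bd_rho {Y : ℕ} (S : Finset ℕ) (a : ℕ → ℝ) (g M n : ℕ) :
    Real.log (2 * 2 ^ g : ℕ) / Real.log (32 * Y : ℕ) * rhoS S a (2 ^ g) M n =
      (∑ p ∈ S, ∑ m ∈ Ico M (2 * M), if p * m * 2 ^ g < n ∧ n ≤ 2 * (p * m * 2 ^ g) then a m / (p * m) else 0) /
        Real.log (32 * Y : ℕ) := by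
  have hL := bd_log2 g
  unfold rhoS
  rw [Finset.mul_sum, Finset.sum_div]
  refine sum_congr rfl fun p _ => ?_
  rw [Finset.mul_sum, Finset.sum_div]
  refine sum_congr rfl fun m _ => ?_
  split_ifs with h
  · have h1 : ((p : ℝ) * m * Real.log ((2 * 2 ^ g : ℕ) : ℝ)) = (p * m) * Real.log ((2 * 2 ^ g : ℕ) : ℝ) := rfl
    rw [h1, ← div_div (a m), div_mul_div_comm, mul_comm (Real.log ((2 * 2 ^ g : ℕ) : ℝ)) (a m / (p * m)),
      mul_div_mul_right _ _ hL.ne']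
  · simp

private theorem bd_aL (k U i m : ℕ) : 0 ≤ aL k U i m := by
  unfold aL
  split_ifs
  · exact zero_le_one
  · exact le_rfl

private theorem bd_aS {k : ℕ} (hk : 2 ≤ k) (U i m : ℕ) : aL k U i m = ((k : ℝ) - 1) * aS k (2 ^ (i + 1)) U m := by
  have hk' : (k : ℝ) - 1 ≠ 0 := by
    have : (2 : ℝ) ≤ k := by exact_mod_cast hk
    intro h
    linarith
  unfold aL aS
  split_ifs
  · field_simp
  · simp

private theorem bd_esy {k U N : ℕ} (hk : 2 ≤ k) (hN : U ^ (k - 2) ≤ N) (i : ℕ) :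
    ∑ m ∈ Icc 1 N, aL k U i m / m = esy (k - 2) (2 ^ (i + 1)) U := by
  have hk' : (k : ℝ) - 1 ≠ 0 := by
    have : (2 : ℝ) ≤ k := by exact_mod_cast hk
    intro h
    linarith
  have h1 := esy_sum (w := 2 ^ (i + 1)) hk hN
  have h2 : ∑ m ∈ Icc 1 N, aL k U i m / m = ((k : ℝ) - 1) * ∑ m ∈ Icc 1 N, aS k (2 ^ (i + 1)) U m / m := by
    rw [Finset.mul_sum]
    refine sum_congr rfl fun m _ => ?_
    rw [bd_aS hk, mul_div_assoc]
  rw [h2, h1]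
  field_simp

private theorem bd_di {i q : ℕ} (h1 : 2 ^ i < q) (h2 : q ≤ 2 ^ (i + 1)) : di q = i := by
  have h0 : 1 ≤ 2 ^ i := Nat.one_le_two_pow
  unfold di
  rw [Nat.log_eq_iff (Or.inr ⟨by norm_num, by omega⟩)]
  constructor <;> omega

private theorem bd_SL {S : Finset ℕ} {i q : ℕ} (h : q ∈ SL S i) : q ∈ S ∧ 2 ^ i < q ∧ q ≤ 2 ^ (i + 1) := by
  unfold SL at h
  rw [mem_filter] at h
  exact h

/-- members of `IZ` -/
private theorem bd_IZ {Y k U : ℕ} {S : Finset ℕ} {b : ℕ × ℕ × ℕ} (hb : b ∈ IZ Y k U S) : b ∈ IL (4 * Y) 3 k U S ∧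
    2 ^ b.2.1 ≤ U ^ (k - 2) ∧ 2 ^ b.1 * 2 ^ b.2.1 * 2 ^ b.2.2 ≤ 4 * Y := by
  unfold IZ at hb
  rw [mem_filter] at hb
  have h := hb.1
  unfold IL at h
  rw [mem_filter] at h
  exact ⟨hb.1, h.2.2.1, h.2.2.2.2⟩

/-- the size of a product of a block -/
private theorem bd_size {Y k U : ℕ} {S : Finset ℕ} {b : ℕ × ℕ × ℕ} (hb : b ∈ IZ Y k U S) {p m r : ℕ} (hp : p ≤ 2 ^ (b.1 + 1))
    (hm : m < 2 * 2 ^ b.2.1) (hr : r ≤ 2 ^ b.2.2) : 2 * (p * m * r) ≤ 32 * Y := by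
  have h1 := (bd_IZ hb).2.2
  have h2 : p * m * r ≤ 2 ^ (b.1 + 1) * (2 * 2 ^ b.2.1) * 2 ^ b.2.2 := Nat.mul_le_mul (Nat.mul_le_mul hp hm.le) hr
  have h3 : 2 ^ (b.1 + 1) * (2 * 2 ^ b.2.1) * 2 ^ b.2.2 = 4 * (2 ^ b.1 * 2 ^ b.2.1 * 2 ^ b.2.2) := by
    rw [pow_succ]
    ring
  omega

/-- one term of `rZ` written over all `q ∈ S` and all `m` -/
private theorem bd_block {Y k U N : ℕ} {S : Finset ℕ} (hN : 2 * U ^ (k - 2) ≤ N) (n : ℕ) {b : ℕ × ℕ × ℕ} (hb : b ∈ IZ Y k U S) :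
    (∑ p ∈ SL S b.1, ∑ m ∈ Ico (2 ^ b.2.1) (2 * 2 ^ b.2.1),
      if p * m * 2 ^ b.2.2 < n ∧ n ≤ 2 * (p * m * 2 ^ b.2.2) then aL k U b.1 m / (p * m) else 0) =
    ∑ p ∈ S, ∑ m ∈ Icc 1 N, if (2 ^ b.1 < p ∧ p ≤ 2 ^ (b.1 + 1)) ∧ (2 ^ b.2.1 ≤ m ∧ m < 2 * 2 ^ b.2.1) ∧
      (p * m * 2 ^ b.2.2 < n ∧ n ≤ 2 * (p * m * 2 ^ b.2.2)) then aL k U b.1 m / (p * m) else 0 := by
  have hj := (bd_IZ hb).2.1
  unfold SL
  rw [Finset.sum_filter]
  refine sum_congr rfl fun p _ => ?_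
  by_cases h : 2 ^ b.1 < p ∧ p ≤ 2 ^ (b.1 + 1)
  · rw [if_pos h]
    have h1 : Ico (2 ^ b.2.1) (2 * 2 ^ b.2.1) = (Icc 1 N).filter fun m => 2 ^ b.2.1 ≤ m ∧ m < 2 * 2 ^ b.2.1 := by
      ext m
      rw [mem_Ico, mem_filter, mem_Icc]
      have := Nat.one_le_two_pow (n := b.2.1)
      constructor
      · rintro ⟨h2, h3⟩
        exact ⟨⟨by omega, by omega⟩, h2, h3⟩
      · exact fun h2 => h2.2
    rw [h1, Finset.sum_filter]
    refine sum_congr rfl fun m _ => ?_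
    by_cases h2 : 2 ^ b.2.1 ≤ m ∧ m < 2 * 2 ^ b.2.1
    · rw [if_pos h2]
      by_cases h3 : p * m * 2 ^ b.2.2 < n ∧ n ≤ 2 * (p * m * 2 ^ b.2.2)
      · rw [if_pos h3, if_pos ⟨h, h2, h3⟩]
      · rw [if_neg h3, if_neg (fun h4 => h3 h4.2.2)]
    · rw [if_neg h2, if_neg (fun h4 => h2 h4.2.1)]
  · rw [if_neg h]
    refine (Finset.sum_eq_zero fun m _ => ?_).symm
    rw [if_neg (fun h4 => h h4.1)]

/-- a smaller exponent -/
private theorem bd_Rg {Y U w' c1 K k : ℕ} {S : Finset ℕ} (hk : 2 ≤ k) (hkK : k ≤ K) (h : RgL (4 * Y) U w' c1 (1000 * K) S) :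
    RgL (4 * Y) U w' c1 (1000 * k) S := by
  obtain ⟨h1, h2, h3⟩ := h
  refine ⟨h1, h2, ?_⟩
  rcases Nat.eq_zero_or_pos U with h0 | h0
  · rw [h0, zero_pow (by omega)]
    exact Nat.zero_le _
  · exact (Nat.pow_le_pow_right h0 (by omega)).trans h3

theorem rZ_le (K c1 : ℕ) : ∃ x0 : ℝ, ∀ Y : ℕ, x0 ≤ Y → ∀ (U w' : ℕ) (S : Finset ℕ), RgL (4 * Y) U w' c1 (1000 * K) S → ∀ k : ℕ, 2 ≤ k → k ≤ K → ∀ n : ℕ,
    0 ≤ rZ Y k U S n ∧ rZ Y k U S n ≤ 1 ∧ (rZ Y k U S n ≠ 0 → 1 ≤ n ∧ n ≤ 32 * Y) := by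
  classical
  obtain ⟨x1, hx1⟩ := sL_le K c1
  refine ⟨max x1 2, fun Y hY U w' S hR k hk hkK n => ?_⟩
  have hY2 : (2 : ℝ) ≤ Y := (le_max_right _ _).trans hY
  obtain ⟨hs0, hs1⟩ := hx1 Y ((le_max_left _ _).trans hY) U w' (1000 * K) S (by omega) hR k hk hkK
  have hlY : Real.log Y ≤ Real.log (32 * Y : ℕ) := by
    refine Real.log_le_log (by linarith) ?_
    push_cast
    linarith
  have hlY0 : 0 < Real.log Y := Real.log_pos (by linarith)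
  have hl : 0 < Real.log (32 * Y : ℕ) := lt_of_lt_of_le hlY0 hlY
  have ha := bd_aL k U
  set t : ℕ × ℕ × ℕ → ℕ → ℕ → ℝ := fun b p m =>
    if p * m * 2 ^ b.2.2 < n ∧ n ≤ 2 * (p * m * 2 ^ b.2.2) then aL k U b.1 m / (p * m) else 0 with ht
  have ht0 : ∀ b p m, 0 ≤ t b p m := by
    intro b p m
    simp only [ht]
    split_ifs
    · exact div_nonneg (ha _ m) (by positivity)
    · exact le_rfl
  have e1 : rZ Y k U S n = (∑ b ∈ IZ Y k U S, ∑ p ∈ SL S b.1, ∑ m ∈ Ico (2 ^ b.2.1) (2 * 2 ^ b.2.1), t b p m) /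
      Real.log (32 * Y : ℕ) := by
    unfold rZ
    rw [Finset.sum_div]
    exact sum_congr rfl fun b _ => bd_rho _ _ _ _ _
  refine ⟨?_, ?_, ?_⟩
  · rw [e1]
    exact div_nonneg (Finset.sum_nonneg fun b _ => Finset.sum_nonneg fun p _ => Finset.sum_nonneg fun m _ => ht0 b p m) hl.le
  · rw [e1, div_le_one hl]
    set N := 2 * U ^ (k - 2) with hN
    have e2 : ∑ b ∈ IZ Y k U S, ∑ p ∈ SL S b.1, ∑ m ∈ Ico (2 ^ b.2.1) (2 * 2 ^ b.2.1), t b p m =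
        ∑ p ∈ S, ∑ m ∈ Icc 1 N, ∑ b ∈ IZ Y k U S, if (2 ^ b.1 < p ∧ p ≤ 2 ^ (b.1 + 1)) ∧
          (2 ^ b.2.1 ≤ m ∧ m < 2 * 2 ^ b.2.1) ∧ (p * m * 2 ^ b.2.2 < n ∧ n ≤ 2 * (p * m * 2 ^ b.2.2)) then
            aL k U b.1 m / (p * m) else 0 := by
      rw [Finset.sum_congr rfl fun b hb => bd_block hN.symm.le n hb, Finset.sum_comm]
      exact sum_congr rfl fun p _ => Finset.sum_comm
    have e3 : ∀ p m : ℕ, (∑ b ∈ IZ Y k U S, if (2 ^ b.1 < p ∧ p ≤ 2 ^ (b.1 + 1)) ∧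
          (2 ^ b.2.1 ≤ m ∧ m < 2 * 2 ^ b.2.1) ∧ (p * m * 2 ^ b.2.2 < n ∧ n ≤ 2 * (p * m * 2 ^ b.2.2)) then
            aL k U b.1 m / (p * m) else 0) ≤ aL k U (di p) m / (p * m) := by
      intro p m
      have h0 : 0 ≤ aL k U (di p) m / ((p : ℝ) * m) := div_nonneg (ha _ m) (by positivity)
      refine bd_one _ _ _ h0 ?_ ?_
      · intro b _
        split_ifs with h
        · rw [bd_di h.1.1 h.1.2]
        · exact h0
      · intro b _ b' _ hb hb'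
        rw [ne_eq, ite_eq_right_iff, Classical.not_imp] at hb hb'
        obtain ⟨⟨⟨i1, i2⟩, ⟨j1, j2⟩, ⟨g1, g2⟩⟩, -⟩ := hb
        obtain ⟨⟨⟨i3, i4⟩, ⟨j3, j4⟩, ⟨g3, g4⟩⟩, -⟩ := hb'
        have hi := bd_i i1 i2 i3 i4
        have hj := bd_j j1 j2 j3 j4
        have hg := bd_g g1 g2 g3 g4
        exact Prod.ext hi (Prod.ext hj hg)
    have e4 : ∑ p ∈ S, ∑ m ∈ Icc 1 N, aL k U (di p) m / ((p : ℝ) * m) = sL k U S := by
      unfold sL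
      refine sum_congr rfl fun p _ => ?_
      rw [← bd_esy hk (show U ^ (k - 2) ≤ N by omega) (di p), Finset.mul_sum]
      refine sum_congr rfl fun m _ => ?_
      rw [div_mul_div_comm, one_mul]
    rw [e2]
    calc _ ≤ ∑ p ∈ S, ∑ m ∈ Icc 1 N, aL k U (di p) m / ((p : ℝ) * m) :=
          Finset.sum_le_sum fun p _ => Finset.sum_le_sum fun m _ => e3 p m
      _ = sL k U S := e4
      _ ≤ Real.log Y := hs1
      _ ≤ _ := hlY
  · intro hne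
    rw [e1] at hne
    have hne' : ∑ b ∈ IZ Y k U S, ∑ p ∈ SL S b.1, ∑ m ∈ Ico (2 ^ b.2.1) (2 * 2 ^ b.2.1), t b p m ≠ 0 := by
      intro h
      rw [h, zero_div] at hne
      exact hne rfl
    obtain ⟨b, hb, h1⟩ := Finset.exists_ne_zero_of_sum_ne_zero hne'
    obtain ⟨p, hp, h2⟩ := Finset.exists_ne_zero_of_sum_ne_zero h1
    obtain ⟨m, hm, h3⟩ := Finset.exists_ne_zero_of_sum_ne_zero h2
    simp only [ht] at h3
    rw [ne_eq, ite_eq_right_iff, Classical.not_imp] at h3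
    obtain ⟨⟨h4, h5⟩, -⟩ := h3
    have h6 := bd_size hb (bd_SL hp).2.2 (mem_Ico.1 hm).2 (le_refl (2 ^ b.2.2))
    exact ⟨by omega, by omega⟩

/-- the block functions are nonnegative and have small support -/
private theorem bd_bL {k U : ℕ} (S : Finset ℕ) (b : ℕ × ℕ × ℕ) (n : ℕ) : 0 ≤ bL k U S b n := by
  unfold bL bS
  refine Finset.sum_nonneg fun p _ => Finset.sum_nonneg fun r _ => Finset.sum_nonneg fun m _ => ?_
  split_ifs
  · exact mul_nonneg (bd_aL _ _ _ m) (div_nonneg (bd_lp r) (Real.log_natCast_nonneg _))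
  · exact le_rfl

private theorem bd_bLs {Y k U n : ℕ} {S : Finset ℕ} {b : ℕ × ℕ × ℕ} (hb : b ∈ IZ Y k U S) (hne : bL k U S b n ≠ 0) : 1 ≤ n ∧ n ≤ 32 * Y := by
  unfold bL bS at hne
  obtain ⟨p, hp, h1⟩ := Finset.exists_ne_zero_of_sum_ne_zero hne
  obtain ⟨r, hr, h2⟩ := Finset.exists_ne_zero_of_sum_ne_zero h1
  obtain ⟨m, hm, h3⟩ := Finset.exists_ne_zero_of_sum_ne_zero h2
  rw [ne_eq, ite_eq_right_iff, Classical.not_imp] at h3
  have h4 := h3.1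
  unfold Pool.Agent.Lib.G3.pr at hr
  rw [mem_filter, mem_Ioc] at hr
  have hp' := bd_SL hp
  rw [mem_Ico] at hm
  have h5 := (bd_IZ hb).2.2
  have hm1 := Nat.one_le_two_pow (n := b.2.1)
  constructor
  · rw [← h4]
    exact Nat.mul_pos (Nat.mul_pos (by omega) (by omega)) hr.2.pos
  · rw [← h4]
    calc p * m * r ≤ 2 ^ (b.1 + 1) * (2 * 2 ^ b.2.1) * (2 * 2 ^ b.2.2) :=
          Nat.mul_le_mul (Nat.mul_le_mul hp'.2.2 hm.2.le) hr.1.2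
      _ = 8 * (2 ^ b.1 * 2 ^ b.2.1 * 2 ^ b.2.2) := by
          rw [pow_succ]
          ring
      _ ≤ 32 * Y := by omega

theorem FZ_le (K c1 : ℕ) : ∃ x0 : ℝ, ∀ Y : ℕ, x0 ≤ Y → ∀ (U w' : ℕ) (S : Finset ℕ), RgL (4 * Y) U w' c1 (1000 * K) S → ∀ k : ℕ, 2 ≤ k → k ≤ K → ∀ n : ℕ,
    0 ≤ FZ Y k U S n ∧ FZ Y k U S n ≤ 1 ∧ (FZ Y k U S n ≠ 0 → 1 ≤ n ∧ n ≤ 32 * Y) := by
  classical
  choose f hf using fun k : ℕ => Pool.Agent.Lib.G8.l4 (max k 2) 3 c1 (le_max_right k 2)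
  refine ⟨max (∑ k ∈ range (K + 1), |f k|) 2, fun Y hY U w' S hR k hk hkK n => ?_⟩
  have hY2 : (2 : ℝ) ≤ Y := (le_max_right _ _).trans hY
  have hl : 0 < Real.log (32 * Y : ℕ) := by
    refine Real.log_pos ?_
    push_cast
    linarith
  have hkf : f k ≤ ((4 * Y : ℕ) : ℝ) := by
    have h1 : |f k| ≤ ∑ k ∈ range (K + 1), |f k| :=
      Finset.single_le_sum (f := fun k => |f k|) (fun i _ => abs_nonneg (f i)) (mem_range.2 (by omega))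
    have h2 : ∑ k ∈ range (K + 1), |f k| ≤ Y := (le_max_left _ _).trans hY
    have h3 := le_abs_self (f k)
    push_cast
    linarith
  have hq := hf k (4 * Y) hkf U w' S
  rw [max_eq_left hk] at hq
  replace hq := hq (bd_Rg hk hkK hR)
  have hc : ∀ b ∈ IZ Y k U S, 0 ≤ Real.log (2 * 2 ^ b.2.2 : ℕ) / Real.log (32 * Y : ℕ) ∧
      Real.log (2 * 2 ^ b.2.2 : ℕ) / Real.log (32 * Y : ℕ) ≤ 1 := by
    intro b hb
    refine ⟨div_nonneg (bd_log2 _).le hl.le, ?_⟩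
    rw [div_le_one hl]
    refine Real.log_le_log ?_ ?_
    · have : 0 < 2 * 2 ^ b.2.2 := by positivity
      exact_mod_cast this
    · have h1 := (bd_IZ hb).2.2
      have h2 : 2 ^ b.2.2 ≤ 2 ^ b.1 * 2 ^ b.2.1 * 2 ^ b.2.2 := Nat.le_mul_of_pos_left _ (by positivity)
      have h3 : 2 * 2 ^ b.2.2 ≤ 32 * Y := by omega
      exact_mod_cast h3
  have hnn := fun b => bd_bL (k := k) (U := U) S b n
  have hsupp : FZ Y k U S n ≠ 0 → 1 ≤ n ∧ n ≤ 32 * Y := by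
    intro hne
    unfold FZ at hne
    obtain ⟨b, hb, h1⟩ := Finset.exists_ne_zero_of_sum_ne_zero hne
    exact bd_bLs hb (right_ne_zero_of_mul h1)
  refine ⟨?_, ?_, hsupp⟩
  · unfold FZ
    exact Finset.sum_nonneg fun b hb => mul_nonneg (hc b hb).1 (hnn b)
  · by_cases hn : 1 ≤ n
    · have h1 := ((hq n hn).1).2
      calc FZ Y k U S n ≤ ∑ b ∈ IZ Y k U S, bL k U S b n := by
            unfold FZ
            refine Finset.sum_le_sum fun b hb => ?_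
            exact mul_le_of_le_one_left (hnn b) (hc b hb).2
        _ ≤ ∑ b ∈ IL (4 * Y) 3 k U S, bL k U S b n := by
            refine Finset.sum_le_sum_of_subset_of_nonneg (fun b hb => (bd_IZ hb).1) fun b _ _ => hnn b
        _ ≤ 1 := h1
    · by_cases h0 : FZ Y k U S n = 0
      · rw [h0]
        exact zero_le_one
      · exact absurd (hsupp h0).1 hn

end Pool.Agent.Lib.T8
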