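import Pool.Agent.Lib.T8.Bd
import Pool.Agent.Lib.G8.L4

/-!
# T8, row Pt: the member function pointwise on `(Y, 3Y]` (see row Unw)

PROOF IN WORDS. `FZ n ≠ 0`: some `bL k U S b n ≠ 0` with `b ∈ IL (4Y) 3 k U S`, all `bL ≥ 0`, so the sum over `IL (4Y)` is `≠ 0`: `l4 k 3 c1` at `4Y` gives `EL k U S n`. `EL k U S n`: `l4` gives `∑_{b ∈ IL (4Y)} bL ≥ 1 - 2/log 4Y`
(`8 · 4Y/(log 4Y)^3 ≤ Y < n ≤ 4Y`); the blocks with `bL k U S b n ≠ 0` have `n ≤ 8 · 2^(i+j+g)`, so they are in `IZ`, and `2·2^g ≥ n/(4 · 2^(i+j)) ≥ Y/(4 U^(k-1))`, so `log (2·2^g)/log 32Y ≥ 1 - (log 128 + k log U)/log 32Y ≥ 1 - δ/2`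
as `log U ≤ (log 4Y)/M` and `M ≥ 4 K/δ` (compare `wunw_log`, `wunw_pt` in VK/WUnw.lean).
-/

set_option autoImplicit false

open Finset Filter

namespace Pool.Agent.Lib.T8

open Pool.Agent.Lib.G8 (di SL aL IL bL sL EL RgL)

private theorem ptz_bL (k U : ℕ) (S : Finset ℕ) (b : ℕ × ℕ × ℕ) (n : ℕ) : 0 ≤ bL k U S b n := by
  unfold bL Pool.Agent.Lib.G5.bS
  refine Finset.sum_nonneg fun p _ => Finset.sum_nonneg fun r _ => Finset.sum_nonneg fun m _ => ?_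
  split_ifs
  · refine mul_nonneg ?_ (div_nonneg ?_ (Real.log_natCast_nonneg _))
    · unfold aL
      split_ifs
      · exact zero_le_one
      · exact le_rfl
    · unfold Pool.Agent.Lib.G3.lp
      split_ifs
      · exact Real.log_natCast_nonneg _
      · exact le_rfl
  · exact le_rfl

private theorem ptz_bL0 {k U : ℕ} {S : Finset ℕ} (b : ℕ × ℕ × ℕ) {n : ℕ}
    (h : 8 * (2 ^ b.1 * 2 ^ b.2.1 * 2 ^ b.2.2) < n) : bL k U S b n = 0 := by
  unfold bL Pool.Agent.Lib.G5.bS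
  refine Finset.sum_eq_zero fun p hp => Finset.sum_eq_zero fun r hr => Finset.sum_eq_zero fun m hm => ?_
  rw [if_neg]
  intro he
  unfold SL at hp
  rw [mem_filter] at hp
  unfold Pool.Agent.Lib.G3.pr at hr
  rw [mem_filter, mem_Ioc] at hr
  rw [mem_Ico] at hm
  have h1 : p * m * r ≤ 2 ^ (b.1 + 1) * (2 * 2 ^ b.2.1) * (2 * 2 ^ b.2.2) :=
    Nat.mul_le_mul (Nat.mul_le_mul hp.2.2 hm.2.le) hr.1.2
  have h2 : 2 ^ (b.1 + 1) * (2 * 2 ^ b.2.1) * (2 * 2 ^ b.2.2) = 8 * (2 ^ b.1 * 2 ^ b.2.1 * 2 ^ b.2.2) := by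
    rw [pow_succ]
    ring
  omega

private theorem ptz_log {Y k U w' c1 M : ℕ} {S : Finset ℕ} {b : ℕ × ℕ × ℕ} (hR : RgL (4 * Y) U w' c1 M S) (hk : 2 ≤ k)
    (hb : b ∈ IZ Y k U S) (hY : 1 ≤ Y) :
    Real.log Y ≤ 2 + k * Real.log U + Real.log ((2 * 2 ^ b.2.2 : ℕ) : ℝ) := by
  unfold IZ at hb
  rw [mem_filter] at hb
  obtain ⟨hb, hb8⟩ := hb
  unfold IL at hb
  rw [mem_filter] at hb
  obtain ⟨-, ⟨p, hp⟩, hj, -, -⟩ := hb
  unfold SL at hp
  rw [mem_filter] at hp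
  have hpw := (hR.hS p hp.1).2.2
  have hwU := hR.h2
  have hi : 2 ^ b.1 ≤ U := by omega
  have hU0 : 1 ≤ U := le_trans Nat.one_le_two_pow hi
  have h1 : Y ≤ 4 * U ^ (k - 1) * (2 * 2 ^ b.2.2) := by
    have h2 : 2 ^ b.1 * 2 ^ b.2.1 ≤ U * U ^ (k - 2) := Nat.mul_le_mul hi hj
    have h3 : U * U ^ (k - 2) = U ^ (k - 1) := by
      rw [mul_comm, ← pow_succ]
      congr 1
      omega
    rw [h3] at h2
    calc Y ≤ 8 * (2 ^ b.1 * 2 ^ b.2.1 * 2 ^ b.2.2) := hb8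
      _ ≤ 8 * (U ^ (k - 1) * 2 ^ b.2.2) := Nat.mul_le_mul_left 8 (Nat.mul_le_mul_right _ h2)
      _ = 4 * U ^ (k - 1) * (2 * 2 ^ b.2.2) := by ring
  have hYp : (0 : ℝ) < Y := by exact_mod_cast hY
  have hU0' : (0 : ℝ) < U := by exact_mod_cast hU0
  have h4 : (Y : ℝ) ≤ ((4 * U ^ (k - 1) * (2 * 2 ^ b.2.2) : ℕ) : ℝ) := by exact_mod_cast h1
  have h5 := Real.log_le_log hYp h4
  have hg : (0 : ℝ) < ((2 * 2 ^ b.2.2 : ℕ) : ℝ) := by
    have : 0 < 2 * 2 ^ b.2.2 := by positivity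
    exact_mod_cast this
  have h6 : Real.log ((4 * U ^ (k - 1) * (2 * 2 ^ b.2.2) : ℕ) : ℝ) =
      Real.log 4 + ((k - 1 : ℕ) : ℝ) * Real.log U + Real.log ((2 * 2 ^ b.2.2 : ℕ) : ℝ) := by
    rw [Nat.cast_mul, Nat.cast_mul, Nat.cast_pow, Real.log_mul (by positivity) hg.ne', Real.log_mul (by norm_num) (by positivity),
      Real.log_pow]
    norm_num
  have h7 : Real.log 4 ≤ 2 := by
    have : Real.log 4 = 2 * Real.log 2 := by
      rw [show (4 : ℝ) = 2 ^ 2 by norm_num, Real.log_pow]; norm_num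
    rw [this]
    have := Real.log_two_lt_d9
    linarith
  have h8 : ((k - 1 : ℕ) : ℝ) * Real.log U ≤ k * Real.log U := by
    refine mul_le_mul_of_nonneg_right ?_ (Real.log_natCast_nonneg _)
    exact_mod_cast Nat.sub_le k 1
  linarith

/-- the pointwise bounds -/
private theorem ptz_pt (k K c1 : ℕ) (hk2 : 2 ≤ k) (hkK : k ≤ K) (η : ℝ) (hη : 0 < η) (M : ℕ) (hM : 1000 * K ≤ M)
    (hMη : 4 * (K : ℝ) ≤ η * M) : ∃ x0 : ℝ, ∀ (Y U w' : ℕ) (S : Finset ℕ), x0 ≤ Y → RgL (4 * Y) U w' c1 M S → ∀ n : ℕ,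
    Y < n → n ≤ 3 * Y → (FZ Y k U S n ≠ 0 → EL k U S n) ∧ (EL k U S n → 1 - η ≤ FZ Y k U S n) := by
  classical
  obtain ⟨x2, hx2⟩ := Pool.Agent.Lib.G8.l4 k 3 c1 hk2
  refine ⟨max |x2| (max (Real.exp (18 / η)) (Real.exp 1296)), fun Y U w' S hY hR n hn1 hn3 => ?_⟩
  have hY2 : |x2| ≤ Y := (le_max_left _ _).trans hY
  have hY3 : Real.exp (18 / η) ≤ Y := (le_max_left _ _).trans ((le_max_right _ _).trans hY)
  have hY4 : Real.exp 1296 ≤ Y := (le_max_right _ _).trans ((le_max_right _ _).trans hY)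
  have hYpos : (0 : ℝ) < Y := lt_of_lt_of_le (Real.exp_pos _) hY4
  have hYnat : 1 ≤ Y := by exact_mod_cast hYpos
  set L : ℝ := Real.log Y with hLdef
  have hL : (1296 : ℝ) ≤ L := by
    rw [hLdef, Real.le_log_iff_exp_le hYpos]; exact hY4
  have hLη : 18 / η ≤ L := by
    rw [hLdef, Real.le_log_iff_exp_le hYpos]; exact hY3
  have hLpos : (0 : ℝ) < L := by linarith
  have h9 : 9 / L ≤ η / 2 := by
    rw [div_le_iff₀ hη] at hLη
    rw [div_le_iff₀ hLpos]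
    linarith
  have hlog32 : Real.log 32 ≤ 5 := by
    have : Real.log 32 = 5 * Real.log 2 := by
      rw [show (32 : ℝ) = 2 ^ 5 by norm_num, Real.log_pow]; norm_num
    rw [this]
    have := Real.log_two_lt_d9
    linarith
  have hX : Real.log ((32 * Y : ℕ) : ℝ) = Real.log 32 + L := by
    rw [Nat.cast_mul, Real.log_mul (by norm_num) hYpos.ne']
    norm_num
    rfl
  have hlog32' : 0 ≤ Real.log 32 := Real.log_nonneg (by norm_num)
  have hXpos : 0 < Real.log ((32 * Y : ℕ) : ℝ) := by rw [hX]; linarith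
  have hX5 : Real.log ((32 * Y : ℕ) : ℝ) ≤ L + 5 := by rw [hX]; linarith
  have hlog4 : Real.log 4 ≤ 2 := by
    have : Real.log 4 = 2 * Real.log 2 := by
      rw [show (4 : ℝ) = 2 ^ 2 by norm_num, Real.log_pow]; norm_num
    rw [this]
    have := Real.log_two_lt_d9
    linarith
  have hlog4' : 0 ≤ Real.log 4 := Real.log_nonneg (by norm_num)
  have h4Y : Real.log ((4 * Y : ℕ) : ℝ) = Real.log 4 + L := by
    rw [Nat.cast_mul, Real.log_mul (by norm_num) hYpos.ne']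
    norm_num
    rfl
  have h4Ypos : 0 < Real.log ((4 * Y : ℕ) : ℝ) := by rw [h4Y]; linarith
  have h4YL : L ≤ Real.log ((4 * Y : ℕ) : ℝ) := by rw [h4Y]; linarith
  have h4Y2 : Real.log ((4 * Y : ℕ) : ℝ) ≤ 2 * L := by rw [h4Y]; linarith
  have hRk : RgL (4 * Y) U w' c1 (1000 * k) S := by
    refine ⟨hR.hS, hR.h2, ?_⟩
    rcases Nat.eq_zero_or_pos U with hU | hU
    · rw [hU, zero_pow (by omega)]
      exact Nat.zero_le _
    · exact (Nat.pow_le_pow_right hU (by omega)).trans hR.h3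
  have hx2' : x2 ≤ ((4 * Y : ℕ) : ℝ) := by
    have := le_abs_self x2
    push_cast
    linarith
  obtain ⟨-, hqb, hqc⟩ := hx2 (4 * Y) hx2' U w' S hRk n (by omega)
  have hsum : ∑ b ∈ IL (4 * Y) 3 k U S, bL k U S b n = ∑ b ∈ IZ Y k U S, bL k U S b n := by
    unfold IZ
    rw [Finset.sum_filter]
    refine sum_congr rfl fun b _ => ?_
    by_cases hb : Y ≤ 8 * (2 ^ b.1 * 2 ^ b.2.1 * 2 ^ b.2.2)
    · rw [if_pos hb]
    · rw [if_neg hb]
      exact ptz_bL0 b (by omega)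
  have hnn := fun b => ptz_bL k U S b n
  have hF0 : 0 ≤ FZ Y k U S n := by
    unfold FZ
    exact Finset.sum_nonneg fun b _ =>
      mul_nonneg (div_nonneg (Real.log_natCast_nonneg _) (Real.log_natCast_nonneg _)) (hnn b)
  refine And.symm ⟨fun hE => ?_, fun hne => ?_⟩
  · have h1 : 1 - 2 / Real.log ((4 * Y : ℕ) : ℝ) ≤ ∑ b ∈ IZ Y k U S, bL k U S b n := by
      rw [← hsum]
      refine hqc hE ?_ (by omega)
      rw [div_le_iff₀ (by positivity)]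
      have h2 : (32 : ℝ) ≤ (Real.log ((4 * Y : ℕ) : ℝ)) ^ 3 := by
        calc (32 : ℝ) ≤ 1296 ^ 3 := by norm_num
          _ ≤ _ := pow_le_pow_left₀ (by norm_num) (by linarith) 3
      have h3 : (Y : ℝ) ≤ n := by exact_mod_cast hn1.le
      calc 8 * ((4 * Y : ℕ) : ℝ) = Y * 32 := by push_cast; ring
        _ ≤ n * (Real.log ((4 * Y : ℕ) : ℝ)) ^ 3 := mul_le_mul h3 h2 (by norm_num) (Nat.cast_nonneg _)
    set D' : ℝ := η / 2 + 7 / L with hD'
    have hD'L : D' * L = η / 2 * L + 7 := by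
      rw [hD']; field_simp
    have hD'0 : 0 ≤ D' := by rw [hD']; positivity
    have hDD : D' + 2 / L ≤ η := by
      have h2 : 7 / L + 2 / L = 9 / L := by rw [← add_div]; norm_num
      rw [hD']
      linarith
    have hcoef : ∀ b ∈ IZ Y k U S, 1 - D' ≤ Real.log ((2 * 2 ^ b.2.2 : ℕ) : ℝ) / Real.log ((32 * Y : ℕ) : ℝ) := by
      intro b hb
      have h2 := ptz_log hR hk2 hb hYnat
      have hg0 : 0 ≤ Real.log ((2 * 2 ^ b.2.2 : ℕ) : ℝ) := Real.log_natCast_nonneg _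
      have hlw0 : 0 ≤ Real.log (U : ℝ) := Real.log_natCast_nonneg _
      have hlw : (M : ℝ) * Real.log (U : ℝ) ≤ 2 * L := by
        rcases Nat.eq_zero_or_pos U with hU | hU
        · rw [hU]
          simp only [Nat.cast_zero, Real.log_zero, mul_zero]
          linarith
        · have hw0 : (0 : ℝ) < U := by exact_mod_cast hU
          have h3 : ((U : ℝ)) ^ M ≤ ((4 * Y : ℕ) : ℝ) := by exact_mod_cast hR.h3
          have h4 := Real.log_le_log (by positivity) h3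
          rw [Real.log_pow] at h4
          exact h4.trans h4Y2
      have h5 : (k : ℝ) * Real.log U ≤ η / 2 * L := by
        have h6 : (k : ℝ) ≤ K := by exact_mod_cast hkK
        have h7 : (k : ℝ) * Real.log U ≤ K * Real.log U := mul_le_mul_of_nonneg_right h6 hlw0
        have h8 : 4 * (K : ℝ) * Real.log U ≤ η * M * Real.log U := mul_le_mul_of_nonneg_right hMη hlw0
        have h10 : η * (M * Real.log U) ≤ η * (2 * L) := mul_le_mul_of_nonneg_left hlw hη.le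
        nlinarith
      rw [le_div_iff₀ hXpos]
      by_cases hD1 : D' ≤ 1
      · have h6 : (1 - D') * Real.log ((32 * Y : ℕ) : ℝ) ≤ (1 - D') * (L + 5) :=
          mul_le_mul_of_nonneg_left hX5 (by linarith)
        have h7 : (1 - D') * (L + 5) = L + 5 - D' * L - 5 * D' := by ring
        rw [hD'L] at h7
        linarith
      · have h6 : (1 - D') * Real.log ((32 * Y : ℕ) : ℝ) ≤ 0 :=
          mul_nonpos_of_nonpos_of_nonneg (by linarith) hXpos.le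
        linarith
    have h8 : (1 - D') * ∑ b ∈ IZ Y k U S, bL k U S b n ≤ FZ Y k U S n := by
      unfold FZ
      rw [Finset.mul_sum]
      exact Finset.sum_le_sum fun b hb => mul_le_mul_of_nonneg_right (hcoef b hb) (hnn b)
    have h9' : 2 / Real.log ((4 * Y : ℕ) : ℝ) ≤ 2 / L := by
      rw [div_le_div_iff_of_pos_left (by norm_num) h4Ypos hLpos]
      exact h4YL
    have h10 : 0 ≤ 2 / L := by positivity
    by_cases hD1 : D' ≤ 1
    · have h11 : (1 - D') * (1 - 2 / L) ≤ (1 - D') * ∑ b ∈ IZ Y k U S, bL k U S b n :=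
        mul_le_mul_of_nonneg_left (by linarith) (by linarith)
      have h12 : 0 ≤ D' * (2 / L) := mul_nonneg hD'0 h10
      have h13 : (1 - D') * (1 - 2 / L) = 1 - (D' + 2 / L) + D' * (2 / L) := by ring
      linarith
    · linarith
  · have h1 : ∑ b ∈ IL (4 * Y) 3 k U S, bL k U S b n ≠ 0 := by
      rw [hsum]
      intro h0
      apply hne
      unfold FZ
      refine Finset.sum_eq_zero fun b hb => ?_
      rw [(Finset.sum_eq_zero_iff_of_nonneg fun b _ => hnn b).1 h0 b hb, mul_zero]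
    exact hqb h1

theorem FZ_pt (K c1 : ℕ) (δ : ℝ) (hδ : 0 < δ) : ∃ (M : ℕ) (x0 : ℝ), ∀ Y : ℕ, x0 ≤ Y → ∀ (U w' : ℕ) (S : Finset ℕ), RgL (4 * Y) U w' c1 M S →
    ∀ k : ℕ, 2 ≤ k → k ≤ K → ∀ n : ℕ, Y < n → n ≤ 3 * Y →
      (FZ Y k U S n ≠ 0 → EL k U S n) ∧ (EL k U S n → 1 - δ ≤ FZ Y k U S n) := by
  obtain ⟨M0, hM0⟩ := exists_nat_ge (4 * (K : ℝ) / δ)
  have hM2 : 4 * (K : ℝ) ≤ δ * (max M0 (1000 * K) : ℕ) := by
    have h1 : (M0 : ℝ) ≤ (max M0 (1000 * K) : ℕ) := by exact_mod_cast le_max_left _ _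
    rw [div_le_iff₀ hδ] at hM0
    nlinarith
  have hex : ∀ k : ℕ, ∃ x0 : ℝ, 2 ≤ k → k ≤ K → ∀ (Y U w' : ℕ) (S : Finset ℕ), x0 ≤ Y →
      RgL (4 * Y) U w' c1 (max M0 (1000 * K)) S → ∀ n : ℕ,
      Y < n → n ≤ 3 * Y → (FZ Y k U S n ≠ 0 → EL k U S n) ∧ (EL k U S n → 1 - δ ≤ FZ Y k U S n) := by
    intro k
    by_cases h : 2 ≤ k ∧ k ≤ K
    · obtain ⟨x0, hx0⟩ := ptz_pt k K c1 h.1 h.2 δ hδ (max M0 (1000 * K)) (le_max_right _ _) hM2
      exact ⟨x0, fun _ _ => hx0⟩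
    · exact ⟨0, fun h1 h2 => absurd ⟨h1, h2⟩ h⟩
  choose x hx using hex
  refine ⟨max M0 (1000 * K), ∑ k ∈ range (K + 1), |x k|, fun Y hY U w' S hR k hk2 hkK n hn1 hn3 => ?_⟩
  refine hx k hk2 hkK Y U w' S ?_ hR n hn1 hn3
  exact (le_abs_self _).trans ((Finset.single_le_sum (f := fun k => |x k|) (fun k _ => abs_nonneg _)
    (mem_range.2 (by omega : k < K + 1))).trans hY)

end Pool.Agent.Lib.T8
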