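import Pool.Agent.Lib.T8.Def
import Pool.Agent.Lib.VK.XSp

/-!
# T8, row Sp: the part of a member at the primes `≤ z` (compare VK/XSp.lean, YSp.lean and G8/L8a.lean)

PROOF IN WORDS. `g = smo z n` is the product of the prime factors `≤ z` of `n` with multiplicity (XDef); `q = n.minFac ∈ S`, `w < q`, `2 q ≤ U ≤ z`, so `q ∣ g` and `g.minFac = q` (all primes of `g` divide `n`). `g ≤ z^(number of its prime factors)`, so not all `k`
prime factors of `n > z^k` are `≤ z`: `g` has at most `k - 1` prime factors (as `xsp_gen` in XSp.lean), `1 ≤ g ≤ z^k`: `g ∈ QF (k-1) S (z^k)`. Let `EL k U S n` be false. If `n` is not squarefree: a prime `s` with `s^2 ∣ n`, `s ≥ q > w`. If `n` is squarefree,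
it has exactly `k` different prime factors. Either a prime factor `s ≠ q` has `s ≤ 2^(di q + 1)` (`< 2 q ≤ U ≤ z`, as `2^(di q) < q`): then `s ∣ g`, `q s ∣ g`: `g ∈ QE`. Or all other prime factors are `> 2^(di q + 1)` and the number of prime factors `> U` is not `1`;
the largest one is `> z ≥ U` (`n > z^k`), so there is another one `s > U`, `s ≠ q`: if `s ≤ z` then `q s ∣ g`, `g ∈ QE`; if `s > z` then two prime factors are `> z`, so `g` has at most `k - 2` prime factors: `g ∈ QE`.
`EL_len`: `EL k U S n` gives `primeFactorsList.length = k` (squarefree, `xsp_card`) and `n.minFac = q ∈ S` (`s > 2^(di q + 1) ≥ q` for the others).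
-/

set_option autoImplicit false

open Finset Filter

namespace Pool.Agent.Lib.T8

open Pool.Agent.Lib.VKT (smo)
open Pool.Agent.Lib.G8 (di EL)

private theorem sp_di_lt {q : ℕ} (hq : q.Prime) : 2 ^ (di q + 1) < 2 * q := by
  have h2 := hq.two_le
  have h := Nat.pow_log_le_self 2 (x := q - 1) (by omega)
  unfold di
  rw [pow_succ]
  omega

private theorem sp_le_di (q : ℕ) : q ≤ 2 ^ (di q + 1) := by
  have h := Nat.lt_pow_succ_log_self (b := 2) (by norm_num) (q - 1)
  unfold di
  rw [Nat.succ_eq_add_one] at h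
  omega

theorem spZ {k U w z n : ℕ} {S : Finset ℕ} (hk : 2 ≤ k) (hS : ∀ q ∈ S, q.Prime ∧ w < q ∧ 2 * q ≤ U) (hU : U ≤ z) (hn : z ^ k < n)
    (hl : n.primeFactorsList.length = k) (hm : n.minFac ∈ S) :
    smo z n ∈ QF (k - 1) S (z ^ k) ∧
      (¬ EL k U S n → (∃ s : ℕ, s.Prime ∧ w < s ∧ s ^ 2 ∣ n) ∨ smo z n ∈ QE (k - 1) U S (z ^ k)) := by
  obtain ⟨hqp, hwq, hqU⟩ := hS _ hm
  have hq2 := hqp.two_le
  have hz1 : 1 ≤ z := by omega
  have hn0 : n ≠ 0 := by omega
  have hn1 : n ≠ 1 := by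
    have : 1 ≤ z ^ k := Nat.one_le_pow _ _ (by omega)
    omega
  obtain ⟨hgn, hg1, hgz, hgd⟩ := Pool.Agent.Lib.VKT.smo_spec z n (by omega)
  have hqn : n.minFac ∣ n := Nat.minFac_dvd n
  have hqg : n.minFac ∣ smo z n := hgd _ hqp (by omega) hqn
  have hgne : smo z n ≠ 1 := by
    intro h
    rw [h] at hqg
    have := Nat.le_of_dvd one_pos hqg
    omega
  have hgm : (smo z n).minFac = n.minFac := by
    apply le_antisymm
    · exact Nat.minFac_le_of_dvd hq2 hqg
    · exact Nat.minFac_le_of_dvd (Nat.minFac_prime hgne).two_le ((Nat.minFac_dvd _).trans hgn)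
  obtain ⟨h1, h2, -⟩ := Pool.Agent.Lib.VKT.smo_exc (k := k) (w := 0) (w' := z) hz1 (Nat.zero_le _) hn hl
  have hQF : smo z n ∈ QF (k - 1) S (z ^ k) := by
    unfold QF
    rw [Finset.mem_filter, Finset.mem_Icc]
    refine ⟨⟨hg1, h2⟩, by omega, ?_⟩
    rw [hgm]; exact hm
  refine ⟨hQF, fun hE => ?_⟩
  by_cases hsq : Squarefree n
  · right
    rw [QE, @Finset.mem_filter]
    refine ⟨hQF, ?_⟩
    by_contra hcon
    push Not at hcon
    obtain ⟨hc1, hc2⟩ := hcon
    rw [hgm] at hc2
    -- every prime factor of `g` other than `q`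
    have key : ∀ s : ℕ, s.Prime → s ∣ smo z n → s ≠ n.minFac → 2 ^ (di n.minFac + 1) < s ∧ s ≤ U := by
      intro s hs hsg hne
      have hcop : Nat.Coprime n.minFac s := (Nat.coprime_primes hqp hs).2 (Ne.symm hne)
      exact hc2 s hs (hcop.mul_dvd_of_dvd_of_dvd hqg hsg)
    have hgs : Squarefree (smo z n) := hsq.squarefree_of_dvd hgn
    have hEE : Pool.Agent.Lib.G5.EE k w U n := by
      by_contra hne
      rcases (Pool.Agent.Lib.VKT.xsp_gen (k := k) (w := w) (w' := U) (z := z) hz1 (by omega) hU hn hl).2.2 hne with h | ⟨p, hp, h⟩ | h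
      · omega
      · have hpp := Nat.prime_of_mem_primeFactors hp
        have hpg := Nat.dvd_of_mem_primeFactors hp
        have hpq : n.minFac ≤ p := Nat.minFac_le_of_dvd hpp.two_le (hpg.trans hgn)
        rcases h with h | h
        · omega
        · have hne' : p ≠ n.minFac := by omega
          have := (key p hpp hpg hne').2
          omega
      · exact h hgs
    apply hE
    refine ⟨hsq, hEE.2.1, ⟨n.minFac, hm, hqn, ?_⟩, hEE.2.2.2⟩
    intro s hs hne
    have hsp := Nat.prime_of_mem_primeFactors hs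
    have hsn := Nat.dvd_of_mem_primeFactors hs
    by_cases hsz : s ≤ z
    · exact (key s hsp (hgd s hsp hsz hsn) hne).1
    · have := sp_di_lt hqp
      omega
  · left
    rw [Nat.squarefree_iff_prime_squarefree] at hsq
    push Not at hsq
    obtain ⟨s, hs, hss⟩ := hsq
    refine ⟨s, hs, ?_, by rw [pow_two]; exact hss⟩
    have : n.minFac ≤ s := Nat.minFac_le_of_dvd hs.two_le ((dvd_mul_right s s).trans hss)
    omega

theorem EL_len {k U n : ℕ} {S : Finset ℕ} (hS : ∀ q ∈ S, q.Prime) (h : EL k U S n) :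
    n.primeFactorsList.length = k ∧ n.minFac ∈ S := by
  obtain ⟨hsq, hc, ⟨q, hq, hqn, hs⟩, -⟩ := h
  refine ⟨by rw [← Pool.Agent.Lib.VKT.xsp_card hsq]; exact hc, ?_⟩
  have hqp := hS q hq
  have hn0 : n ≠ 0 := hsq.ne_zero
  have hn1 : n ≠ 1 := by
    intro h
    rw [h] at hqn
    exact hqp.one_lt.ne' (Nat.dvd_one.1 hqn)
  have hmp := Nat.minFac_prime hn1
  have hle : n.minFac ≤ q := Nat.minFac_le_of_dvd hqp.two_le hqn
  by_cases he : n.minFac = q
  · rw [he]; exact hq
  · have h1 := hs n.minFac (Nat.mem_primeFactors.2 ⟨hmp, Nat.minFac_dvd n, hn0⟩) he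
    have h2 := sp_le_di q
    omega

end Pool.Agent.Lib.T8
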