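import Pool.Agent.Lib.T8.Def

/-!
# T8, row Pl: the plateau of the model (copy of VK/WPl.lean, `platK2`)

PROOF IN WORDS. `l = log 32Y`. Unfold `rZ`, `rhoS`: the factor `log (2·2^g)` cancels, `rZ Y k U S n = (1/l) ∑_{b ∈ IZ} ∑_{q ∈ SL S i} ∑_{m ∈ [2^j, 2^(j+1))} aL k U i m/(q m) 1[q m 2^g < n ≤ 2 q m 2^g]`.
Let `Y < n ≤ 3Y`. Every `q ∈ S` is in exactly one `SL S i`, `i = di q` (`2^(di q) < q ≤ 2^(di q + 1)`), every `m ≥ 1` in exactly one `[2^j, 2^(j+1))`, and for given `q, m` (`q m ≤ U^(k-1) ≤ Y`, as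
`q ≤ w' ≤ U`, `m ≤ U^(k-2)` if `aL k U i m ≠ 0`, `U^(1000 K) ≤ 4Y`) there is exactly one `g` with `q m 2^g < n ≤ 2 q m 2^g`; its block is in `IZ`: `2^(i+j+g) < n ≤ 4Y`, `2^(i+j+g) ≥ n/8 > Y/8 ≥ 4Y/(log 4Y)^3`,
`2^j ≤ m ≤ U^(k-2)`, `i, j, g ≤ Nat.log 2 (4Y)`. So `rZ = (1/l) ∑_{q ∈ S} 1/q ∑_m aL k U (di q) m/m = sL k U S/l` (the sum over `m` is `esy (k-2) (2^(di q + 1)) U`: the squarefree `m` are the products of the
`(k-2)`-subsets of `PP (2^(di q + 1)) U`; see G8/L3.lean and `esy_sum` in WPl/UEsy for this step; `k = 2`: only `m = 1`).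
-/

set_option autoImplicit false

open Finset Filter

namespace Pool.Agent.Lib.T8

open Pool.Agent.Lib.G8 (di SL aL IL bL sL EL RgL)
open Pool.Agent.Lib.VKT (rhoS)
open Pool.Agent.Lib.G5 (PP esy)

private theorem up_large : ∃ x0 : ℝ, ∀ Y : ℝ, x0 ≤ Y → 32 ≤ (Real.log Y) ^ 3 := by
  refine ⟨Real.exp 4, fun Y h2 => ?_⟩
  have hY0 : 0 < Y := lt_of_lt_of_le (Real.exp_pos 4) h2
  have h4 : 4 ≤ Real.log Y := by
    rw [Real.le_log_iff_exp_le hY0]
    exact h2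
  calc (32 : ℝ) ≤ 4 ^ 3 := by norm_num
    _ ≤ (Real.log Y) ^ 3 := pow_le_pow_left₀ (by norm_num) h4 3

private theorem up_pow {i i' p : ℕ} (h1 : 2 ^ i < p) (h2 : p ≤ 2 ^ (i + 1)) (h3 : 2 ^ i' < p)
    (h4 : p ≤ 2 ^ (i' + 1)) : i = i' := by
  rcases lt_trichotomy i i' with h | h | h
  · have : 2 ^ (i + 1) ≤ 2 ^ i' := Nat.pow_le_pow_right (by norm_num) h
    omega
  · exact h
  · have : 2 ^ (i' + 1) ≤ 2 ^ i := Nat.pow_le_pow_right (by norm_num) h
    omega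

private theorem up_pow' {j j' m : ℕ} (h1 : 2 ^ j ≤ m) (h2 : m < 2 * 2 ^ j) (h3 : 2 ^ j' ≤ m)
    (h4 : m < 2 * 2 ^ j') : j = j' := by
  rcases lt_trichotomy j j' with h | h | h
  · have : 2 ^ (j + 1) ≤ 2 ^ j' := Nat.pow_le_pow_right (by norm_num) h
    rw [pow_succ] at this
    omega
  · exact h
  · have : 2 ^ (j' + 1) ≤ 2 ^ j := Nat.pow_le_pow_right (by norm_num) h
    rw [pow_succ] at this
    omega

private theorem up_g {g g' a n : ℕ} (h1 : a * 2 ^ g < n) (h2 : n ≤ 2 * (a * 2 ^ g))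
    (h3 : a * 2 ^ g' < n) (h4 : n ≤ 2 * (a * 2 ^ g')) : g = g' := by
  rcases lt_trichotomy g g' with h | h | h
  · have h5 : 2 ^ (g + 1) ≤ 2 ^ g' := Nat.pow_le_pow_right (by norm_num) h
    have h6 : a * 2 ^ (g + 1) ≤ a * 2 ^ g' := Nat.mul_le_mul_left a h5
    rw [pow_succ] at h6
    have h7 : a * (2 ^ g * 2) = 2 * (a * 2 ^ g) := by ring
    omega
  · exact h
  · have h5 : 2 ^ (g' + 1) ≤ 2 ^ g := Nat.pow_le_pow_right (by norm_num) h
    have h6 : a * 2 ^ (g' + 1) ≤ a * 2 ^ g := Nat.mul_le_mul_left a h5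
    rw [pow_succ] at h6
    have h7 : a * (2 ^ g' * 2) = 2 * (a * 2 ^ g') := by ring
    omega

private theorem up_gex {a n : ℕ} (ha : 0 < a) (h : a < n) :
    ∃ g : ℕ, a * 2 ^ g < n ∧ n ≤ 2 * (a * 2 ^ g) := by
  have h0 : (n - 1) / a ≠ 0 := by
    have : 0 < (n - 1) / a := Nat.div_pos (by omega) ha
    omega
  refine ⟨Nat.log 2 ((n - 1) / a), ?_, ?_⟩
  · have h1 := Nat.pow_log_le_self 2 h0
    have h2 : a * 2 ^ Nat.log 2 ((n - 1) / a) ≤ a * ((n - 1) / a) := Nat.mul_le_mul_left a h1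
    have h3 : a * ((n - 1) / a) ≤ n - 1 := Nat.mul_div_le _ _
    omega
  · have h1 := Nat.lt_pow_succ_log_self (show 1 < 2 by norm_num) ((n - 1) / a)
    rw [Nat.succ_eq_add_one, pow_succ, Nat.div_lt_iff_lt_mul ha] at h1
    have h2 : 2 ^ Nat.log 2 ((n - 1) / a) * 2 * a = 2 * (a * 2 ^ Nat.log 2 ((n - 1) / a)) := by ring
    omega

private theorem up_PP {w w' q : ℕ} (h : q ∈ PP w w') : q.Prime ∧ w < q ∧ q ≤ w' := by
  unfold PP at h
  rw [mem_filter, mem_Ioc] at h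
  exact ⟨h.2, h.1⟩

private theorem up_aL {k U i m : ℕ} (h : aL k U i m ≠ 0) :
    Squarefree m ∧ m.primeFactors.card = k - 2 ∧ m.primeFactors ⊆ PP (2 ^ (i + 1)) U := by
  unfold aL at h
  split_ifs at h with h1
  · exact h1
  · exact absurd rfl h

private theorem up_mle {k U i m : ℕ} (h : aL k U i m ≠ 0) : 1 ≤ m ∧ m ≤ U ^ (k - 2) := by
  obtain ⟨hm, hc, hmP⟩ := up_aL h
  refine ⟨Nat.one_le_iff_ne_zero.2 hm.ne_zero, ?_⟩
  rw [← Nat.prod_primeFactors_of_squarefree hm, ← hc]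
  exact Finset.prod_le_pow_card _ _ _ fun q hq => (up_PP (hmP hq)).2.2

private theorem up_two {p : ℕ} (hp : 2 ≤ p) :
    2 ^ Nat.log 2 (p - 1) < p ∧ p ≤ 2 ^ (Nat.log 2 (p - 1) + 1) := by
  have h1 := Nat.pow_log_le_self 2 (show p - 1 ≠ 0 by omega)
  have h2 := Nat.lt_pow_succ_log_self (show 1 < 2 by norm_num) (p - 1)
  rw [Nat.succ_eq_add_one] at h2
  omega

private theorem up_di {S : Finset ℕ} {i q : ℕ} (hq : q ∈ SL S i) : di q = i := by
  unfold SL at hq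
  rw [Finset.mem_filter] at hq
  have h0 : 1 ≤ 2 ^ i := Nat.one_le_two_pow
  unfold di
  rw [Nat.log_eq_iff (Or.inr ⟨by norm_num, by omega⟩)]
  constructor <;> omega

private theorem up_sqf (s : Finset ℕ) (hs : ∀ p ∈ s, p.Prime) : Squarefree (∏ p ∈ s, p) := by
  classical
  induction s using Finset.induction_on with
  | empty => simp
  | insert a s ha ih =>
    rw [Finset.prod_insert ha]
    have h1 : a.Prime := hs a (Finset.mem_insert_self a s)
    have h2 : ∀ p ∈ s, p.Prime := fun p hp => hs p (Finset.mem_insert_of_mem hp)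
    have h3 : Nat.Coprime a (∏ p ∈ s, p) := by
      refine Nat.Coprime.prod_right (fun p hp => ?_)
      refine (Nat.coprime_primes h1 (h2 p hp)).mpr (fun h => ?_)
      rw [h] at ha
      exact ha hp
    exact (Nat.squarefree_mul h3).mpr ⟨h1.squarefree, ih h2⟩

private theorem up_esy (k U i : ℕ) :
    ∑ m ∈ Icc 1 (U ^ (k - 2)), aL k U i m / m = esy (k - 2) (2 ^ (i + 1)) U := by
  classical
  have hpr : ∀ s ∈ (PP (2 ^ (i + 1)) U).powersetCard (k - 2), ∀ p ∈ s, p.Prime ∧ p ≤ U := by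
    intro s hs p hp
    have h1 := up_PP ((Finset.mem_powersetCard.mp hs).1 hp)
    exact ⟨h1.1, h1.2.2⟩
  have hsub : ((PP (2 ^ (i + 1)) U).powersetCard (k - 2)).image (fun s => ∏ p ∈ s, p) ⊆
      Icc 1 (U ^ (k - 2)) := by
    intro m hm
    rw [Finset.mem_image] at hm
    obtain ⟨s, hs, rfl⟩ := hm
    rw [Finset.mem_Icc]
    constructor
    · exact Nat.one_le_iff_ne_zero.mpr
        (Finset.prod_ne_zero_iff.mpr (fun p hp => (hpr s hs p hp).1.ne_zero))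
    · have h2 := Finset.prod_le_pow_card s (fun p => p) U (fun p hp => (hpr s hs p hp).2)
      rw [(Finset.mem_powersetCard.mp hs).2] at h2
      exact h2
  rw [← Finset.sum_subset hsub (fun m _ hm => ?_)]
  · rw [Finset.sum_image]
    · unfold esy
      refine Finset.sum_congr rfl (fun s hs => ?_)
      have h1 : aL k U i (∏ p ∈ s, p) = 1 := by
        unfold aL
        have h2 : (∏ p ∈ s, p).primeFactors = s :=
          Nat.primeFactors_prod (fun p hp => (hpr s hs p hp).1)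
        rw [if_pos ⟨up_sqf s (fun p hp => (hpr s hs p hp).1), by
          rw [h2]; exact (Finset.mem_powersetCard.mp hs).2, by
          rw [h2]; exact (Finset.mem_powersetCard.mp hs).1⟩]
      rw [h1, Finset.prod_div_distrib, Finset.prod_const_one, Nat.cast_prod]
    · intro s hs t ht hst
      have h1 := Nat.primeFactors_prod (fun p hp => (hpr s hs p hp).1)
      have h2 := Nat.primeFactors_prod (fun p hp => (hpr t ht p hp).1)
      rw [← h1, ← h2]
      exact congrArg Nat.primeFactors hst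
  · have h0 : aL k U i m = 0 := by
      unfold aL
      rw [if_neg]
      rintro ⟨h1, h2, h3⟩
      exact hm (Finset.mem_image.mpr ⟨m.primeFactors, Finset.mem_powersetCard.mpr ⟨h3, h2⟩,
        Nat.prod_primeFactors_of_squarefree h1⟩)
    rw [h0, zero_div]

/-- the terms -/
private noncomputable def upF (k U n : ℕ) (x : (_ : ℕ × ℕ × ℕ) × (ℕ × ℕ)) : ℝ :=
  if x.2.1 * x.2.2 * 2 ^ x.1.2.2 < n ∧ n ≤ 2 * (x.2.1 * x.2.2 * 2 ^ x.1.2.2) then
    1 / (x.2.1 : ℝ) * (aL k U x.1.1 x.2.2 / x.2.2) else 0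

private theorem up_unfold (Y k U : ℕ) (S : Finset ℕ) (n : ℕ) : rZ Y k U S n =
    (∑ x ∈ (IZ Y k U S).sigma (fun b => SL S b.1 ×ˢ Ico (2 ^ b.2.1) (2 * 2 ^ b.2.1)),
      upF k U n x) / Real.log (32 * Y : ℕ) := by
  rw [Finset.sum_sigma, Finset.sum_div]
  unfold rZ
  refine sum_congr rfl fun b _ => ?_
  unfold rhoS
  rw [Finset.sum_product, mul_sum, Finset.sum_div]
  refine sum_congr rfl fun p _ => ?_
  rw [mul_sum, Finset.sum_div]
  refine sum_congr rfl fun m _ => ?_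
  unfold upF
  simp only
  split_ifs with h
  · have hlog : Real.log (2 * 2 ^ b.2.2 : ℕ) ≠ 0 := by
      have h1 : (1 : ℝ) < (2 * 2 ^ b.2.2 : ℕ) := by
        have : 1 ≤ 2 ^ b.2.2 := Nat.one_le_two_pow
        have h2 : 1 < 2 * 2 ^ b.2.2 := by omega
        exact_mod_cast h2
      exact (Real.log_pos h1).ne'
    field_simp
  · simp


theorem platZ (K c1 : ℕ) : ∃ x0 : ℝ, ∀ Y : ℕ, x0 ≤ Y → ∀ (U w' : ℕ) (S : Finset ℕ), RgL (4 * Y) U w' c1 (1000 * K) S → ∀ k : ℕ, 2 ≤ k → k ≤ K → ∀ n : ℕ,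
    Y < n → n ≤ 3 * Y → rZ Y k U S n = sL k U S / Real.log (32 * Y : ℕ) := by
  obtain ⟨x0, hx0⟩ := up_large
  refine ⟨max x0 16, fun Y hY U w' S hR k hk hkK n hn1 hn2 => ?_⟩
  have hY16 : (16 : ℝ) ≤ Y := (le_max_right _ _).trans hY
  have hY4 : x0 ≤ ((4 * Y : ℕ) : ℝ) := by
    have h1 : x0 ≤ (Y : ℝ) := (le_max_left _ _).trans hY
    push_cast
    linarith
  have hl3 := hx0 _ hY4
  -- `q m ≤ Y`
  have hbig : U * U ^ (k - 2) ≤ Y := by
    have h16 : 16 ≤ Y := by exact_mod_cast hY16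
    have h5 : U * U ^ (k - 2) = U ^ (k - 1) := by
      rw [← pow_succ']
      congr 1
      omega
    rw [h5]
    rcases Nat.eq_zero_or_pos U with h0 | h0
    · rw [h0, zero_pow (by omega)]
      omega
    · have h1 : U ^ (k - 1) * U ^ (k - 1) ≤ 4 * Y := by
        rw [← pow_add]
        exact (Nat.pow_le_pow_right h0 (by omega)).trans hR.h3
      nlinarith
  have hsum : ∑ x ∈ (IZ Y k U S).sigma (fun b => SL S b.1 ×ˢ Ico (2 ^ b.2.1) (2 * 2 ^ b.2.1)),
      upF k U n x = ∑ q ∈ S ×ˢ Icc 1 (U ^ (k - 2)), 1 / (q.1 : ℝ) * (aL k U (di q.1) q.2 / q.2) := by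
    have hne : ∀ x : (_ : ℕ × ℕ × ℕ) × (ℕ × ℕ), upF k U n x ≠ 0 →
        (x.2.1 * x.2.2 * 2 ^ x.1.2.2 < n ∧ n ≤ 2 * (x.2.1 * x.2.2 * 2 ^ x.1.2.2)) ∧
        aL k U x.1.1 x.2.2 ≠ 0 ∧ upF k U n x = 1 / (x.2.1 : ℝ) * (aL k U x.1.1 x.2.2 / x.2.2) := by
      intro x hx
      unfold upF at hx ⊢
      split_ifs at hx ⊢ with h
      · refine ⟨h, ?_, rfl⟩
        intro h0
        apply hx
        rw [h0]
        simp
      · exact absurd rfl hx
    refine Finset.sum_bij_ne_zero (fun x _ _ => x.2) ?_ ?_ ?_ ?_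
    · rintro ⟨⟨i, j, g⟩, p, m⟩ hx hF
      obtain ⟨-, h2, -⟩ := hne _ hF
      rw [mem_sigma, mem_product] at hx
      have hp := hx.2.1
      unfold SL at hp
      rw [mem_filter] at hp
      rw [mem_product, mem_Icc]
      exact ⟨hp.1, up_mle h2⟩
    · rintro ⟨⟨i, j, g⟩, p, m⟩ hx hF ⟨⟨i', j', g'⟩, p', m'⟩ hx' hF' he
      obtain ⟨h1, -, -⟩ := hne _ hF
      obtain ⟨h1', -, -⟩ := hne _ hF'
      simp only [Prod.mk.injEq] at he
      obtain ⟨rfl, rfl⟩ := he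
      rw [mem_sigma, mem_product, mem_Ico] at hx hx'
      have hp := hx.2.1
      have hp' := hx'.2.1
      unfold SL at hp hp'
      rw [mem_filter] at hp hp'
      have e1 : i = i' := up_pow hp.2.1 hp.2.2 hp'.2.1 hp'.2.2
      have e2 : j = j' := up_pow' hx.2.2.1 hx.2.2.2 hx'.2.2.1 hx'.2.2.2
      have e3 : g = g' := up_g h1.1 h1.2 h1'.1 h1'.2
      rw [e1, e2, e3]
    · rintro ⟨p, m⟩ hq hF
      rw [mem_product, mem_Icc] at hq
      obtain ⟨hp, hm1, hm2⟩ := hq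
      simp only at hp hm1 hm2 hF
      have hpp := hR.hS p hp
      have hwU : w' ≤ U := by
        have h3 := hR.h2
        omega
      have haS : aL k U (di p) m ≠ 0 := by
        intro h0
        apply hF
        rw [h0]
        simp
      have hpm : p * m ≤ Y := (Nat.mul_le_mul (hpp.2.2.trans hwU) hm2).trans hbig
      obtain ⟨g, g1, g2⟩ := up_gex (Nat.mul_pos hpp.1.pos hm1) (lt_of_le_of_lt hpm hn1)
      obtain ⟨i, hi⟩ : ∃ i, i = di p := ⟨_, rfl⟩
      obtain ⟨j, hj⟩ : ∃ j, j = Nat.log 2 m := ⟨_, rfl⟩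
      obtain ⟨i1, i2⟩ := up_two hpp.1.two_le
      have j1 := Nat.pow_log_le_self 2 (show m ≠ 0 by omega)
      have j2 := Nat.lt_pow_succ_log_self (show 1 < 2 by norm_num) m
      rw [Nat.succ_eq_add_one] at j2
      have hi' : Nat.log 2 (p - 1) = i := by rw [hi]; rfl
      rw [hi'] at i1 i2
      rw [← hj] at j1 j2
      have hpSI : p ∈ SL S i := by
        unfold SL
        rw [mem_filter]
        exact ⟨hp, i1, i2⟩
      rw [pow_succ] at i2 j2
      have hup : 2 ^ i * 2 ^ j * 2 ^ g ≤ 4 * Y := by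
        have h1 : 2 ^ i * 2 ^ j * 2 ^ g ≤ p * m * 2 ^ g :=
          Nat.mul_le_mul (Nat.mul_le_mul i1.le j1) le_rfl
        omega
      have hlow : n ≤ 8 * (2 ^ i * 2 ^ j * 2 ^ g) := by
        calc n ≤ 2 * (p * m * 2 ^ g) := g2
          _ ≤ 2 * ((2 ^ i * 2) * (2 ^ j * 2) * 2 ^ g) :=
            Nat.mul_le_mul_left 2 (Nat.mul_le_mul (Nat.mul_le_mul i2 j2.le) le_rfl)
          _ = 8 * (2 ^ i * 2 ^ j * 2 ^ g) := by ring
      have hYe : ((4 * Y : ℕ) : ℝ) / (Real.log (4 * Y : ℕ)) ^ 3 ≤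
          ((2 ^ i * 2 ^ j * 2 ^ g : ℕ) : ℝ) := by
        have h1 : (Y : ℝ) ≤ 8 * ((2 ^ i * 2 ^ j * 2 ^ g : ℕ) : ℝ) := by
          have : Y ≤ 8 * (2 ^ i * 2 ^ j * 2 ^ g) := by omega
          exact_mod_cast this
        rw [div_le_iff₀ (by positivity)]
        have h2 : (0 : ℝ) ≤ ((2 ^ i * 2 ^ j * 2 ^ g : ℕ) : ℝ) := Nat.cast_nonneg _
        calc ((4 * Y : ℕ) : ℝ) = 4 * Y := by push_cast; ring
          _ ≤ ((2 ^ i * 2 ^ j * 2 ^ g : ℕ) : ℝ) * 32 := by linarith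
          _ ≤ _ := mul_le_mul_of_nonneg_left hl3 h2
      have hpos : ∀ a : ℕ, 1 ≤ 2 ^ a := fun a => Nat.one_le_two_pow
      have hY0 : 4 * Y ≠ 0 := by
        have : (0 : ℝ) < Y := by linarith
        have : 0 < Y := by exact_mod_cast this
        omega
      have key : ∀ t : ℕ, 2 ^ t ≤ 4 * Y → t < Nat.log 2 (4 * Y) + 1 := by
        intro t ht
        have := (Nat.le_log_iff_pow_le (by norm_num) hY0).2 ht
        omega
      have r1 : i < Nat.log 2 (4 * Y) + 1 := by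
        apply key
        refine le_trans ?_ hup
        rw [mul_assoc]
        exact Nat.le_mul_of_pos_right _ (Nat.mul_pos (hpos j) (hpos g))
      have r2 : j < Nat.log 2 (4 * Y) + 1 := by
        apply key
        refine le_trans ?_ hup
        calc 2 ^ j ≤ 2 ^ i * 2 ^ j := Nat.le_mul_of_pos_left _ (hpos i)
          _ ≤ 2 ^ i * 2 ^ j * 2 ^ g := Nat.le_mul_of_pos_right _ (hpos g)
      have r3 : g < Nat.log 2 (4 * Y) + 1 := by
        apply key
        exact le_trans (Nat.le_mul_of_pos_left _ (Nat.mul_pos (hpos i) (hpos j))) hup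
      refine ⟨⟨(i, j, g), (p, m)⟩, ?_, ?_, rfl⟩
      · rw [mem_sigma, mem_product, mem_Ico]
        refine ⟨?_, hpSI, j1, ?_⟩
        · unfold IZ IL
          rw [mem_filter, mem_filter, mem_product, mem_product, mem_range, mem_range, mem_range]
          refine ⟨⟨⟨r1, r2, r3⟩, ⟨p, hpSI⟩, j1.trans hm2, hYe, hup⟩, ?_⟩
          simp only
          omega
        · rw [mul_comm]
          exact j2
      · unfold upF
        simp only
        rw [if_pos ⟨g1, g2⟩, hi]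
        exact hF
    · rintro ⟨⟨i, j, g⟩, p, m⟩ hx hF
      rw [(hne _ hF).2.2]
      rw [mem_sigma, mem_product] at hx
      have hd : di p = i := up_di hx.2.1
      simp only
      rw [hd]
  rw [up_unfold, hsum, Finset.sum_product]
  congr 1
  simp only
  unfold sL
  refine sum_congr rfl fun q _ => ?_
  rw [← mul_sum, up_esy]

end Pool.Agent.Lib.T8
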