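import Pool.Agent.Lib.T8.Def
import Pool.Agent.Lib.G8.L7
import Pool.Agent.Lib.G8.L8c

/-!
# T8, row Mer: Mertens (copies of G8/L7.lean and G8/L8c.lean with `Y` in the place of `N`)

PROOF IN WORDS. `λ = log (log Y/log q) ≥ log (1/η)` as `q ≤ Y^η`. `merA`: word for word the proof of `l7` (G8/L7.lean) with `N = Y` (it uses only `log Y ≤ log N ≤ 2 log Y`). `merB`: the proof of `l8c`. `merC`: as in L8c, `sg1 (q-1) x ≤ λ + 3`
for `x ≤ 2Y` (`0` if `x < q`), so `(1 + sg1 (q-1) x)^j ≤ (λ + 4)^j ≤ 2 λ^j` if `λ ≥ L0(j)` and `2 λ^j ≤ ε λ^(j+1)` if `λ ≥ 2/ε`. (`l7`, `l8c` with `N = 2Y` also give it: `0 ≤ log (log 2Y/log q) - λ ≤ log 2/log Y`.)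
-/

set_option autoImplicit false

open Finset Filter

namespace Pool.Agent.Lib.T8

open Pool.Agent.Lib.G5 (PP sg1 esy)
open Pool.Agent.Lib.G8 (di)

/-- the elementary symmetric sums between powers of `sg1` -/
private lemma l7_esy (w w' m : ℕ) (δ : ℝ) (hδ1 : δ ≤ 1) (hw : 1 ≤ w) (hσ : 0 ≤ sg1 w w')
    (hd : (m : ℝ) / w ≤ δ * sg1 w w') : ∀ j : ℕ, j ≤ m →
      (1 - δ) ^ j * (sg1 w w') ^ j / (Nat.factorial j : ℝ) ≤ esy j w w' ∧ esy j w w' ≤ (sg1 w w') ^ j / (Nat.factorial j : ℝ) := by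
  intro j
  induction j with
  | zero => intro _; simp [esy]
  | succ j ih =>
    intro hj
    obtain ⟨h1, h2⟩ := ih (by omega)
    obtain ⟨h3, h4⟩ := Pool.Agent.Lib.G5.q2a j w w' hw
    have hw0 : (0 : ℝ) < w := by exact_mod_cast hw
    have hf : (0 : ℝ) < (Nat.factorial j : ℝ) := by exact_mod_cast Nat.factorial_pos j
    have hj0 : (0 : ℝ) < (j : ℝ) + 1 := by positivity
    have hδ0 : 0 ≤ 1 - δ := by linarith
    have he0 : 0 ≤ esy j w w' := le_trans (by positivity) h1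
    have h5 : (j : ℝ) / w ≤ δ * sg1 w w' := by
      refine le_trans ?_ hd
      have : (j : ℝ) ≤ m := by exact_mod_cast (by omega : j ≤ m)
      gcongr
    have h6 : (1 - δ) * sg1 w w' * esy j w w' ≤ ((j : ℝ) + 1) * esy (j + 1) w w' := by
      have := mul_le_mul_of_nonneg_right h5 he0
      nlinarith
    have h7 : ((j : ℝ) + 1) * esy (j + 1) w w' ≤ sg1 w w' * esy j w w' := by linarith
    rw [Nat.factorial_succ]
    push_cast
    constructor
    · rw [div_le_iff₀ (by positivity)]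
      rw [div_le_iff₀ hf] at h1
      calc (1 - δ) ^ (j + 1) * sg1 w w' ^ (j + 1) = (1 - δ) * sg1 w w' * ((1 - δ) ^ j * sg1 w w' ^ j) := by ring
        _ ≤ (1 - δ) * sg1 w w' * (esy j w w' * (Nat.factorial j : ℝ)) := by gcongr
        _ = ((1 - δ) * sg1 w w' * esy j w w') * (Nat.factorial j : ℝ) := by ring
        _ ≤ (((j : ℝ) + 1) * esy (j + 1) w w') * (Nat.factorial j : ℝ) := by gcongr
        _ = esy (j + 1) w w' * (((j : ℝ) + 1) * (Nat.factorial j : ℝ)) := by ring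
    · rw [le_div_iff₀ (by positivity)]
      rw [le_div_iff₀ hf] at h2
      calc esy (j + 1) w w' * (((j : ℝ) + 1) * (Nat.factorial j : ℝ)) = (((j : ℝ) + 1) * esy (j + 1) w w') * (Nat.factorial j : ℝ) := by ring
        _ ≤ (sg1 w w' * esy j w w') * (Nat.factorial j : ℝ) := by gcongr
        _ = sg1 w w' * (esy j w w' * (Nat.factorial j : ℝ)) := by ring
        _ ≤ sg1 w w' * sg1 w w' ^ j := by gcongr
        _ = sg1 w w' ^ (j + 1) := by ring

/-- a small `δ` -/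
private lemma l7_delta (m : ℕ) (ε : ℝ) (hε : 0 < ε) : ∃ δ : ℝ, 0 < δ ∧ δ ≤ 1 ∧ (1 + δ) ^ m ≤ 1 + ε ∧
    1 - ε ≤ (1 - δ) ^ m * (1 - δ) ^ m := by
  have h1 : Filter.Tendsto (fun δ : ℝ => (1 + δ) ^ m) (nhdsWithin 0 (Set.Ioi 0)) (nhds 1) := by
    have : ContinuousAt (fun δ : ℝ => (1 + δ) ^ m) 0 := by fun_prop
    have h := this.tendsto.mono_left (nhdsWithin_le_nhds (s := Set.Ioi 0))
    simpa using h
  have h2 : Filter.Tendsto (fun δ : ℝ => (1 - δ) ^ m * (1 - δ) ^ m) (nhdsWithin 0 (Set.Ioi 0)) (nhds 1) := by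
    have : ContinuousAt (fun δ : ℝ => (1 - δ) ^ m * (1 - δ) ^ m) 0 := by fun_prop
    have h := this.tendsto.mono_left (nhdsWithin_le_nhds (s := Set.Ioi 0))
    simpa using h
  have e1 := h1.eventually (ge_mem_nhds (show (1 : ℝ) < 1 + ε by linarith))
  have e2 := h2.eventually (le_mem_nhds (show 1 - ε < (1 : ℝ) by linarith))
  have e3 : ∀ᶠ δ : ℝ in nhdsWithin 0 (Set.Ioi 0), 0 < δ := self_mem_nhdsWithin
  have e4 : ∀ᶠ δ : ℝ in nhdsWithin 0 (Set.Ioi 0), δ ≤ 1 := by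
    apply mem_nhdsWithin_of_mem_nhds
    exact ge_mem_nhds (by norm_num)
  obtain ⟨δ, a1, a2, a3, a4⟩ := (e1.and (e2.and (e3.and e4))).exists
  exact ⟨δ, a3, a4, a1, a2⟩

/-- the power of two above `q` -/
private lemma l7_di (q : ℕ) (hq : 2 ≤ q) : q ≤ 2 ^ (di q + 1) ∧ 2 ^ (di q + 1) ≤ 2 * q := by
  unfold di
  constructor
  · have := Nat.lt_pow_succ_log_self (b := 2) (by norm_num) (q - 1)
    simp only [Nat.succ_eq_add_one] at this
    omega
  · have := Nat.pow_log_le_self 2 (x := q - 1) (by omega)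
    rw [pow_succ]
    omega

private lemma l7g (k M : ℕ) (hk : 2 ≤ k) (hM : 1 ≤ M) (ε : ℝ) (hε : 0 < ε) : ∃ η : ℝ, 0 < η ∧ ∃ y0 : ℝ, ∀ Y N U q : ℕ, y0 ≤ Y → Y ≤ N → N ≤ 2 * Y →
    U ^ M ≤ Y → Y ≤ (U + 1) ^ M → Real.log Y ≤ q → (q : ℝ) ≤ (Y : ℝ) ^ η →
      |esy (k - 2) (2 ^ (di q + 1)) U - (Real.log (Real.log N / Real.log q)) ^ (k - 2) / (Nat.factorial (k - 2) : ℝ)| ≤
        ε * ((Real.log (Real.log N / Real.log q)) ^ (k - 2) / (Nat.factorial (k - 2) : ℝ)) := by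
  obtain ⟨m, rfl⟩ : ∃ m, k = m + 2 := ⟨k - 2, by omega⟩
  rw [show m + 2 - 2 = m by omega]
  obtain ⟨δ, hδ0, hδ1, hδa, hδb⟩ := l7_delta m ε hε
  obtain ⟨z, hz⟩ := Pool.Agent.Lib.G3.mert5 1 one_pos
  have hM1 : (1 : ℝ) ≤ M := by exact_mod_cast hM
  have hM0 : (0 : ℝ) < M := by linarith
  set K : ℝ := Real.log (8 * M) + 1 with hK
  have hK1 : 1 ≤ K := by
    have : 0 ≤ Real.log (8 * (M : ℝ)) := Real.log_nonneg (by linarith)
    rw [hK]; linarith
  have hKδ : K ≤ K / δ := by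
    rw [le_div_iff₀ hδ0]
    nlinarith
  refine ⟨Real.exp (-(K / δ + 4 * M)), Real.exp_pos _, ?_⟩
  set η : ℝ := Real.exp (-(K / δ + 4 * M)) with hη
  have hη0 : 0 < η := Real.exp_pos _
  have hηM : η * (4 * M) ≤ 1 := by
    have h1 : K / δ + 4 * M + 1 ≤ Real.exp (K / δ + 4 * M) := Real.add_one_le_exp _
    have h2 : η * Real.exp (K / δ + 4 * M) = 1 := by
      rw [hη, ← Real.exp_add]; simp
    have h3 : (4 : ℝ) * M ≤ Real.exp (K / δ + 4 * M) := by linarith
    calc η * (4 * M) ≤ η * Real.exp (K / δ + 4 * M) := by gcongr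
      _ = 1 := h2
  have e1 : ∀ᶠ y : ℝ in Filter.atTop, (4 : ℝ) * M + z + 3 + m / δ ≤ Real.log y :=
    Real.tendsto_log_atTop.eventually_ge_atTop _
  obtain ⟨y0, hy0⟩ := Filter.eventually_atTop.mp e1
  refine ⟨max y0 2, fun Y N U q hY hYN hN2 hUM hYU hql hqY => ?_⟩
  have g1 := hy0 Y ((le_max_left _ _).trans hY)
  have hY2 : (2 : ℝ) ≤ Y := (le_max_right _ _).trans hY
  have hY0 : (0 : ℝ) < Y := by linarith
  set l : ℝ := Real.log Y with hl
  have hz0 : (0 : ℝ) ≤ z := Nat.cast_nonneg _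
  have hmδ : 0 ≤ (m : ℝ) / δ := by positivity
  have hl3 : 3 ≤ l := by linarith
  have hl0 : 0 < l := by linarith
  have hlM : 4 * (M : ℝ) ≤ l := by linarith
  have hq3 : (3 : ℝ) ≤ q := by linarith
  have hq2 : 2 ≤ q := by
    have : (2 : ℝ) ≤ q := by linarith
    exact_mod_cast this
  obtain ⟨hd1, hd2⟩ := l7_di q hq2
  set W : ℕ := 2 ^ (di q + 1) with hW
  have hqW : (q : ℝ) ≤ W := by exact_mod_cast hd1
  have hWq : (W : ℝ) ≤ 2 * q := by exact_mod_cast hd2
  have hl2a : Real.log 2 ≤ 1 := by linarith [Real.log_two_lt_d9]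
  have hl2b : 0 ≤ Real.log (2 : ℝ) := Real.log_nonneg (by norm_num)
  -- the logarithm of q
  have hlq0 : Real.log 2 ≤ Real.log (q : ℝ) := Real.log_le_log (by norm_num) (by linarith)
  have hl2c : 0 < Real.log (2 : ℝ) := Real.log_pos (by norm_num)
  have hlqp : 0 < Real.log (q : ℝ) := by linarith
  have hlqη : Real.log (q : ℝ) ≤ η * l := by
    have h1 := Real.log_le_log (by linarith) hqY
    rwa [Real.log_rpow hY0] at h1
  -- the logarithm of W
  have hlW1 : Real.log (q : ℝ) ≤ Real.log (W : ℝ) := Real.log_le_log (by linarith) hqW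
  have hlW2 : Real.log (W : ℝ) ≤ Real.log 2 + Real.log q := by
    calc Real.log (W : ℝ) ≤ Real.log (2 * q) := Real.log_le_log (by linarith) hWq
      _ = Real.log 2 + Real.log q := Real.log_mul (by norm_num) (by linarith)
  have hlWp : 0 < Real.log (W : ℝ) := by linarith
  -- the logarithm of N
  have hNY : (Y : ℝ) ≤ N := by exact_mod_cast hYN
  have hlN1 : l ≤ Real.log N := Real.log_le_log hY0 hNY
  have hlN2 : Real.log (N : ℝ) ≤ 2 * l := by
    have h2 : (N : ℝ) ≤ 2 * Y := by exact_mod_cast hN2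
    calc Real.log (N : ℝ) ≤ Real.log (2 * Y) := Real.log_le_log (by linarith) h2
      _ = Real.log 2 + l := Real.log_mul (by norm_num) (by linarith)
      _ ≤ 2 * l := by linarith
  -- the logarithm of U
  have hlU1 : l ≤ M * Real.log ((U : ℝ) + 1) := by
    have h1 : (Y : ℝ) ≤ ((U : ℝ) + 1) ^ M := by exact_mod_cast hYU
    calc l ≤ Real.log (((U : ℝ) + 1) ^ M) := Real.log_le_log hY0 h1
      _ = M * Real.log ((U : ℝ) + 1) := Real.log_pow _ _
  have hU1 : 1 ≤ U := by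
    rcases Nat.eq_zero_or_pos U with h | h
    · rw [h] at hlU1
      simp at hlU1
      linarith
    · exact h
  have hU1r : (1 : ℝ) ≤ U := by exact_mod_cast hU1
  have hlU2 : l / (2 * M) ≤ Real.log (U : ℝ) := by
    have h1 : Real.log ((U : ℝ) + 1) ≤ Real.log (U : ℝ) + 1 := by
      calc Real.log ((U : ℝ) + 1) ≤ Real.log (2 * U) := Real.log_le_log (by linarith) (by linarith)
        _ = Real.log 2 + Real.log U := Real.log_mul (by norm_num) (by linarith)
        _ ≤ Real.log (U : ℝ) + 1 := by linarith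
    rw [div_le_iff₀ (by linarith)]
    have h2 : l ≤ M * (Real.log (U : ℝ) + 1) := hlU1.trans (by gcongr)
    nlinarith
  have hUY : (U : ℝ) ≤ Y := by
    have h1 : U ≤ U ^ M := Nat.le_self_pow (by omega) U
    exact_mod_cast h1.trans hUM
  have hlU3 : Real.log (U : ℝ) ≤ l := Real.log_le_log (by linarith) hUY
  have hlUp : 0 < l / (2 * M) := by positivity
  have hlU0 : 0 < Real.log (U : ℝ) := by linarith
  -- W is at most U
  have hWU : W ≤ U := by
    have h1 : Real.log (W : ℝ) ≤ Real.log (U : ℝ) := by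
      refine le_trans ?_ hlU2
      rw [le_div_iff₀ (by linarith)]
      have h2 : Real.log (W : ℝ) ≤ 1 + η * l := by linarith
      have h3 : Real.log (W : ℝ) * (2 * M) ≤ (1 + η * l) * (2 * M) := by gcongr
      have h4 : (1 + η * l) * (2 * M) = 2 * M + (η * (4 * M)) * l / 2 := by ring
      have h5 : (η * (4 * M)) * l ≤ 1 * l := by gcongr
      linarith
    have h2 : (W : ℝ) ≤ U := (Real.log_le_log_iff (by linarith) (by linarith)).mp h1
    exact_mod_cast h2
  have hzW : z ≤ W := by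
    have : (z : ℝ) ≤ W := by linarith
    exact_mod_cast this
  have hW1 : 1 ≤ W := by
    have : (1 : ℝ) ≤ W := by linarith
    exact_mod_cast this
  -- Mertens
  have hm := abs_le.mp (hz W U hzW hWU)
  have hrfl : sg1 W U = ∑ p ∈ Pool.Agent.Lib.G3.pi5 W U, (1 : ℝ) / p := rfl
  rw [← hrfl] at hm
  obtain ⟨hm1, hm2⟩ := hm
  set lam : ℝ := Real.log (Real.log N / Real.log q) with hlam
  have hlN0 : 0 < Real.log (N : ℝ) := by linarith
  have hlamlow : K / δ + 4 * M ≤ lam := by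
    have h1 : η⁻¹ ≤ Real.log N / Real.log q := by
      rw [le_div_iff₀ hlqp, inv_mul_le_iff₀ hη0]
      calc Real.log (q : ℝ) ≤ η * l := hlqη
        _ ≤ η * Real.log N := by gcongr
    have h2 := Real.log_le_log (by positivity) h1
    rw [hη, ← Real.exp_neg, Real.log_exp, neg_neg] at h2
    exact h2
  have hup : Real.log (Real.log U / Real.log W) ≤ lam := by
    apply Real.log_le_log (by positivity)
    have : Real.log (U : ℝ) ≤ Real.log N := by linarith
    gcongr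
  have hlow : lam - Real.log (8 * M) ≤ Real.log (Real.log U / Real.log W) := by
    have h1 : Real.log N / Real.log q / (8 * M) ≤ Real.log U / Real.log W := by
      rw [div_div, div_le_div_iff₀ (by positivity) hlWp]
      have h3 : Real.log (W : ℝ) ≤ 2 * Real.log q := by linarith
      have h4 : l ≤ Real.log (U : ℝ) * (2 * M) := by
        rwa [div_le_iff₀ (by linarith)] at hlU2
      calc Real.log N * Real.log W ≤ (2 * l) * (2 * Real.log q) := by gcongr
        _ = (4 * Real.log q) * l := by ring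
        _ ≤ (4 * Real.log q) * (Real.log (U : ℝ) * (2 * M)) := by gcongr
        _ = Real.log U * (Real.log q * (8 * M)) := by ring
    have h2 : Real.log (Real.log N / Real.log q / (8 * M)) = lam - Real.log (8 * M) := by
      rw [Real.log_div (by positivity) (by positivity)]
    have h3 := Real.log_le_log (by positivity) h1
    linarith
  have hKlam : K ≤ δ * lam := by
    have h1 : K / δ ≤ lam := by linarith
    rw [div_le_iff₀ hδ0] at h1
    linarith
  set σ : ℝ := sg1 W U with hσ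
  have hσ1 : 1 ≤ σ := by rw [hK] at hKδ hlamlow; linarith
  have hσlow : (1 - δ) * lam ≤ σ := by rw [hK] at hKlam; linarith
  have hσup : σ ≤ (1 + δ) * lam := by linarith
  have hlam0 : 0 < lam := by linarith
  have hd : (m : ℝ) / W ≤ δ * σ := by
    have hwm : (m : ℝ) / δ ≤ W := by linarith
    have h1 : (m : ℝ) / W ≤ δ := by
      rw [div_le_iff₀ (by linarith)]
      rw [div_le_iff₀ hδ0] at hwm
      linarith
    exact h1.trans (le_mul_of_one_le_right hδ0.le hσ1)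
  obtain ⟨b1, b2⟩ := l7_esy W U m δ hδ1 hW1 (by linarith) hd m le_rfl
  rw [← hσ] at b1 b2
  have hf : (0 : ℝ) < (Nat.factorial m : ℝ) := by exact_mod_cast Nat.factorial_pos m
  have hδ' : 0 ≤ 1 - δ := by linarith
  have hA1 : esy m W U ≤ (1 + ε) * (lam ^ m / (Nat.factorial m : ℝ)) := by
    calc esy m W U ≤ σ ^ m / (Nat.factorial m : ℝ) := b2
      _ ≤ ((1 + δ) * lam) ^ m / (Nat.factorial m : ℝ) := by gcongr
      _ = (1 + δ) ^ m * (lam ^ m / (Nat.factorial m : ℝ)) := by rw [mul_pow]; ring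
      _ ≤ (1 + ε) * (lam ^ m / (Nat.factorial m : ℝ)) := by gcongr
  have hA2 : (1 - ε) * (lam ^ m / (Nat.factorial m : ℝ)) ≤ esy m W U := by
    calc (1 - ε) * (lam ^ m / (Nat.factorial m : ℝ)) ≤ ((1 - δ) ^ m * (1 - δ) ^ m) * (lam ^ m / (Nat.factorial m : ℝ)) := by gcongr
      _ = (1 - δ) ^ m * ((1 - δ) * lam) ^ m / (Nat.factorial m : ℝ) := by rw [mul_pow]; ring
      _ ≤ (1 - δ) ^ m * σ ^ m / (Nat.factorial m : ℝ) := by gcongr
      _ ≤ esy m W U := b1
  rw [abs_le]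
  constructor <;> linarith

theorem merA (k M : ℕ) (hk : 2 ≤ k) (hM : 1 ≤ M) (ε : ℝ) (hε : 0 < ε) : ∃ η : ℝ, 0 < η ∧ ∃ y0 : ℝ, ∀ Y U q : ℕ, y0 ≤ Y →
    U ^ M ≤ Y → Y ≤ (U + 1) ^ M → Real.log Y ≤ q → (q : ℝ) ≤ (Y : ℝ) ^ η →
      |esy (k - 2) (2 ^ (di q + 1)) U - (Real.log (Real.log Y / Real.log q)) ^ (k - 2) / (Nat.factorial (k - 2) : ℝ)| ≤
        ε * ((Real.log (Real.log Y / Real.log q)) ^ (k - 2) / (Nat.factorial (k - 2) : ℝ)) := by
  obtain ⟨η, hη, y0, h⟩ := l7g k M hk hM ε hε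
  exact ⟨η, hη, y0, fun Y U q hY hU1 hU2 hq1 hq2 => h Y Y U q hY le_rfl (by omega) hU1 hU2 hq1 hq2⟩

private lemma l8c_nonneg (u v : ℕ) : 0 ≤ sg1 u v := by
  unfold sg1
  exact Finset.sum_nonneg fun p _ => by positivity

private lemma l8c_zero {u v : ℕ} (h : v ≤ u) : sg1 u v = 0 := by
  unfold sg1 PP
  rw [Finset.Ioc_eq_empty (by omega)]
  simp

private lemma l8c_mert : ∃ z : ℕ, 3 ≤ z ∧ ∀ u v : ℕ, z ≤ u → u ≤ v →
    sg1 u v ≤ Real.log (Real.log v / Real.log u) + 1 := by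
  obtain ⟨z0, hz⟩ := Pool.Agent.Lib.G3.mert5 1 one_pos
  refine ⟨max z0 3, le_max_right _ _, fun u v hu huv => ?_⟩
  have h := hz u v ((le_max_left _ _).trans hu) huv
  have h2 := (abs_le.mp h).2
  have h3 : sg1 u v = ∑ p ∈ Pool.Agent.Lib.G3.pi5 u v, (1 : ℝ) / p := rfl
  rw [h3]
  linarith

private lemma l8g (j M : ℕ) (hM : 1 ≤ M) (ε : ℝ) (hε : 0 < ε) : ∃ η : ℝ, 0 < η ∧ ∃ y0 : ℝ, ∀ Y N U q x : ℕ, y0 ≤ Y → Y ≤ N → x ≤ 2 * Y →
    U ^ M ≤ Y → Y ≤ (U + 1) ^ M → Real.log Y ≤ q → (q : ℝ) ≤ (Y : ℝ) ^ η →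
      (sg1 (q - 1) (2 ^ (di q + 1)) + sg1 U x) * (sg1 (q - 1) x) ^ j ≤ ε * (Real.log (Real.log N / Real.log q)) ^ (j + 1) := by
  obtain ⟨z, hz3, hA⟩ := l8c_mert
  set D : ℝ := Real.log (4 * M) + 3 with hD
  have hM1 : (1 : ℝ) ≤ M := by exact_mod_cast hM
  have hD0 : 0 < D := by
    have : 0 ≤ Real.log (4 * (M : ℝ)) := Real.log_nonneg (by linarith)
    rw [hD]
    linarith
  set L0 : ℝ := max 3 (D * 2 ^ j / ε) with hL0
  have e1 : ∀ᶠ y : ℝ in Filter.atTop, (2 : ℝ) * M + M * Real.log (z + 1) + z + 2 ≤ Real.log y :=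
    Real.tendsto_log_atTop.eventually_ge_atTop _
  obtain ⟨y0, hy0⟩ := Filter.eventually_atTop.mp e1
  refine ⟨Real.exp (-L0), Real.exp_pos _, max y0 2, fun Y N U q x hY hYN hx hU1 hU2 hq1 hq2 => ?_⟩
  have g1 := hy0 Y ((le_max_left _ _).trans hY)
  have hY2 : (2 : ℝ) ≤ Y := (le_max_right _ _).trans hY
  set l : ℝ := Real.log Y with hl
  have hz3' : (3 : ℝ) ≤ z := by exact_mod_cast hz3
  have hlz : 0 ≤ Real.log ((z : ℝ) + 1) := Real.log_nonneg (by linarith)
  have hMlz : 0 ≤ (M : ℝ) * Real.log ((z : ℝ) + 1) := by positivity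
  have hl0 : 0 < l := by linarith
  -- q
  have hqz : z + 1 ≤ q := by
    have : (z : ℝ) + 1 ≤ q := by linarith
    exact_mod_cast this
  have hq3 : (3 : ℝ) ≤ ((q - 1 : ℕ) : ℝ) := by
    have : 3 ≤ q - 1 := by omega
    exact_mod_cast this
  have hqc : ((q - 1 : ℕ) : ℝ) = (q : ℝ) - 1 := by
    rw [Nat.cast_sub (by omega)]
    simp
  have hlq1 : 0 < Real.log ((q - 1 : ℕ) : ℝ) := Real.log_pos (by linarith)
  have hq4 : (4 : ℝ) ≤ q := by linarith
  have hlq0 : 0 < Real.log (q : ℝ) := Real.log_pos (by linarith)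
  have hlq2 : Real.log (q : ℝ) ≤ 2 * Real.log ((q - 1 : ℕ) : ℝ) := by
    calc Real.log (q : ℝ) ≤ Real.log (((q - 1 : ℕ) : ℝ) ^ 2) := by
          apply Real.log_le_log (by linarith)
          rw [hqc]
          nlinarith
      _ = 2 * Real.log ((q - 1 : ℕ) : ℝ) := by
          rw [Real.log_pow]
          norm_num
  have hlqη : Real.log (q : ℝ) ≤ Real.exp (-L0) * l := by
    have h1 := Real.log_le_log (by linarith) hq2
    rwa [Real.log_rpow (by linarith)] at h1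
  -- lambda
  have hlN : l ≤ Real.log (N : ℝ) := by
    apply Real.log_le_log (by linarith)
    exact_mod_cast hYN
  set lam : ℝ := Real.log (Real.log N / Real.log q) with hlam
  have hlamL : L0 ≤ lam := by
    rw [hlam, Real.le_log_iff_exp_le (by
      apply div_pos _ hlq0
      linarith), le_div_iff₀ hlq0]
    calc Real.exp L0 * Real.log (q : ℝ) ≤ Real.exp L0 * (Real.exp (-L0) * l) := by gcongr
      _ = l := by rw [← mul_assoc, ← Real.exp_add, add_neg_cancel, Real.exp_zero, one_mul]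
      _ ≤ Real.log (N : ℝ) := hlN
  have hlam3 : 3 ≤ lam := (le_max_left _ _).trans hlamL
  have hlamD : D * 2 ^ j / ε ≤ lam := (le_max_right _ _).trans hlamL
  have hlx : Real.log (x : ℝ) ≤ 2 * l := by
    rcases Nat.eq_zero_or_pos x with h | h
    · rw [h, Nat.cast_zero, Real.log_zero]
      positivity
    · have h1 : (x : ℝ) ≤ 2 * Y := by exact_mod_cast hx
      calc Real.log (x : ℝ) ≤ Real.log (2 * Y) := Real.log_le_log (by exact_mod_cast h) h1
        _ ≤ Real.log (Y * Y) := Real.log_le_log (by linarith) (by gcongr)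
        _ = 2 * l := by rw [Real.log_mul (by linarith) (by linarith)]; ring
  -- (a) the dyadic interval of q
  have ha : sg1 (q - 1) (2 ^ (di q + 1)) ≤ 2 := by
    have hq10 : q - 1 ≠ 0 := by omega
    have h1 : q - 1 < 2 ^ (di q + 1) := by
      have := Nat.lt_pow_succ_log_self (b := 2) (by norm_num) (q - 1)
      exact this
    have h2 : 2 ^ (di q + 1) ≤ 2 * (q - 1) := by
      have := Nat.pow_log_le_self 2 hq10
      rw [pow_succ]
      unfold di
      omega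
    have h3 := hA (q - 1) (2 ^ (di q + 1)) (by omega) h1.le
    have h4 : Real.log ((2 ^ (di q + 1) : ℕ) : ℝ) ≤ 2 * Real.log ((q - 1 : ℕ) : ℝ) := by
      have h5 : ((2 ^ (di q + 1) : ℕ) : ℝ) ≤ 2 * ((q - 1 : ℕ) : ℝ) := by exact_mod_cast h2
      have h6 : (0 : ℝ) < ((2 ^ (di q + 1) : ℕ) : ℝ) := by positivity
      calc Real.log ((2 ^ (di q + 1) : ℕ) : ℝ) ≤ Real.log (((q - 1 : ℕ) : ℝ) ^ 2) := by
            apply Real.log_le_log h6
            nlinarith
        _ = 2 * Real.log ((q - 1 : ℕ) : ℝ) := by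
            rw [Real.log_pow]
            norm_num
    have h7 : Real.log ((2 ^ (di q + 1) : ℕ) : ℝ) / Real.log ((q - 1 : ℕ) : ℝ) ≤ 2 := by
      rw [div_le_iff₀ hlq1]
      exact h4
    have h8 : 0 < Real.log ((2 ^ (di q + 1) : ℕ) : ℝ) / Real.log ((q - 1 : ℕ) : ℝ) := by
      apply div_pos _ hlq1
      apply Real.log_pos
      have : ((q - 1 : ℕ) : ℝ) < ((2 ^ (di q + 1) : ℕ) : ℝ) := by exact_mod_cast h1
      linarith
    have h9 := Real.log_le_log h8 h7
    have h10 := Real.log_two_lt_d9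
    linarith
  -- (b) the primes above U
  have hlU : l ≤ M * Real.log ((U : ℝ) + 1) := by
    have h1 : (Y : ℝ) ≤ ((U : ℝ) + 1) ^ M := by exact_mod_cast hU2
    calc l ≤ Real.log (((U : ℝ) + 1) ^ M) := Real.log_le_log (by linarith) h1
      _ = M * Real.log ((U : ℝ) + 1) := Real.log_pow _ _
  have hUz : z ≤ U := by
    have h1 : M * Real.log ((z : ℝ) + 1) ≤ M * Real.log ((U : ℝ) + 1) := by linarith
    have h2 : Real.log ((z : ℝ) + 1) ≤ Real.log ((U : ℝ) + 1) := le_of_mul_le_mul_left h1 (by linarith)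
    have h3 : (z : ℝ) + 1 ≤ (U : ℝ) + 1 := (Real.log_le_log_iff (by linarith) (by positivity)).mp h2
    have h4 : (z : ℝ) ≤ U := by linarith
    exact_mod_cast h4
  have hU3 : (3 : ℝ) ≤ U := hz3'.trans (by exact_mod_cast hUz)
  have hlU' : l / (2 * M) ≤ Real.log (U : ℝ) := by
    have h1 : Real.log ((U : ℝ) + 1) ≤ Real.log (U : ℝ) + 1 := by
      calc Real.log ((U : ℝ) + 1) ≤ Real.log (2 * U) := Real.log_le_log (by linarith) (by linarith)
        _ = Real.log 2 + Real.log U := Real.log_mul (by norm_num) (by linarith)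
        _ ≤ Real.log (U : ℝ) + 1 := by linarith [Real.log_two_lt_d9]
    rw [div_le_iff₀ (by linarith)]
    have h2 : l ≤ M * (Real.log (U : ℝ) + 1) := hlU.trans (by gcongr)
    nlinarith
  have hb : sg1 U x ≤ Real.log (4 * M) + 1 := by
    rcases le_total U x with h | h
    · have h1 := hA U x hUz h
      have hlw0 : 0 < l / (2 * M) := by positivity
      have hx3 : (3 : ℝ) ≤ x := hU3.trans (by exact_mod_cast h)
      have h2 : Real.log x / Real.log U ≤ 4 * M := by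
        rw [div_le_iff₀ (by linarith)]
        calc Real.log (x : ℝ) ≤ 2 * l := hlx
          _ = 4 * M * (l / (2 * M)) := by field_simp; ring
          _ ≤ 4 * M * Real.log U := by gcongr
      have h3 : 0 < Real.log x / Real.log U := div_pos (Real.log_pos (by linarith)) (by linarith)
      have h4 := Real.log_le_log h3 h2
      linarith
    · rw [l8c_zero h]
      have : 0 ≤ Real.log (4 * (M : ℝ)) := Real.log_nonneg (by linarith)
      linarith
  -- (c) the whole range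
  have hc : sg1 (q - 1) x ≤ lam + 3 := by
    rcases le_total (q - 1) x with h | h
    · have h1 := hA (q - 1) x (by omega) h
      have hx3 : (3 : ℝ) ≤ x := hq3.trans (by exact_mod_cast h)
      have hlNq : 0 < Real.log (N : ℝ) / Real.log q := div_pos (by linarith) hlq0
      have h2 : Real.log x / Real.log ((q - 1 : ℕ) : ℝ) ≤ 4 * (Real.log N / Real.log q) := by
        rw [div_le_iff₀ hlq1]
        have h5 : 4 * (Real.log (N : ℝ) / Real.log q) * Real.log ((q - 1 : ℕ) : ℝ) =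
            2 * Real.log (N : ℝ) * (2 * Real.log ((q - 1 : ℕ) : ℝ) / Real.log q) := by
          field_simp
          ring
        have h6 : 1 ≤ 2 * Real.log ((q - 1 : ℕ) : ℝ) / Real.log q := by
          rw [le_div_iff₀ hlq0]
          linarith
        rw [h5]
        nlinarith
      have h3 : 0 < Real.log x / Real.log ((q - 1 : ℕ) : ℝ) := div_pos (Real.log_pos (by linarith)) hlq1
      have h4 := Real.log_le_log h3 h2
      rw [Real.log_mul (by norm_num) hlNq.ne'] at h4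
      have h7 : Real.log 4 ≤ 2 := by
        rw [show (4 : ℝ) = 2 ^ 2 by norm_num, Real.log_pow]
        have := Real.log_two_lt_d9
        push_cast
        linarith
      linarith
    · rw [l8c_zero h]
      linarith
  -- end
  have hs0 := l8c_nonneg (q - 1) x
  calc (sg1 (q - 1) (2 ^ (di q + 1)) + sg1 U x) * (sg1 (q - 1) x) ^ j ≤ D * (2 * lam) ^ j := by
        have h1 : sg1 (q - 1) (2 ^ (di q + 1)) + sg1 U x ≤ D := by
          rw [hD]
          linarith
        have h2 : sg1 (q - 1) x ≤ 2 * lam := by linarith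
        gcongr
    _ = (D * 2 ^ j) * lam ^ j := by rw [mul_pow]; ring
    _ ≤ (ε * lam) * lam ^ j := by
        have h3 : D * 2 ^ j ≤ ε * lam := by
          rw [div_le_iff₀ hε] at hlamD
          linarith
        have h4 : 0 ≤ lam := by linarith
        gcongr
    _ = ε * lam ^ (j + 1) := by
        rw [pow_succ]
        ring

theorem merB (j M : ℕ) (hM : 1 ≤ M) (ε : ℝ) (hε : 0 < ε) : ∃ η : ℝ, 0 < η ∧ ∃ y0 : ℝ, ∀ Y U q x : ℕ, y0 ≤ Y → x ≤ 2 * Y →
    U ^ M ≤ Y → Y ≤ (U + 1) ^ M → Real.log Y ≤ q → (q : ℝ) ≤ (Y : ℝ) ^ η →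
      (sg1 (q - 1) (2 ^ (di q + 1)) + sg1 U x) * (sg1 (q - 1) x) ^ j ≤ ε * (Real.log (Real.log Y / Real.log q)) ^ (j + 1) := by
  obtain ⟨η, hη, y0, h⟩ := l8g j M hM ε hε
  exact ⟨η, hη, y0, fun Y U q x hY hx hU1 hU2 hq1 hq2 => h Y Y U q x hY le_rfl hx hU1 hU2 hq1 hq2⟩

/-- `sg1 (q-1) x ≤ λ + 3` and `λ` large -/
private lemma merC_aux (L0 : ℝ) (hL0 : 3 ≤ L0) : ∃ y0 : ℝ, ∀ Y q x : ℕ, y0 ≤ Y → x ≤ 2 * Y →
    Real.log Y ≤ q → (q : ℝ) ≤ (Y : ℝ) ^ (Real.exp (-L0)) →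
      L0 ≤ Real.log (Real.log Y / Real.log q) ∧ sg1 (q - 1) x ≤ Real.log (Real.log Y / Real.log q) + 3 := by
  obtain ⟨z, hz3, hA⟩ := l8c_mert
  have e1 : ∀ᶠ y : ℝ in Filter.atTop, (z : ℝ) + 2 ≤ Real.log y :=
    Real.tendsto_log_atTop.eventually_ge_atTop _
  obtain ⟨y0, hy0⟩ := Filter.eventually_atTop.mp e1
  refine ⟨max y0 2, fun Y q x hY hx hq1 hq2 => ?_⟩
  have g1 := hy0 Y ((le_max_left _ _).trans hY)
  have hY2 : (2 : ℝ) ≤ Y := (le_max_right _ _).trans hY
  set l : ℝ := Real.log Y with hl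
  have hz3' : (3 : ℝ) ≤ z := by exact_mod_cast hz3
  have hl0 : 0 < l := by linarith
  have hqz : z + 1 ≤ q := by
    have : (z : ℝ) + 1 ≤ q := by linarith
    exact_mod_cast this
  have hq3 : (3 : ℝ) ≤ ((q - 1 : ℕ) : ℝ) := by
    have : 3 ≤ q - 1 := by omega
    exact_mod_cast this
  have hqc : ((q - 1 : ℕ) : ℝ) = (q : ℝ) - 1 := by
    rw [Nat.cast_sub (by omega)]
    simp
  have hlq1 : 0 < Real.log ((q - 1 : ℕ) : ℝ) := Real.log_pos (by linarith)
  have hq4 : (4 : ℝ) ≤ q := by linarith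
  have hlq0 : 0 < Real.log (q : ℝ) := Real.log_pos (by linarith)
  have hlq2 : Real.log (q : ℝ) ≤ 2 * Real.log ((q - 1 : ℕ) : ℝ) := by
    calc Real.log (q : ℝ) ≤ Real.log (((q - 1 : ℕ) : ℝ) ^ 2) := by
          apply Real.log_le_log (by linarith)
          rw [hqc]
          nlinarith
      _ = 2 * Real.log ((q - 1 : ℕ) : ℝ) := by
          rw [Real.log_pow]
          norm_num
  have hlqη : Real.log (q : ℝ) ≤ Real.exp (-L0) * l := by
    have h1 := Real.log_le_log (by linarith) hq2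
    rwa [Real.log_rpow (by linarith)] at h1
  set lam : ℝ := Real.log (l / Real.log q) with hlam
  have hlamL : L0 ≤ lam := by
    rw [hlam, Real.le_log_iff_exp_le (div_pos hl0 hlq0), le_div_iff₀ hlq0]
    calc Real.exp L0 * Real.log (q : ℝ) ≤ Real.exp L0 * (Real.exp (-L0) * l) := by gcongr
      _ = l := by rw [← mul_assoc, ← Real.exp_add, add_neg_cancel, Real.exp_zero, one_mul]
  refine ⟨hlamL, ?_⟩
  have hlx : Real.log (x : ℝ) ≤ 2 * l := by
    rcases Nat.eq_zero_or_pos x with h | h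
    · rw [h, Nat.cast_zero, Real.log_zero]
      positivity
    · have h1 : (x : ℝ) ≤ 2 * Y := by exact_mod_cast hx
      calc Real.log (x : ℝ) ≤ Real.log (2 * Y) := Real.log_le_log (by exact_mod_cast h) h1
        _ ≤ Real.log (Y * Y) := Real.log_le_log (by linarith) (by gcongr)
        _ = 2 * l := by rw [Real.log_mul (by linarith) (by linarith)]; ring
  rcases le_total (q - 1) x with h | h
  · have h1 := hA (q - 1) x (by omega) h
    have hx3 : (3 : ℝ) ≤ x := hq3.trans (by exact_mod_cast h)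
    have hlNq : 0 < l / Real.log q := div_pos hl0 hlq0
    have h2 : Real.log x / Real.log ((q - 1 : ℕ) : ℝ) ≤ 4 * (l / Real.log q) := by
      rw [div_le_iff₀ hlq1]
      have h5 : 4 * (l / Real.log q) * Real.log ((q - 1 : ℕ) : ℝ) =
          2 * l * (2 * Real.log ((q - 1 : ℕ) : ℝ) / Real.log q) := by
        field_simp
        ring
      have h6 : 1 ≤ 2 * Real.log ((q - 1 : ℕ) : ℝ) / Real.log q := by
        rw [le_div_iff₀ hlq0]
        linarith
      rw [h5]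
      nlinarith
    have h3 : 0 < Real.log x / Real.log ((q - 1 : ℕ) : ℝ) := div_pos (Real.log_pos (by linarith)) hlq1
    have h4 := Real.log_le_log h3 h2
    rw [Real.log_mul (by norm_num) hlNq.ne'] at h4
    have h7 : Real.log 4 ≤ 2 := by
      rw [show (4 : ℝ) = 2 ^ 2 by norm_num, Real.log_pow]
      have := Real.log_two_lt_d9
      push_cast
      linarith
    linarith
  · rw [l8c_zero h]
    linarith

/-- `(λ + 4)^j ≤ 2 λ^j` for large `λ` -/
private lemma merC_pow (j : ℕ) : ∃ L1 : ℝ, ∀ lam : ℝ, L1 ≤ lam → 0 < lam → (lam + 4) ^ j ≤ 2 * lam ^ j := by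
  have h1 : Filter.Tendsto (fun lam : ℝ => (1 + 4 * lam⁻¹) ^ j) Filter.atTop (nhds ((1 + 4 * 0) ^ j)) :=
    ((tendsto_inv_atTop_zero.const_mul 4).const_add 1).pow j
  have e1 : ∀ᶠ lam : ℝ in Filter.atTop, (1 + 4 * lam⁻¹) ^ j ≤ 2 := by
    apply h1.eventually (ge_mem_nhds (by norm_num))
  obtain ⟨L1, hL1⟩ := Filter.eventually_atTop.mp e1
  refine ⟨L1, fun lam hl h0 => ?_⟩
  have h2 := hL1 lam hl
  calc (lam + 4) ^ j = (1 + 4 * lam⁻¹) ^ j * lam ^ j := by
        rw [← mul_pow]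
        congr 1
        field_simp
    _ ≤ 2 * lam ^ j := by gcongr

theorem merC (j : ℕ) (ε : ℝ) (hε : 0 < ε) : ∃ η : ℝ, 0 < η ∧ ∃ y0 : ℝ, ∀ Y q x : ℕ, y0 ≤ Y → x ≤ 2 * Y →
    Real.log Y ≤ q → (q : ℝ) ≤ (Y : ℝ) ^ η →
      1 ≤ Real.log (Real.log Y / Real.log q) ∧ (1 + sg1 (q - 1) x) ^ j ≤ 2 * (Real.log (Real.log Y / Real.log q)) ^ j ∧
        (1 + sg1 (q - 1) x) ^ j ≤ ε * (Real.log (Real.log Y / Real.log q)) ^ (j + 1) := by
  obtain ⟨L1, hL1⟩ := merC_pow j
  set L0 : ℝ := max 3 (max L1 (2 / ε)) with hL0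
  obtain ⟨y0, hy⟩ := merC_aux L0 (le_max_left _ _)
  refine ⟨Real.exp (-L0), Real.exp_pos _, y0, fun Y q x hY hx hq1 hq2 => ?_⟩
  obtain ⟨h1, h2⟩ := hy Y q x hY hx hq1 hq2
  set lam : ℝ := Real.log (Real.log Y / Real.log q) with hlam
  have h3 : 3 ≤ lam := (le_max_left _ _).trans h1
  have h4 : L1 ≤ lam := ((le_max_left _ _).trans (le_max_right _ _)).trans h1
  have h5 : 2 / ε ≤ lam := ((le_max_right _ _).trans (le_max_right _ _)).trans h1
  have h0 : 0 < lam := by linarith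
  have hs := l8c_nonneg (q - 1) x
  have h6 : (1 + sg1 (q - 1) x) ^ j ≤ 2 * lam ^ j := by
    calc (1 + sg1 (q - 1) x) ^ j ≤ (lam + 4) ^ j := by
          apply pow_le_pow_left₀ (by linarith)
          linarith
      _ ≤ 2 * lam ^ j := hL1 lam h4 h0
  refine ⟨by linarith, h6, h6.trans ?_⟩
  have h7 : 2 ≤ ε * lam := by
    rw [div_le_iff₀ hε] at h5
    linarith
  calc 2 * lam ^ j ≤ (ε * lam) * lam ^ j := by gcongr
    _ = ε * lam ^ (j + 1) := by rw [pow_succ]; ring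

end Pool.Agent.Lib.T8
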