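import Pool.Agent.Lib.T8.Def
import Pool.Agent.Lib.G8.L8b

/-!
# T8, row Sum: the sums of `1/g` over `QF` and `QE` (compare G8/L8b.lean)

PROOF IN WORDS. `qfsum`: `g = q g'`, `q = g.minFac ∈ S`, `g'` has at most `K` prime factors, all in `[q, x]` (`≥ q`: least prime factor of `g`; `≤ g ≤ x`). The sum of `1/g'` over the numbers with exactly `t` prime factors in `[q, x]` is at most `σ^t`, `σ = sg1 (q-1) x`
the sum of `1/p` over the primes of `[q, x]` (as in G6/Rq.lean, G8/L8b.lean), so the sum over `g'` is at most `∑_{t ≤ K} σ^t ≤ (K+1) (1+σ)^K`. `qe1`: a `g ∈ QF 1` is a prime `q`: neither alternative of `QE 1` is possible. `qesum`: the `g ∈ QE (K+2)` with at most `K + 1`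
prime factors are in `QF (K+1) S x` (`qfsum`); the others have exactly `K + 2` prime factors and are in `QL (K+2) U S x` (with `q = g.minFac`; `Ω(g) = g.primeFactorsList.length`), sum by `l8b` (G8/L8b).
-/

set_option autoImplicit false

open Finset Filter

namespace Pool.Agent.Lib.T8

open Pool.Agent.Lib.G5 (sg1 esy PP)
open Pool.Agent.Lib.G8 (di QL)

open Classical in
/-- the numbers of `[1, x]` with exactly `j` prime factors, all of them at least `q` -/
private noncomputable def t8sum_OT (j q x : ℕ) : Finset ℕ :=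
  (Icc 1 x).filter fun Q => ArithmeticFunction.cardFactors Q = j ∧ ∀ s : ℕ, s.Prime → s ∣ Q → q ≤ s

private theorem t8sum_mul (A B C : Finset ℕ) (h : ∀ Q ∈ A, ∃ q ∈ B, ∃ Q' ∈ C, Q = q * Q') :
    ∑ Q ∈ A, (1 : ℝ) / Q ≤ (∑ q ∈ B, (1 : ℝ) / q) * ∑ Q' ∈ C, (1 : ℝ) / Q' := by
  have h1 : A ⊆ (B ×ˢ C).image fun p => p.1 * p.2 := by
    intro Q hQ
    obtain ⟨q, hq, Q', hQ', e⟩ := h Q hQ
    exact mem_image.2 ⟨(q, Q'), mem_product.2 ⟨hq, hQ'⟩, e.symm⟩
  have h2 : ∑ Q ∈ A, (1 : ℝ) / Q ≤ ∑ Q ∈ (B ×ˢ C).image fun p => p.1 * p.2, (1 : ℝ) / Q :=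
    sum_le_sum_of_subset_of_nonneg h1 fun i _ _ => by positivity
  have h3 : ∑ Q ∈ (B ×ˢ C).image fun p => p.1 * p.2, (1 : ℝ) / Q
      ≤ ∑ p ∈ B ×ˢ C, (1 : ℝ) / ((p.1 * p.2 : ℕ) : ℝ) :=
    sum_image_le_of_nonneg (f := fun Q : ℕ => (1 : ℝ) / Q) fun i _ => by positivity
  refine h2.trans (h3.trans (le_of_eq ?_))
  rw [sum_mul_sum, sum_product]
  refine sum_congr rfl fun q _ => sum_congr rfl fun Q' _ => ?_
  push_cast
  rw [one_div_mul_one_div]

/-- a number with a prime factor `s` is `s` times a number with one prime factor less -/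
private theorem t8sum_div {j x q Q s : ℕ} (h1 : 1 ≤ Q) (h2 : Q ≤ x) (h3 : ArithmeticFunction.cardFactors Q = j + 1)
    (h4 : ∀ t : ℕ, t.Prime → t ∣ Q → q ≤ t) (hs : s.Prime) (hd : s ∣ Q) :
    q ≤ s ∧ s ≤ x ∧ ∃ Q' ∈ t8sum_OT j q x, Q = s * Q' := by
  classical
  have hqs := h4 s hs hd
  obtain ⟨Q', rfl⟩ := hd
  have h5 : Q' ≠ 0 := by
    rintro rfl
    simp at h1
  have h6 : 1 ≤ Q' := Nat.one_le_iff_ne_zero.2 h5
  refine ⟨hqs, (Nat.le_mul_of_pos_right s h6).trans h2, Q', ?_, rfl⟩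
  rw [ArithmeticFunction.cardFactors_mul hs.ne_zero h5, ArithmeticFunction.cardFactors_apply_prime hs] at h3
  unfold t8sum_OT
  rw [mem_filter, mem_Icc]
  exact ⟨⟨h6, (Nat.le_mul_of_pos_left Q' hs.pos).trans h2⟩, by omega, fun t ht htd => h4 t ht (htd.mul_left s)⟩

private theorem t8sum_un (S : Finset ℕ) (A : ℕ → Finset ℕ) :
    ∑ Q ∈ S.biUnion A, (1 : ℝ) / Q ≤ ∑ q ∈ S, ∑ Q ∈ A q, (1 : ℝ) / Q := by
  classical
  induction S using Finset.induction_on with
  | empty => simp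
  | insert a T ha ih =>
    rw [biUnion_insert, sum_insert ha]
    have h := sum_union_inter (s₁ := A a) (s₂ := T.biUnion A) (f := fun Q : ℕ => (1 : ℝ) / Q)
    have h2 : 0 ≤ ∑ Q ∈ A a ∩ T.biUnion A, (1 : ℝ) / Q := sum_nonneg fun i _ => by positivity
    linarith

private theorem t8sum_pp {q s x : ℕ} (hs : s.Prime) (h1 : q ≤ s) (h2 : s ≤ x) : s ∈ PP (q - 1) x := by
  unfold PP
  rw [mem_filter, mem_Ioc]
  have := hs.pos
  exact ⟨⟨by omega, h2⟩, hs⟩

private theorem t8sum_sum (q x : ℕ) : ∀ j : ℕ, ∑ Q ∈ t8sum_OT j q x, (1 : ℝ) / Q ≤ (sg1 (q - 1) x) ^ j := by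
  classical
  intro j
  induction j with
  | zero =>
    have h : t8sum_OT 0 q x ⊆ {1} := by
      intro Q hQ
      unfold t8sum_OT at hQ
      rw [mem_filter, mem_Icc] at hQ
      rcases ArithmeticFunction.cardFactors_eq_zero_iff_eq_zero_or_one.1 hQ.2.1 with h | h
      · have := hQ.1.1
        omega
      · rw [h]
        exact mem_singleton_self 1
    refine (sum_le_sum_of_subset_of_nonneg h fun i _ _ => by positivity).trans ?_
    simp
  | succ j ih =>
    have h : ∑ Q ∈ t8sum_OT (j + 1) q x, (1 : ℝ) / Q ≤ (∑ t ∈ PP (q - 1) x, (1 : ℝ) / t) * ∑ Q' ∈ t8sum_OT j q x, (1 : ℝ) / Q' := by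
      refine t8sum_mul _ _ _ ?_
      intro Q hQ
      unfold t8sum_OT at hQ
      rw [mem_filter, mem_Icc] at hQ
      have h1 : Q ≠ 1 := by
        rintro rfl
        have := hQ.2.1
        simp at this
      obtain ⟨t, ht, hd⟩ := Nat.exists_prime_and_dvd h1
      obtain ⟨h0, h2, Q', h3, h4⟩ := t8sum_div hQ.1.1 hQ.1.2 hQ.2.1 hQ.2.2 ht hd
      exact ⟨t, t8sum_pp ht h0 h2, Q', h3, h4⟩
    rw [pow_succ, mul_comm]
    refine h.trans (mul_le_mul_of_nonneg_left ih ?_)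
    exact sum_nonneg fun i _ => by positivity

private theorem t8sum_len {g : ℕ} : ArithmeticFunction.cardFactors g = g.primeFactorsList.length :=
  ArithmeticFunction.cardFactors_apply

/-- the members of `QF (K + 1) S x` with least prime factor `q` -/
private theorem t8sum_part (K x q : ℕ) (S : Finset ℕ) (hq : q.Prime) :
    ∑ g ∈ (QF (K + 1) S x).filter (fun g => g.minFac = q), (1 : ℝ) / g ≤ 1 / (q : ℝ) * (((K : ℝ) + 1) * (1 + sg1 (q - 1) x) ^ K) := by
  classical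
  have h0 : 0 ≤ sg1 (q - 1) x := sum_nonneg fun i _ => by positivity
  have h1 : ∑ g ∈ (QF (K + 1) S x).filter (fun g => g.minFac = q), (1 : ℝ) / g ≤
      (∑ t ∈ ({q} : Finset ℕ), (1 : ℝ) / t) * ∑ R ∈ (range (K + 1)).biUnion (fun t => t8sum_OT t q x), (1 : ℝ) / R := by
    refine t8sum_mul _ _ _ ?_
    intro g hg
    obtain ⟨hg1, hg2⟩ := mem_filter.1 hg
    unfold QF at hg1
    rw [mem_filter, mem_Icc] at hg1
    obtain ⟨⟨a1, a2⟩, a3, -⟩ := hg1
    have hd : q ∣ g := hg2 ▸ Nat.minFac_dvd g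
    have h4 : ∀ t : ℕ, t.Prime → t ∣ g → q ≤ t := fun t ht htd => hg2 ▸ Nat.minFac_le_of_dvd ht.two_le htd
    have h5 : g.primeFactorsList.length ≠ 0 := by
      intro h
      have := List.length_eq_zero_iff.1 h
      rcases (Nat.primeFactorsList_eq_nil _).1 this with e | e
      · omega
      · subst e
        exact hq.one_lt.ne' (Nat.dvd_one.1 hd)
    obtain ⟨j, hj⟩ := Nat.exists_eq_succ_of_ne_zero h5
    have h6 : ArithmeticFunction.cardFactors g = j + 1 := by rw [t8sum_len, hj]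
    obtain ⟨-, -, R, hR, e⟩ := t8sum_div a1 a2 h6 h4 hq hd
    exact ⟨q, mem_singleton_self q, R, mem_biUnion.2 ⟨j, mem_range.2 (by omega), hR⟩, e⟩
  rw [sum_singleton] at h1
  refine h1.trans (mul_le_mul_of_nonneg_left ?_ (by positivity))
  refine (t8sum_un (range (K + 1)) (fun t => t8sum_OT t q x)).trans ?_
  have h2 : ∀ t ∈ range (K + 1), ∑ R ∈ t8sum_OT t q x, (1 : ℝ) / R ≤ (1 + sg1 (q - 1) x) ^ K := by
    intro t ht
    refine (t8sum_sum q x t).trans ?_
    refine (pow_le_pow_left₀ h0 (by linarith : sg1 (q - 1) x ≤ 1 + sg1 (q - 1) x) t).trans ?_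
    exact pow_le_pow_right₀ (by linarith) (Nat.lt_succ_iff.1 (mem_range.1 ht))
  refine (sum_le_sum h2).trans (le_of_eq ?_)
  rw [sum_const, card_range, nsmul_eq_mul]
  push_cast
  ring

theorem qfsum (K x : ℕ) (S : Finset ℕ) (hS : ∀ q ∈ S, q.Prime) : ∑ g ∈ QF (K + 1) S x, (1 : ℝ) / g ≤
    ∑ q ∈ S, 1 / (q : ℝ) * (((K : ℝ) + 1) * (1 + sg1 (q - 1) x) ^ K) := by
  classical
  have h : QF (K + 1) S x ⊆ S.biUnion fun q => (QF (K + 1) S x).filter (fun g => g.minFac = q) := by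
    intro g hg
    have hg' := hg
    unfold QF at hg'
    exact mem_biUnion.2 ⟨g.minFac, (mem_filter.1 hg').2.2, mem_filter.2 ⟨hg, rfl⟩⟩
  refine (sum_le_sum_of_subset_of_nonneg h fun i _ _ => by positivity).trans ?_
  refine (t8sum_un S _).trans ?_
  exact sum_le_sum fun q hq => t8sum_part K x q S (hS q hq)

theorem qe1 (U x : ℕ) (S : Finset ℕ) (hS : ∀ q ∈ S, q.Prime) : QE 1 U S x = ∅ := by
  classical
  refine eq_empty_of_forall_notMem fun g hg => ?_
  unfold QE at hg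
  obtain ⟨h1, h2⟩ := mem_filter.1 hg
  unfold QF at h1
  rw [mem_filter, mem_Icc] at h1
  obtain ⟨⟨a1, a2⟩, a3, a4⟩ := h1
  rcases h2 with h2 | ⟨s, hs, hd, -⟩
  · have h3 : g.primeFactorsList.length = 0 := by omega
    have := List.length_eq_zero_iff.1 h3
    rcases (Nat.primeFactorsList_eq_nil _).1 this with e | e
    · omega
    · subst e
      have := hS _ a4
      rw [Nat.minFac_one] at this
      exact Nat.not_prime_one this
  · obtain ⟨Q', e⟩ := hd
    have hqp := hS _ a4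
    have h3 : Q' ≠ 0 := by
      rintro rfl
      rw [mul_zero] at e
      omega
    have h4 : ArithmeticFunction.cardFactors g = 1 + 1 + ArithmeticFunction.cardFactors Q' := by
      conv_lhs => rw [e]
      rw [ArithmeticFunction.cardFactors_mul (mul_ne_zero hqp.ne_zero hs.ne_zero) h3,
        ArithmeticFunction.cardFactors_mul hqp.ne_zero hs.ne_zero, ArithmeticFunction.cardFactors_apply_prime hqp,
        ArithmeticFunction.cardFactors_apply_prime hs]
    rw [t8sum_len] at h4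
    omega

theorem qesum (K U x : ℕ) (S : Finset ℕ) (hS : ∀ q ∈ S, q.Prime) : ∑ g ∈ QE (K + 2) U S x, (1 : ℝ) / g ≤
    ∑ q ∈ S, 1 / (q : ℝ) * ((sg1 (q - 1) (2 ^ (di q + 1)) + sg1 U x) * (sg1 (q - 1) x) ^ K + ((K : ℝ) + 1) * (1 + sg1 (q - 1) x) ^ K) := by
  classical
  have h : QE (K + 2) U S x ⊆ QL (K + 2) U S x ∪ QF (K + 1) S x := by
    intro g hg
    unfold QE at hg
    obtain ⟨h1, h2⟩ := mem_filter.1 hg
    unfold QF at h1
    rw [mem_filter] at h1
    obtain ⟨a1, a3, a4⟩ := h1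
    by_cases h3 : g.primeFactorsList.length ≤ K + 1
    · refine mem_union_right _ ?_
      unfold QF
      exact mem_filter.2 ⟨a1, h3, a4⟩
    · refine mem_union_left _ ?_
      unfold QL
      refine mem_filter.2 ⟨a1, by rw [t8sum_len]; omega, g.minFac, a4, Nat.minFac_dvd g,
        fun s hs hd => Nat.minFac_le_of_dvd hs.two_le hd, ?_⟩
      rcases h2 with h2 | h2
      · omega
      · exact h2
  have h1 : ∑ g ∈ QE (K + 2) U S x, (1 : ℝ) / g ≤ ∑ g ∈ QL (K + 2) U S x, (1 : ℝ) / g + ∑ g ∈ QF (K + 1) S x, (1 : ℝ) / g := by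
    refine (sum_le_sum_of_subset_of_nonneg h fun i _ _ => by positivity).trans ?_
    have h3 := sum_union_inter (s₁ := QL (K + 2) U S x) (s₂ := QF (K + 1) S x) (f := fun q : ℕ => (1 : ℝ) / q)
    have h4 : 0 ≤ ∑ t ∈ QL (K + 2) U S x ∩ QF (K + 1) S x, (1 : ℝ) / t := sum_nonneg fun i _ => by positivity
    linarith
  refine h1.trans ((add_le_add (Pool.Agent.Lib.G8.l8b K U x S hS) (qfsum K x S hS)).trans (le_of_eq ?_))
  rw [← sum_add_distrib]
  refine sum_congr rfl fun q _ => ?_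
  ring

end Pool.Agent.Lib.T8
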