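import Mathlib

/-!
# T8, row Gcd: common prime factors and squares (elementary)

PROOF IN WORDS. `gcdZ`: such a prime `p` divides `|a - b| ≤ Y`, which is not `0`: there are at most `log_2 Y` such primes, all `≤ Y`; for each of them the number of `n ∈ (Y, 2Y]` with `p ∣ n + a` is at most `Y/p + 1 ≤ 2Y/p ≤ 2Y/w`. `sqZ`: `s^2 ≤ n + a ≤ 3Y`, so `s ≤ 2 √Y`;
for each `s` the number of `n` is at most `Y/s^2 + 1`; `∑_{s > w} 1/s^2 ≤ 1/w` (compare `wunw_sq` in VK/WUnw.lean).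
-/

set_option autoImplicit false

open Finset Filter

namespace Pool.Agent.Lib.T8

private theorem gcd_cnt (Y a d : ℕ) (hd : 0 < d) :
    ((((Ioc Y (2 * Y)).filter fun n => d ∣ n + a).card : ℕ) : ℝ) ≤ (Y : ℝ) * (d : ℝ)⁻¹ + 1 := by
  have hle : ((Ioc Y (2 * Y)).filter fun n => d ∣ n + a).card ≤
      (Ioc ((Y + a) / d) ((2 * Y + a) / d)).card := by
    refine card_le_card_of_injOn (fun n => (n + a) / d) ?_ ?_
    · intro n hn
      rw [coe_filter, Set.mem_setOf_eq, mem_Ioc] at hn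
      rw [coe_Ioc, Set.mem_Ioc]
      obtain ⟨⟨ha, hb⟩, t, ht⟩ := hn
      simp only
      constructor
      · rw [ht, Nat.mul_div_cancel_left _ hd, Nat.div_lt_iff_lt_mul hd, mul_comm, ← ht]
        omega
      · exact Nat.div_le_div_right (by omega)
    · intro n hn n' hn' heq
      rw [coe_filter, Set.mem_setOf_eq] at hn hn'
      obtain ⟨-, t, ht⟩ := hn
      obtain ⟨-, t', ht'⟩ := hn'
      simp only at heq
      rw [ht, ht', Nat.mul_div_cancel_left _ hd, Nat.mul_div_cancel_left _ hd] at heq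
      rw [heq, ← ht'] at ht
      omega
  rw [Nat.card_Ioc] at hle
  have hd0 : (0 : ℝ) < d := by exact_mod_cast hd
  have h3 : ((((2 * Y + a) / d - (Y + a) / d : ℕ)) : ℝ) ≤ (Y : ℝ) * (d : ℝ)⁻¹ + 1 := by
    have hmono : (Y + a) / d ≤ (2 * Y + a) / d := Nat.div_le_div_right (by omega)
    rw [Nat.cast_sub hmono]
    have e1 : ((((2 * Y + a) / d : ℕ)) : ℝ) ≤ (2 * Y + a : ℝ) / (d : ℝ) := by
      have := @Nat.cast_div_le ℝ _ _ _ (2 * Y + a) d
      push_cast at this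
      exact this
    have e2 : ((Y : ℝ) + a) / (d : ℝ) ≤ (((Y + a) / d : ℕ) : ℝ) + 1 := by
      rw [div_le_iff₀ hd0]
      have h4 : Y + a < ((Y + a) / d + 1) * d := by
        have := Nat.div_add_mod (Y + a) d
        have h6 := Nat.mod_lt (Y + a) hd
        nlinarith
      have h5 : ((Y + a : ℕ) : ℝ) ≤ ((((Y + a) / d + 1) * d : ℕ) : ℝ) := by exact_mod_cast h4.le
      push_cast at h5
      exact_mod_cast h5
    have e3 : (2 * Y + a : ℝ) / (d : ℝ) = (Y : ℝ) * (d : ℝ)⁻¹ + ((Y : ℝ) + a) / (d : ℝ) := by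
      rw [← div_eq_mul_inv, ← add_div]
      ring_nf
    linarith
  calc _ ≤ ((((2 * Y + a) / d - (Y + a) / d : ℕ)) : ℝ) := by exact_mod_cast hle
    _ ≤ _ := h3

private theorem gcd_pf (m : ℕ) (hm : m ≠ 0) : m.primeFactors.card ≤ Nat.log 2 m := by
  refine Nat.le_log_of_pow_le (by norm_num) ?_
  calc 2 ^ m.primeFactors.card = ∏ _p ∈ m.primeFactors, 2 := by rw [Finset.prod_const]
    _ ≤ ∏ p ∈ m.primeFactors, p := Finset.prod_le_prod' fun p hp => (Nat.prime_of_mem_primeFactors hp).two_le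
    _ ≤ m := Nat.le_of_dvd (Nat.pos_of_ne_zero hm) (Nat.prod_primeFactors_dvd m)

open Classical in
private theorem gcd_le (Y w a b : ℕ) (hw : 1 ≤ w) (hab : a < b) (hb : b ≤ Y) :
    ((((Ioc Y (2 * Y)).filter fun n => ∃ p : ℕ, p.Prime ∧ w < p ∧ p ∣ n + a ∧ p ∣ n + b).card : ℕ) : ℝ) ≤
      2 * (Nat.log 2 Y : ℕ) * ((Y : ℝ) / w) := by
  have hm : b - a ≠ 0 := by omega
  have h1 : ((Ioc Y (2 * Y)).filter fun n => ∃ p : ℕ, p.Prime ∧ w < p ∧ p ∣ n + a ∧ p ∣ n + b) ⊆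
      ((b - a).primeFactors.filter fun p => w < p).biUnion fun p => (Ioc Y (2 * Y)).filter fun n => p ∣ n + a := by
    intro n hn
    rw [mem_filter] at hn
    obtain ⟨hn, p, hp, hwp, hd1, hd2⟩ := hn
    rw [mem_biUnion]
    refine ⟨p, mem_filter.2 ⟨Nat.mem_primeFactors.2 ⟨hp, ?_, hm⟩, hwp⟩, mem_filter.2 ⟨hn, hd1⟩⟩
    have h2 : b - a = (n + b) - (n + a) := by omega
    rw [h2]
    exact Nat.dvd_sub hd2 hd1
  have h2 : ∀ p ∈ (b - a).primeFactors.filter (fun p => w < p),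
      ((((Ioc Y (2 * Y)).filter fun n => p ∣ n + a).card : ℕ) : ℝ) ≤ 2 * ((Y : ℝ) / w) := by
    intro p hp
    rw [mem_filter] at hp
    obtain ⟨hp, hwp⟩ := hp
    have hp0 : 0 < p := (Nat.prime_of_mem_primeFactors hp).pos
    have hpY : p ≤ Y := (Nat.le_of_dvd (by omega) (Nat.dvd_of_mem_primeFactors hp)).trans (by omega)
    have hpr : (0 : ℝ) < p := by exact_mod_cast hp0
    have hwr : (0 : ℝ) < w := by exact_mod_cast hw
    have h3 : (1 : ℝ) ≤ (Y : ℝ) * (p : ℝ)⁻¹ := by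
      rw [← div_eq_mul_inv, le_div_iff₀ hpr, one_mul]
      exact_mod_cast hpY
    have h4 : (Y : ℝ) * (p : ℝ)⁻¹ ≤ (Y : ℝ) / w := by
      rw [← div_eq_mul_inv]
      exact div_le_div_of_nonneg_left (Nat.cast_nonneg _) hwr (by exact_mod_cast hwp.le)
    have := gcd_cnt Y a p hp0
    linarith
  have h3 : (((b - a).primeFactors.filter fun p => w < p).card : ℝ) ≤ (Nat.log 2 Y : ℕ) := by
    have h4 := (card_filter_le (b - a).primeFactors (fun p => w < p)).trans ((gcd_pf _ hm).trans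
      (Nat.log_mono_right (show b - a ≤ Y by omega)))
    exact_mod_cast h4
  calc ((((Ioc Y (2 * Y)).filter fun n => ∃ p : ℕ, p.Prime ∧ w < p ∧ p ∣ n + a ∧ p ∣ n + b).card : ℕ) : ℝ)
      ≤ ∑ p ∈ (b - a).primeFactors.filter (fun p => w < p),
          ((((Ioc Y (2 * Y)).filter fun n => p ∣ n + a).card : ℕ) : ℝ) := by
        have := (card_le_card h1).trans card_biUnion_le
        exact_mod_cast this
    _ ≤ ∑ _p ∈ (b - a).primeFactors.filter (fun p => w < p), 2 * ((Y : ℝ) / w) := Finset.sum_le_sum h2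
    _ = (((b - a).primeFactors.filter fun p => w < p).card : ℝ) * (2 * ((Y : ℝ) / w)) := by
        rw [Finset.sum_const, nsmul_eq_mul]
    _ ≤ (Nat.log 2 Y : ℕ) * (2 * ((Y : ℝ) / w)) := mul_le_mul_of_nonneg_right h3 (by positivity)
    _ = _ := by ring

open Classical in
theorem gcdZ (Y w a b : ℕ) (hw : 1 ≤ w) (hab : a ≠ b) (ha : a ≤ Y) (hb : b ≤ Y) :
    (((Ioc Y (2 * Y)).filter fun n => ∃ p : ℕ, p.Prime ∧ w < p ∧ p ∣ n + a ∧ p ∣ n + b).card : ℝ) ≤ 2 * (Nat.log 2 Y : ℕ) * ((Y : ℝ) / w) := by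
  rcases lt_or_gt_of_ne hab with h | h
  · convert gcd_le Y w a b hw h hb
  · have h1 : ((Ioc Y (2 * Y)).filter fun n => ∃ p : ℕ, p.Prime ∧ w < p ∧ p ∣ n + a ∧ p ∣ n + b) =
        (Ioc Y (2 * Y)).filter fun n => ∃ p : ℕ, p.Prime ∧ w < p ∧ p ∣ n + b ∧ p ∣ n + a := by
      refine Finset.filter_congr fun n _ => ?_
      constructor
      · rintro ⟨p, h1, h2, h3, h4⟩; exact ⟨p, h1, h2, h4, h3⟩
      · rintro ⟨p, h1, h2, h3, h4⟩; exact ⟨p, h1, h2, h4, h3⟩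
    rw [h1]
    convert gcd_le Y w b a hw h ha

open Classical in
theorem sqZ (Y w a : ℕ) (hw : 1 ≤ w) (ha : a ≤ Y) :
    (((Ioc Y (2 * Y)).filter fun n => ∃ s : ℕ, s.Prime ∧ w < s ∧ s ^ 2 ∣ n + a).card : ℝ) ≤ (Y : ℝ) / w + 2 * Real.sqrt Y := by
  obtain ⟨V, hV⟩ : ∃ V : ℕ, V = Nat.sqrt (3 * Y) := ⟨_, rfl⟩
  have hVr : (V : ℝ) ≤ 2 * Real.sqrt Y := by
    have h1 : (V : ℝ) ≤ Real.sqrt ((3 * Y : ℕ) : ℝ) := by rw [hV]; exact Real.nat_sqrt_le_real_sqrt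
    refine h1.trans ?_
    have h2 : 2 * Real.sqrt Y = Real.sqrt (4 * Y) := by
      rw [Real.sqrt_mul (by norm_num), show (4 : ℝ) = 2 ^ 2 by norm_num, Real.sqrt_sq (by norm_num)]
    rw [h2]
    refine Real.sqrt_le_sqrt ?_
    push_cast
    nlinarith [(Nat.cast_nonneg Y : (0 : ℝ) ≤ Y)]
  have h1 : ((Ioc Y (2 * Y)).filter fun n => ∃ s : ℕ, s.Prime ∧ w < s ∧ s ^ 2 ∣ n + a) ⊆
      (Ioc w V).biUnion fun s => (Ioc Y (2 * Y)).filter fun n => s ^ 2 ∣ n + a := by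
    intro n hn
    rw [mem_filter] at hn
    obtain ⟨hn, s, hs, hws, hd⟩ := hn
    rw [mem_biUnion]
    refine ⟨s, mem_Ioc.2 ⟨hws, ?_⟩, mem_filter.2 ⟨hn, hd⟩⟩
    rw [hV, Nat.le_sqrt']
    rw [mem_Ioc] at hn
    exact (Nat.le_of_dvd (by omega) hd).trans (by omega)
  by_cases hww : w ≤ V
  · calc ((((Ioc Y (2 * Y)).filter fun n => ∃ s : ℕ, s.Prime ∧ w < s ∧ s ^ 2 ∣ n + a).card : ℕ) : ℝ)
        ≤ ∑ s ∈ Ioc w V, ((((Ioc Y (2 * Y)).filter fun n => s ^ 2 ∣ n + a).card : ℕ) : ℝ) := by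
          have := (card_le_card h1).trans card_biUnion_le
          exact_mod_cast this
      _ ≤ ∑ s ∈ Ioc w V, ((Y : ℝ) * ((s : ℝ) ^ 2)⁻¹ + 1) := by
          refine Finset.sum_le_sum fun s hs => ?_
          have hs0 : 0 < s := by rw [mem_Ioc] at hs; omega
          have := gcd_cnt Y a (s ^ 2) (by positivity)
          rw [Nat.cast_pow] at this
          exact this
      _ = (Y : ℝ) * (∑ s ∈ Ioc w V, ((s : ℝ) ^ 2)⁻¹) + ((V - w : ℕ) : ℝ) := by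
          rw [Finset.sum_add_distrib, Finset.mul_sum, Finset.sum_const, Nat.card_Ioc, nsmul_eq_mul, mul_one]
      _ ≤ (Y : ℝ) / w + 2 * Real.sqrt Y := by
          have h3 : ∑ s ∈ Ioc w V, ((s : ℝ) ^ 2)⁻¹ ≤ (w : ℝ)⁻¹ - (V : ℝ)⁻¹ :=
            sum_Ioc_inv_sq_le_sub (by omega) hww
          have h4 : (0 : ℝ) ≤ (V : ℝ)⁻¹ := by positivity
          have h5 : (Y : ℝ) * (∑ s ∈ Ioc w V, ((s : ℝ) ^ 2)⁻¹) ≤ Y * (w : ℝ)⁻¹ :=
            mul_le_mul_of_nonneg_left (by linarith) (Nat.cast_nonneg _)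
          have h6 : ((V - w : ℕ) : ℝ) ≤ V := by exact_mod_cast Nat.sub_le _ _
          rw [div_eq_mul_inv]
          linarith
  · have h3 : ((Ioc Y (2 * Y)).filter fun n => ∃ s : ℕ, s.Prime ∧ w < s ∧ s ^ 2 ∣ n + a) = ∅ := by
      rw [Finset.eq_empty_iff_forall_notMem]
      intro n hn
      have h4 := h1 hn
      rw [mem_biUnion] at h4
      obtain ⟨s, hs, -⟩ := h4
      rw [mem_Ioc] at hs
      omega
    rw [h3, card_empty, Nat.cast_zero]
    positivity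

end Pool.Agent.Lib.T8
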