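import Pool.Agent.Lib.T8.Sp
import Pool.Agent.Lib.T8.Gcd
import Pool.Agent.Lib.VK.XSp

/-!
# T8, row Cov: the tuples which are not typical, a finite covering (compare the first half of VK/YRest.lean)

Vectors `g ∈ VF`: `g_i = 1` for `κ_i = 1`, `g_i ∈ QF (κ_i - 1) (S i) (z^κ_i)` for `κ_i ≠ 1`; `VE i0`: in addition `g_i0 ∈ QE (κ_i0 - 1) U (S i0) (z^κ_i0)`.

PROOF IN WORDS. `cntE ≤ cntT` by `EL_len`. Let `n` be counted by `cntT`, not by `cntE`, `N_i = n + h_i`; `z^κ_i ≤ Y < N_i`. For an `i0` with `κ_i0 ≠ 1` `EL (κ_i0) U (S i0) N_i0` is false. `g_i = smo z N_i` (`κ_i = 1`: `N_i` is a prime `> z`, so `g_i = 1`; `κ_i ≠ 1`: `spZ`).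
Case 1: `s^2 ∣ N_i0` for a prime `s > w`: `sqZ`. Case 2: a prime divides `g_i` and `g_j`, `i ≠ j`; it is `> w` (it is a prime factor of `N_i`, `≥` its least prime factor, which is in `S i`, so `> w`; `κ_i = 1`: `g_i = 1`) and divides `N_i`, `N_j`: `gcdZ` for the pair
(at most `m^2` pairs). Case 3: the `g_i` are pairwise coprime, `g ∈ VE i0`, and `n` is in the set of the last sum: `g_i ∣ N_i`, for the primes `p ≤ z`: `p ∤ n` (`n > Y ≥ z` prime), `p ∣ N_i → p ∣ g_i` (`smo_spec`).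
-/

set_option autoImplicit false

open Finset Filter

namespace Pool.Agent.Lib.T8

open Pool.Agent.Lib.VKT (smo)
open Pool.Agent.Lib.G8 (di EL)

/-- the vectors of the parts at the primes `≤ z` -/
def VF {m : ℕ} (z : ℕ) (κ : Fin m → ℕ) (S : Fin m → Finset ℕ) : Finset (Fin m → ℕ) :=
  Fintype.piFinset fun i => if κ i = 1 then {1} else QF (κ i - 1) (S i) (z ^ κ i)

open Classical in
/-- the exceptional vectors at `i0` -/
noncomputable def VE {m : ℕ} (z U : ℕ) (κ : Fin m → ℕ) (S : Fin m → Finset ℕ) (i0 : Fin m) : Finset (Fin m → ℕ) :=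
  (VF z κ S).filter fun g => κ i0 ≠ 1 ∧ g i0 ∈ QE (κ i0 - 1) U (S i0) (z ^ κ i0) ∧ ∀ i j, i ≠ j → Nat.Coprime (g i) (g j)

private theorem cov_one {z N : ℕ} (hz : z < N) (hN : N.Prime) : smo z N = 1 := by
  obtain ⟨h1, h2, h3, h4⟩ := Pool.Agent.Lib.VKT.smo_spec z N (by omega)
  by_contra h
  obtain ⟨p, hp, hpd⟩ := Nat.exists_prime_and_dvd h
  have h5 := h3 p (Nat.mem_primeFactors.2 ⟨hp, hpd, by omega⟩)
  have h6 := (Nat.prime_dvd_prime_iff_eq hp hN).1 (hpd.trans h1)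
  omega

open Classical in
private theorem cov_sub {m : ℕ} (κ : Fin m → ℕ) (hκ : ∀ i, 1 ≤ κ i) (Y U w z : ℕ) (S : Fin m → Finset ℕ)
    (hS : ∀ i, κ i ≠ 1 → ∀ q ∈ S i, q.Prime ∧ w < q ∧ 2 * q ≤ U) (hU : U ≤ z) (hzY : ∀ i, z ^ κ i ≤ Y) (hzY1 : z ≤ Y)
    (h : Fin m → ℕ) :
    ((Ioc Y (2 * Y)).filter fun n => n.Prime ∧ ∀ i, if κ i = 1 then (n + h i).Prime else
      (n + h i).primeFactorsList.length = κ i ∧ (n + h i).minFac ∈ S i) ⊆
    ((((Ioc Y (2 * Y)).filter fun n => n.Prime ∧ ∀ i, if κ i = 1 then (n + h i).Prime else EL (κ i) U (S i) (n + h i)) ∪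
      (Finset.univ : Finset (Fin m)).biUnion fun i0 => (Ioc Y (2 * Y)).filter fun n => ∃ s : ℕ, s.Prime ∧ w < s ∧ s ^ 2 ∣ n + h i0) ∪
      (Finset.univ : Finset (Fin m × Fin m)).biUnion fun ij => (Ioc Y (2 * Y)).filter fun n => ij.1 ≠ ij.2 ∧
        ∃ p : ℕ, p.Prime ∧ w < p ∧ p ∣ n + h ij.1 ∧ p ∣ n + h ij.2) ∪
      (Finset.univ : Finset (Fin m)).biUnion fun i0 => (VE z U κ S i0).biUnion fun g => (Ioc Y (2 * Y)).filter fun n =>
        (∀ i, g i ∣ n + h i) ∧ ∀ p : ℕ, p.Prime → p ≤ z → ¬ p ∣ n ∧ ∀ i, p ∣ n + h i → p ∣ g i := by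
  intro n hn
  rw [mem_filter] at hn
  obtain ⟨hn1, hnp, hlen⟩ := hn
  have hn2 := mem_Ioc.mp hn1
  rw [mem_union, mem_union, mem_union]
  by_cases hE : ∀ i, if κ i = 1 then (n + h i).Prime else EL (κ i) U (S i) (n + h i)
  · left; left; left
    exact mem_filter.mpr ⟨hn1, hnp, hE⟩
  push Not at hE
  obtain ⟨i0, hi0⟩ := hE
  have hk0 : κ i0 ≠ 1 := by
    intro h1
    have h2 := hlen i0
    rw [if_pos h1] at h2 hi0
    exact hi0 h2
  rw [if_neg hk0] at hi0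
  have hsp : ∀ i, smo z (n + h i) ∣ n + h i ∧ 1 ≤ smo z (n + h i) ∧
      (∀ p ∈ (smo z (n + h i)).primeFactors, p ≤ z) ∧
      ∀ p : ℕ, p.Prime → p ≤ z → p ∣ n + h i → p ∣ smo z (n + h i) := fun i =>
    Pool.Agent.Lib.VKT.smo_spec z (n + h i) (by omega)
  have hgt : ∀ i, z ^ κ i < n + h i := fun i => by
    have := hzY i
    omega
  have hspZ : ∀ i, κ i ≠ 1 → smo z (n + h i) ∈ QF (κ i - 1) (S i) (z ^ κ i) ∧
      (¬ EL (κ i) U (S i) (n + h i) → (∃ s : ℕ, s.Prime ∧ w < s ∧ s ^ 2 ∣ n + h i) ∨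
        smo z (n + h i) ∈ QE (κ i - 1) U (S i) (z ^ κ i)) := by
    intro i hi
    have h1 := hlen i
    rw [if_neg hi] at h1
    exact spZ (by have := hκ i; omega) (hS i hi) hU (hgt i) h1.1 h1.2
  rcases (hspZ i0 hk0).2 hi0 with hsq | hQE
  · left; left; right
    rw [mem_biUnion]
    exact ⟨i0, mem_univ _, mem_filter.mpr ⟨hn1, hsq⟩⟩
  by_cases hcop : ∀ i j, i ≠ j → Nat.Coprime (smo z (n + h i)) (smo z (n + h j))
  · right
    rw [mem_biUnion]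
    refine ⟨i0, mem_univ _, ?_⟩
    rw [mem_biUnion]
    refine ⟨fun i => smo z (n + h i), ?_, ?_⟩
    · unfold VE VF
      rw [mem_filter, Fintype.mem_piFinset]
      refine ⟨fun i => ?_, hk0, hQE, hcop⟩
      by_cases hi : κ i = 1
      · rw [if_pos hi, mem_singleton]
        have h1 := hlen i
        rw [if_pos hi] at h1
        exact cov_one (by omega) h1
      · rw [if_neg hi]
        exact (hspZ i hi).1
    · rw [mem_filter]
      refine ⟨hn1, fun i => (hsp i).1, fun p hp hpw => ⟨fun hpn => ?_, fun i hpi => (hsp i).2.2.2 p hp hpw hpi⟩⟩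
      have := (Nat.prime_dvd_prime_iff_eq hp hnp).mp hpn
      omega
  · left; right
    push Not at hcop
    obtain ⟨i, j, hij, hc⟩ := hcop
    obtain ⟨p, hp, hpi, hpj⟩ := Nat.Prime.not_coprime_iff_dvd.1 hc
    rw [mem_biUnion]
    refine ⟨(i, j), mem_univ _, mem_filter.mpr ⟨hn1, hij, p, hp, ?_, hpi.trans (hsp i).1, hpj.trans (hsp j).1⟩⟩
    have h1 := hlen i
    by_cases hi : κ i = 1
    · rw [if_pos hi] at h1
      rw [cov_one (by omega) h1] at hpi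
      exact absurd (Nat.dvd_one.1 hpi) hp.one_lt.ne'
    · rw [if_neg hi] at h1
      have h2 := (hS i hi _ h1.2).2.1
      have h3 := Nat.minFac_le_of_dvd hp.two_le (hpi.trans (hsp i).1)
      omega

open Classical in
theorem covZ {m : ℕ} (κ : Fin m → ℕ) (hκ : ∀ i, 1 ≤ κ i) (Y U w z : ℕ) (S : Fin m → Finset ℕ) (hw : 1 ≤ w)
    (hS : ∀ i, κ i ≠ 1 → ∀ q ∈ S i, q.Prime ∧ w < q ∧ 2 * q ≤ U) (hU : U ≤ z) (hz : 1 ≤ z) (hzY : ∀ i, z ^ κ i ≤ Y) (hzY1 : z ≤ Y)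
    (h : Fin m → ℕ) (hinj : Function.Injective h) (hh : ∀ i, h i ≤ Y) :
    (cntE Y U κ S h : ℝ) ≤ cntT Y κ S h ∧
    (cntT Y κ S h : ℝ) ≤ cntE Y U κ S h + (m : ℝ) * ((Y : ℝ) / w + 2 * Real.sqrt Y) + (m : ℝ) ^ 2 * (2 * (Nat.log 2 Y : ℕ) * ((Y : ℝ) / w)) +
      ∑ i0, ∑ g ∈ VE z U κ S i0, (((Ioc Y (2 * Y)).filter fun n => (∀ i, g i ∣ n + h i) ∧
        ∀ p : ℕ, p.Prime → p ≤ z → ¬ p ∣ n ∧ ∀ i, p ∣ n + h i → p ∣ g i).card : ℝ) := by
  constructor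
  · unfold cntE cntT
    refine Nat.cast_le.2 (card_le_card fun n hn => ?_)
    rw [mem_filter] at hn ⊢
    refine ⟨hn.1, hn.2.1, fun i => ?_⟩
    have h1 := hn.2.2 i
    by_cases hi : κ i = 1
    · rw [if_pos hi] at h1 ⊢
      exact h1
    · rw [if_neg hi] at h1 ⊢
      exact EL_len (fun q hq => (hS i hi q hq).1) h1
  · have h1 := card_le_card (cov_sub κ hκ Y U w z S hS hU hzY hzY1 h)
    have h2 := h1.trans ((card_union_le _ _).trans (Nat.add_le_add_right ((card_union_le _ _).trans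
      (Nat.add_le_add_right (card_union_le _ _) _)) _))
    have h3 : (cntT Y κ S h : ℝ) ≤ (cntE Y U κ S h : ℝ) +
        (((Finset.univ : Finset (Fin m)).biUnion fun i0 => (Ioc Y (2 * Y)).filter fun n =>
          ∃ s : ℕ, s.Prime ∧ w < s ∧ s ^ 2 ∣ n + h i0).card : ℝ) +
        (((Finset.univ : Finset (Fin m × Fin m)).biUnion fun ij => (Ioc Y (2 * Y)).filter fun n => ij.1 ≠ ij.2 ∧
          ∃ p : ℕ, p.Prime ∧ w < p ∧ p ∣ n + h ij.1 ∧ p ∣ n + h ij.2).card : ℝ) +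
        (((Finset.univ : Finset (Fin m)).biUnion fun i0 => (VE z U κ S i0).biUnion fun g => (Ioc Y (2 * Y)).filter fun n =>
          (∀ i, g i ∣ n + h i) ∧ ∀ p : ℕ, p.Prime → p ≤ z → ¬ p ∣ n ∧ ∀ i, p ∣ n + h i → p ∣ g i).card : ℝ) := by
      unfold cntT cntE
      exact_mod_cast h2
    have h4 : (((Finset.univ : Finset (Fin m)).biUnion fun i0 => (Ioc Y (2 * Y)).filter fun n =>
          ∃ s : ℕ, s.Prime ∧ w < s ∧ s ^ 2 ∣ n + h i0).card : ℝ) ≤ (m : ℝ) * ((Y : ℝ) / w + 2 * Real.sqrt Y) := by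
      refine (Nat.cast_le.2 card_biUnion_le).trans ?_
      rw [Nat.cast_sum]
      refine (sum_le_sum fun i0 _ => sqZ Y w (h i0) hw (hh i0)).trans (le_of_eq ?_)
      rw [sum_const, card_univ, Fintype.card_fin, nsmul_eq_mul]
    have h5 : (((Finset.univ : Finset (Fin m × Fin m)).biUnion fun ij => (Ioc Y (2 * Y)).filter fun n => ij.1 ≠ ij.2 ∧
          ∃ p : ℕ, p.Prime ∧ w < p ∧ p ∣ n + h ij.1 ∧ p ∣ n + h ij.2).card : ℝ) ≤
          (m : ℝ) ^ 2 * (2 * (Nat.log 2 Y : ℕ) * ((Y : ℝ) / w)) := by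
      refine (Nat.cast_le.2 card_biUnion_le).trans ?_
      rw [Nat.cast_sum]
      have h6 : ∀ ij ∈ (Finset.univ : Finset (Fin m × Fin m)), (((Ioc Y (2 * Y)).filter fun n => ij.1 ≠ ij.2 ∧
          ∃ p : ℕ, p.Prime ∧ w < p ∧ p ∣ n + h ij.1 ∧ p ∣ n + h ij.2).card : ℝ) ≤ 2 * (Nat.log 2 Y : ℕ) * ((Y : ℝ) / w) := by
        intro ij _
        by_cases hij : ij.1 = ij.2
        · have e : ((Ioc Y (2 * Y)).filter fun n => ij.1 ≠ ij.2 ∧
              ∃ p : ℕ, p.Prime ∧ w < p ∧ p ∣ n + h ij.1 ∧ p ∣ n + h ij.2) = ∅ :=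
            filter_eq_empty_iff.2 fun n _ h7 => h7.1 hij
          rw [e, card_empty, Nat.cast_zero]
          positivity
        · refine le_trans (Nat.cast_le.2 (card_le_card fun n hn => ?_)) (gcdZ Y w (h ij.1) (h ij.2) hw (fun h7 => hij (hinj h7)) (hh _) (hh _))
          rw [mem_filter] at hn ⊢
          exact ⟨hn.1, hn.2.2⟩
      refine (sum_le_sum h6).trans (le_of_eq ?_)
      rw [sum_const, card_univ, Fintype.card_prod, Fintype.card_fin, nsmul_eq_mul]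
      push_cast
      ring
    have h6 : (((Finset.univ : Finset (Fin m)).biUnion fun i0 => (VE z U κ S i0).biUnion fun g => (Ioc Y (2 * Y)).filter fun n =>
          (∀ i, g i ∣ n + h i) ∧ ∀ p : ℕ, p.Prime → p ≤ z → ¬ p ∣ n ∧ ∀ i, p ∣ n + h i → p ∣ g i).card : ℝ) ≤
        ∑ i0, ∑ g ∈ VE z U κ S i0, (((Ioc Y (2 * Y)).filter fun n => (∀ i, g i ∣ n + h i) ∧
          ∀ p : ℕ, p.Prime → p ≤ z → ¬ p ∣ n ∧ ∀ i, p ∣ n + h i → p ∣ g i).card : ℝ) := by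
      refine (Nat.cast_le.2 card_biUnion_le).trans ?_
      rw [Nat.cast_sum]
      refine sum_le_sum fun i0 _ => ?_
      refine (Nat.cast_le.2 card_biUnion_le).trans ?_
      rw [Nat.cast_sum]
    linarith

end Pool.Agent.Lib.T8
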