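import Pool.Agent.Lib.T8.Def
import Pool.Agent.Lib.G5.Q2
import Pool.Agent.Lib.Sieve.Mertens

/-!
# T8, row Esy: the mass of a member (compare VK/WEsy.lean, `sgK2_le`)

PROOF IN WORDS. `sL k U S = ∑_{q ∈ S} 1/q · esy (k-2) (2^(di q + 1)) U` (G8/LDefs). All `q ∈ S` are primes `≤ w' ≤ U ≤ 4Y` (`2 w' ≤ U`, `U^M ≤ 4Y`, `1 ≤ M`; if `U = 0` then `S` is empty).
`esy j w U ≤ (sg1 w U)^j` and `sg1 w U ≤ ∑_{p ≤ 4Y} 1/p`; so `sL ≤ (1 + ∑_{p ≤ 4Y} 1/p)^K ≤ (log log 4Y + C)^K ≤ log Y` for large `Y` (copy the lemmas of WEsy.lean).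
-/

set_option autoImplicit false

open Finset Filter

namespace Pool.Agent.Lib.T8

open Pool.Agent.Lib.G8 (di SL aL IL bL sL EL RgL)
open Pool.Agent.Lib.G5 (PP sg1 esy)

private theorem tesy_mem {w w' p : ℕ} (h : p ∈ PP w w') : w < p ∧ p ≤ w' ∧ p.Prime := by
  unfold PP at h
  rw [mem_filter, mem_Ioc] at h
  exact ⟨h.1.1, h.1.2, h.2⟩

private theorem tesy_sg1_nonneg (w w' : ℕ) : 0 ≤ sg1 w w' := sum_nonneg fun p _ => by positivity

private theorem tesy_nonneg (j w w' : ℕ) : 0 ≤ esy j w w' :=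
  sum_nonneg fun s _ => prod_nonneg fun p _ => by positivity

private theorem tesy_le_pow {w w' : ℕ} (hw : 1 ≤ w) (j : ℕ) : esy j w w' ≤ sg1 w w' ^ j := by
  induction j with
  | zero => simp [esy]
  | succ j ih =>
    have h := (G5.q2a j w w' hw).1
    have h0 := tesy_nonneg (j + 1) w w'
    have h3 : esy (j + 1) w w' ≤ (j + 1) * esy (j + 1) w w' := by
      have : (0 : ℝ) ≤ j := Nat.cast_nonneg j
      nlinarith
    calc esy (j + 1) w w' ≤ sg1 w w' * esy j w w' := by linarith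
      _ ≤ sg1 w w' * sg1 w w' ^ j := mul_le_mul_of_nonneg_left ih (tesy_sg1_nonneg w w')
      _ = sg1 w w' ^ (j + 1) := by ring

private theorem tesy_sum_le {C : ℝ} (hC : ∀ z : ℕ, 2 ≤ z →
    ∏ p ∈ (Finset.Icc 1 z).filter Nat.Prime, (1 - (1 : ℝ) / p)⁻¹ ≤ C * Real.log z)
    (w' : ℕ) (hw' : 2 ≤ w') : ∑ p ∈ (Finset.Icc 1 w').filter Nat.Prime, (1 : ℝ) / p ≤ Real.log (C * Real.log w') := by
  have hfac : ∀ p : ℕ, p.Prime → (0 : ℝ) < 1 - 1 / (p : ℝ) := by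
    intro p hp
    have h2 : (2 : ℝ) ≤ p := by exact_mod_cast hp.two_le
    have h1 : 1 / (p : ℝ) ≤ 1 / 2 := one_div_le_one_div_of_le (by norm_num) h2
    linarith
  have h2 : ∑ p ∈ (Finset.Icc 1 w').filter Nat.Prime, (1 : ℝ) / p ≤
      ∑ p ∈ (Finset.Icc 1 w').filter Nat.Prime, Real.log (1 - (1 : ℝ) / p)⁻¹ := by
    refine sum_le_sum fun p hp => ?_
    have hp' := (mem_filter.mp hp).2
    have h3 := Real.log_le_sub_one_of_pos (hfac p hp')
    rw [Real.log_inv]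
    linarith
  have h3 : ∑ p ∈ (Finset.Icc 1 w').filter Nat.Prime, Real.log (1 - (1 : ℝ) / p)⁻¹ =
      Real.log (∏ p ∈ (Finset.Icc 1 w').filter Nat.Prime, (1 - (1 : ℝ) / p)⁻¹) := by
    rw [Real.log_prod]
    intro p hp
    exact (inv_pos.mpr (hfac p (mem_filter.mp hp).2)).ne'
  have h4 : (0 : ℝ) < ∏ p ∈ (Finset.Icc 1 w').filter Nat.Prime, (1 - (1 : ℝ) / p)⁻¹ :=
    prod_pos fun p hp => inv_pos.mpr (hfac p (mem_filter.mp hp).2)
  calc ∑ p ∈ (Finset.Icc 1 w').filter Nat.Prime, (1 : ℝ) / p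
      ≤ Real.log (∏ p ∈ (Finset.Icc 1 w').filter Nat.Prime, (1 - (1 : ℝ) / p)⁻¹) := by
        rw [← h3]; exact h2
    _ ≤ Real.log (C * Real.log w') := Real.log_le_log h4 (hC w' hw')

private theorem tesy_big (K d : ℕ) : ∃ x1 : ℝ, 4 ≤ x1 ∧ ∀ x : ℝ, x1 ≤ x → (1 + d * Real.log x) ^ K ≤ x / 2 := by
  have h1 := Real.isLittleO_pow_log_id_atTop (n := K)
  have hc : (0 : ℝ) < 1 / (2 * ((d : ℝ) + 1) ^ K) := by positivity
  have h2 := h1.def hc
  obtain ⟨x1, hx1⟩ := Filter.eventually_atTop.1 h2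
  refine ⟨max 4 x1, le_max_left _ _, fun x hx => ?_⟩
  have hx4 : (4 : ℝ) ≤ x := (le_max_left _ _).trans hx
  have h3 := hx1 x ((le_max_right _ _).trans hx)
  have hl : 1 ≤ Real.log x := by
    rw [Real.le_log_iff_exp_le (by linarith)]
    exact (Real.exp_one_lt_d9.le.trans (by norm_num)).trans hx4
  rw [Real.norm_of_nonneg (by positivity), id, Real.norm_of_nonneg (by linarith)] at h3
  have hd : (0 : ℝ) ≤ d := Nat.cast_nonneg d
  calc (1 + d * Real.log x) ^ K ≤ (((d : ℝ) + 1) * Real.log x) ^ K := by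
        refine pow_le_pow_left₀ (by positivity) ?_ K
        nlinarith
    _ = ((d : ℝ) + 1) ^ K * Real.log x ^ K := mul_pow _ _ _
    _ ≤ ((d : ℝ) + 1) ^ K * (1 / (2 * ((d : ℝ) + 1) ^ K) * x) := mul_le_mul_of_nonneg_left h3 (by positivity)
    _ = x / 2 := by
        field_simp

theorem sL_le (K c1 : ℕ) : ∃ x0 : ℝ, ∀ Y : ℕ, x0 ≤ Y → ∀ (U w' M : ℕ) (S : Finset ℕ), 1 ≤ M → RgL (4 * Y) U w' c1 M S → ∀ k : ℕ, 2 ≤ k → k ≤ K →
    0 ≤ sL k U S ∧ sL k U S ≤ Real.log Y := by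
  obtain ⟨C, hC0, hC⟩ := Pool.Agent.Lib.Sieve.mertens_product_upper
  obtain ⟨d, hd⟩ : ∃ d : ℕ, |Real.log C| + 1 ≤ d := exists_nat_ge _
  obtain ⟨x1, hx14, hx1⟩ := tesy_big K d
  refine ⟨Real.exp x1, fun Y hY U w' M S hM hR k hk hkK => ?_⟩
  have hYpos : (0 : ℝ) < Y := (Real.exp_pos _).trans_le hY
  have hlY : x1 ≤ Real.log Y := (Real.le_log_iff_exp_le hYpos).2 hY
  have h4Y : ((4 * Y : ℕ) : ℝ) = 4 * (Y : ℝ) := by push_cast; ring
  have hl4 : Real.log ((4 * Y : ℕ) : ℝ) = Real.log 4 + Real.log Y := by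
    rw [h4Y, Real.log_mul (by norm_num) hYpos.ne']
  have hlog4 : Real.log 4 ≤ 4 := (Real.log_le_sub_one_of_pos (by norm_num)).trans (by norm_num)
  have hlog40 : 0 ≤ Real.log 4 := Real.log_nonneg (by norm_num)
  set L : ℝ := Real.log ((4 * Y : ℕ) : ℝ) with hL
  have hLx : x1 ≤ L := by rw [hl4]; linarith
  have hL2 : L / 2 ≤ Real.log Y := by rw [hl4]; linarith
  have hL4 : 4 ≤ L := hx14.trans hLx
  have hnn : 0 ≤ sL k U S := by
    unfold sL
    exact sum_nonneg fun q _ => mul_nonneg (by positivity) (tesy_nonneg _ _ _)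
  refine ⟨hnn, ?_⟩
  rcases S.eq_empty_or_nonempty with hSe | ⟨q0, hq0⟩
  · subst hSe
    unfold sL
    rw [sum_empty]
    linarith
  have hU2 : 2 ≤ U := by
    have h1 := (hR.hS q0 hq0).1.two_le
    have h2 := (hR.hS q0 hq0).2.2
    have h3 := hR.h2
    omega
  have hU : (2 : ℝ) ≤ U := by exact_mod_cast hU2
  have hU4 : U ≤ 4 * Y := le_trans (Nat.le_self_pow (by omega) U) hR.h3
  have hlw : Real.log U ≤ L := by
    rw [hL]
    exact Real.log_le_log (by linarith) (by exact_mod_cast hU4)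
  have hlw0 : 0 < Real.log U := Real.log_pos (by linarith)
  have hlL : 1 ≤ Real.log L := by
    rw [Real.le_log_iff_exp_le (by linarith)]
    exact (Real.exp_one_lt_d9.le.trans (by norm_num)).trans hL4
  obtain ⟨P, hP⟩ : ∃ P, P = ∑ p ∈ (Finset.Icc 1 U).filter Nat.Prime, (1 : ℝ) / p := ⟨_, rfl⟩
  have hP0 : 0 ≤ P := by rw [hP]; exact sum_nonneg fun p _ => by positivity
  have hPL : P ≤ 1 + d * Real.log L := by
    have h1 := tesy_sum_le hC U hU2
    rw [← hP] at h1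
    have h2 : Real.log (C * Real.log U) ≤ Real.log (C * L) :=
      Real.log_le_log (mul_pos hC0 hlw0) (mul_le_mul_of_nonneg_left hlw hC0.le)
    have h2' : Real.log (C * L) = Real.log C + Real.log L :=
      Real.log_mul hC0.ne' (by linarith)
    have h3 := le_abs_self (Real.log C)
    have h4 : (|Real.log C| + 1) * Real.log L ≤ d * Real.log L :=
      mul_le_mul_of_nonneg_right hd (by linarith)
    have h5 : |Real.log C| ≤ |Real.log C| * Real.log L :=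
      le_mul_of_one_le_right (abs_nonneg _) hlL
    linarith
  have hsg : ∀ w : ℕ, sg1 w U ≤ P := by
    intro w
    rw [hP]
    unfold sg1
    refine sum_le_sum_of_subset_of_nonneg ?_ fun _ _ _ => by positivity
    intro p hp
    have := tesy_mem hp
    rw [mem_filter, mem_Icc]
    exact ⟨⟨this.2.2.one_le, this.2.1⟩, this.2.2⟩
  have hSP : ∑ q ∈ S, 1 / (q : ℝ) ≤ P := by
    rw [hP]
    refine sum_le_sum_of_subset_of_nonneg ?_ fun _ _ _ => by positivity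
    intro q hq
    have h1 := hR.hS q hq
    have h2 := hR.h2
    rw [mem_filter, mem_Icc]
    exact ⟨⟨h1.1.one_le, by omega⟩, h1.1⟩
  have hdl : 0 ≤ (d : ℝ) * Real.log L := mul_nonneg (Nat.cast_nonneg _) (by linarith)
  calc sL k U S ≤ ∑ q ∈ S, 1 / (q : ℝ) * P ^ (k - 2) := by
        unfold sL
        refine sum_le_sum fun q _ => mul_le_mul_of_nonneg_left ?_ (by positivity)
        exact (tesy_le_pow Nat.one_le_two_pow (k - 2)).trans
          (pow_le_pow_left₀ (tesy_sg1_nonneg _ _) (hsg _) _)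
    _ = (∑ q ∈ S, 1 / (q : ℝ)) * P ^ (k - 2) := by rw [sum_mul]
    _ ≤ P * P ^ (k - 2) := mul_le_mul_of_nonneg_right hSP (pow_nonneg hP0 _)
    _ = P ^ (k - 1) := by
        rw [← pow_succ']
        congr 1
        omega
    _ ≤ (1 + d * Real.log L) ^ (k - 1) := pow_le_pow_left₀ hP0 hPL _
    _ ≤ (1 + d * Real.log L) ^ K := pow_le_pow_right₀ (by linarith) (by omega)
    _ ≤ L / 2 := hx1 L hLx
    _ ≤ Real.log Y := hL2

end Pool.Agent.Lib.T8
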