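import Pool.Agent.Lib.T8.Bd
import Pool.Agent.Lib.T8.Pt
import Pool.Agent.Lib.G8.L4

/-!
# T8, row Unw: the number of the typical tuples and the weighted count (simpler than VK/WUnw.lean: no squares)

PROOF IN WORDS. `n ∈ (Y, 2Y]`, `h_i ≤ Y`, so `N = n + h_i ∈ (Y, 3Y]`. Member with `κ_i = 1`: `0 ≤ lp N/log 32Y ≤ 1`, `= 0` if `N` is not prime, `≥ log Y/log 32Y ≥ 1 - δ` if `N` is prime. Member with `κ_i ≠ 1`, `k = κ_i`: by `FZ_le` `0 ≤ FZ ≤ 1`;
`FZ N ≠ 0 → EL k U S N` (some `bL k U S b N ≠ 0` with `b ∈ IL (4Y) 3 k U S`, all `bL ≥ 0`, so the sum over `IL (4Y)` is `≠ 0`: `l4 k 3 c1` at `4Y`); and `EL k U S N → FZ N ≥ 1 - δ`: `l4` gives `∑_{b ∈ IL (4Y)} bL ≥ 1 - 2/log 4Y`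
(`8 · 4Y/(log 4Y)^3 ≤ Y < N ≤ 4Y`); the blocks with `bL k U S b N ≠ 0` have `N ≤ 8 · 2^(i+j+g)`, so they are in `IZ`, and `2·2^g ≥ N/(4 · 2^(i+j)) ≥ Y/(4 U^(k-1))`, so `log (2·2^g)/log 32Y ≥ 1 - (log 128 + k log U)/log 32Y ≥ 1 - δ/2`
as `log U ≤ (log 4Y)/M` and `M ≥ 4 K/δ` (compare `wunw_log`, `wunw_pt`). `δ = min ε 1/(2(m+2))`: every term of `wcA` is between `(1 - δ)^m lp n` and `lp n` if `n` is counted by `cntE`, and `0` otherwise;
`log Y ≤ lp n ≤ log 2Y ≤ (1+ε) log Y` for the primes `n` of `(Y, 2Y]`, `(1 - δ)^m ≥ 1 - m δ ≥ 1 - ε`. `M = max (1000 K) ⌈4K/δ⌉`, `K = ∑ κ_i + 2`.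
-/

set_option autoImplicit false

open Finset Filter

namespace Pool.Agent.Lib.T8

open Pool.Agent.Lib.G3 (lp)
open Pool.Agent.Lib.G8 (di SL aL IL bL sL EL RgL)

/-- the members which are primes -/
private theorem unwz_one (η : ℝ) (hη : 0 < η) : ∃ x0 : ℝ, ∀ Y : ℕ, x0 ≤ Y → ∀ n : ℕ, Y < n → n ≤ 3 * Y →
    (0 ≤ (if n ≤ 32 * Y then lp n / Real.log (32 * Y : ℕ) else 0) ∧ (if n ≤ 32 * Y then lp n / Real.log (32 * Y : ℕ) else 0) ≤ 1) ∧
      (n.Prime → 1 - η ≤ (if n ≤ 32 * Y then lp n / Real.log (32 * Y : ℕ) else 0)) ∧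
      ((if n ≤ 32 * Y then lp n / Real.log (32 * Y : ℕ) else 0) ≠ 0 → n.Prime) := by
  refine ⟨max (Real.exp (18 / η)) (Real.exp 1296), fun Y hY n hn1 hn3 => ?_⟩
  have hY3 : Real.exp (18 / η) ≤ Y := (le_max_left _ _).trans hY
  have hY4 : Real.exp 1296 ≤ Y := (le_max_right _ _).trans hY
  have hYpos : (0 : ℝ) < Y := lt_of_lt_of_le (Real.exp_pos _) hY4
  set L : ℝ := Real.log Y with hLdef
  have hL : (1296 : ℝ) ≤ L := by
    rw [hLdef, Real.le_log_iff_exp_le hYpos]; exact hY4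
  have hLη : 18 / η ≤ L := by
    rw [hLdef, Real.le_log_iff_exp_le hYpos]; exact hY3
  have hLpos : (0 : ℝ) < L := by linarith
  have h9 : 9 / L ≤ η / 2 := by
    rw [div_le_iff₀ hη] at hLη
    rw [div_le_iff₀ hLpos]
    linarith
  have hlog32 : Real.log 32 ≤ 5 := by
    have : Real.log 32 = 5 * Real.log 2 := by
      rw [show (32 : ℝ) = 2 ^ 5 by norm_num, Real.log_pow]; norm_num
    rw [this]
    have := Real.log_two_lt_d9
    linarith
  have hX : Real.log ((32 * Y : ℕ) : ℝ) = Real.log 32 + L := by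
    rw [Nat.cast_mul, Real.log_mul (by norm_num) hYpos.ne']
    norm_num
    rfl
  have hlog32' : 0 ≤ Real.log 32 := Real.log_nonneg (by norm_num)
  have hXpos : 0 < Real.log ((32 * Y : ℕ) : ℝ) := by rw [hX]; linarith
  have hX5 : Real.log ((32 * Y : ℕ) : ℝ) ≤ L + 5 := by rw [hX]; linarith
  have hnX : n ≤ 32 * Y := by omega
  have hnpos : (0 : ℝ) < (n : ℝ) := by
    have : 0 < n := by omega
    exact_mod_cast this
  have hlogn : Real.log (n : ℝ) ≤ Real.log ((32 * Y : ℕ) : ℝ) :=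
    Real.log_le_log hnpos (by exact_mod_cast hnX)
  rw [if_pos hnX]
  by_cases hp : n.Prime
  · have hlp : lp n = Real.log n := by unfold Pool.Agent.Lib.G3.lp; rw [if_pos hp]
    rw [hlp]
    have h3 : L ≤ Real.log (n : ℝ) := Real.log_le_log hYpos (by exact_mod_cast hn1.le)
    refine ⟨⟨div_nonneg (by linarith) hXpos.le, ?_⟩, fun _ => ?_, fun _ => hp⟩
    · rw [div_le_one hXpos]; exact hlogn
    · rw [le_div_iff₀ hXpos]
      by_cases hD1 : η ≤ 1
      · have h4 : (1 - η) * Real.log ((32 * Y : ℕ) : ℝ) ≤ (1 - η) * (L + 5) :=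
          mul_le_mul_of_nonneg_left hX5 (by linarith)
        have h5 : (1 - η) * (L + 5) = L + 5 - η * L - 5 * η := by ring
        have h6 : 9 ≤ η / 2 * L := by rwa [div_le_iff₀ hLpos] at h9
        linarith
      · have h4 : (1 - η) * Real.log ((32 * Y : ℕ) : ℝ) ≤ 0 :=
          mul_nonpos_of_nonpos_of_nonneg (by linarith) hXpos.le
        linarith
  · have hlp : lp n = 0 := by unfold Pool.Agent.Lib.G3.lp; rw [if_neg hp]
    rw [hlp, zero_div]
    exact ⟨⟨le_rfl, zero_le_one⟩, fun h => absurd h hp, fun h => absurd rfl h⟩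

/-- both kinds of members -/
private theorem unwz_mem (K c1 : ℕ) (η : ℝ) (hη : 0 < η) : ∃ (M : ℕ) (x0 : ℝ), ∀ (k : ℕ), 1 ≤ k → k ≤ K →
    ∀ (Y U w' : ℕ) (S : Finset ℕ), x0 ≤ Y → (k ≠ 1 → RgL (4 * Y) U w' c1 M S) → ∀ n : ℕ,
    Y < n → n ≤ 3 * Y →
      (0 ≤ (if k = 1 then (if n ≤ 32 * Y then lp n / Real.log (32 * Y : ℕ) else 0) else FZ Y k U S n) ∧
        (if k = 1 then (if n ≤ 32 * Y then lp n / Real.log (32 * Y : ℕ) else 0) else FZ Y k U S n) ≤ 1) ∧
      ((if k = 1 then n.Prime else EL k U S n) →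
        1 - η ≤ (if k = 1 then (if n ≤ 32 * Y then lp n / Real.log (32 * Y : ℕ) else 0) else FZ Y k U S n)) ∧
      ((if k = 1 then (if n ≤ 32 * Y then lp n / Real.log (32 * Y : ℕ) else 0) else FZ Y k U S n) ≠ 0 →
        (if k = 1 then n.Prime else EL k U S n)) := by
  obtain ⟨x1, hx1⟩ := unwz_one η hη
  obtain ⟨M', x2, hx2⟩ := FZ_pt K c1 η hη
  obtain ⟨x3, hx3⟩ := FZ_le K c1
  refine ⟨max M' (1000 * K), max x1 (max x2 x3), fun k hk hkK Y U w' S hY hR n hn1 hn3 => ?_⟩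
  simp only [max_le_iff] at hY
  by_cases hk1 : k = 1
  · simp only [if_pos hk1]
    exact hx1 Y hY.1 n hn1 hn3
  · simp only [if_neg hk1]
    have hR1 := hR hk1
    have hmono : ∀ j : ℕ, j ≤ max M' (1000 * K) → RgL (4 * Y) U w' c1 j S := by
      intro j hj
      refine ⟨hR1.hS, hR1.h2, ?_⟩
      rcases Nat.eq_zero_or_pos U with hU | hU
      · rw [hU]
        rcases Nat.eq_zero_or_pos j with hj0 | hj0
        · rw [hj0, pow_zero]
          omega
        · rw [zero_pow (by omega)]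
          exact Nat.zero_le _
      · exact (Nat.pow_le_pow_right hU hj).trans hR1.h3
    have h1 := hx2 Y hY.2.1 U w' S (hmono M' (le_max_left _ _)) k (by omega) hkK n hn1 hn3
    obtain ⟨hF0, hF1, -⟩ := hx3 Y hY.2.2 U w' S (hmono (1000 * K) (le_max_right _ _)) k (by omega) hkK n
    exact ⟨⟨hF0, hF1⟩, h1.2, h1.1⟩

theorem unwZ {m : ℕ} (κ : Fin m → ℕ) (hκ : ∀ i, 1 ≤ κ i) (c1 : ℕ) (ε : ℝ) (hε : 0 < ε) : ∃ (M : ℕ) (x0 : ℝ),
    ∀ (Y U w' : ℕ) (S : Fin m → Finset ℕ), x0 ≤ Y → (∀ i, κ i ≠ 1 → RgL (4 * Y) U w' c1 M (S i)) → ∀ h : Fin m → ℕ, (∀ i, h i ≤ Y) →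
      (1 - ε) * Real.log Y * cntE Y U κ S h ≤ wcA Y κ (fun i => FZ Y (κ i) U (S i)) h ∧
        wcA Y κ (fun i => FZ Y (κ i) U (S i)) h ≤ (1 + ε) * Real.log Y * cntE Y U κ S h := by
  classical
  set K : ℕ := ∑ i, κ i + 2 with hK
  obtain ⟨ε', hε'⟩ : ∃ ε' : ℝ, ε' = min ε 1 := ⟨_, rfl⟩
  have hε'0 : 0 < ε' := by rw [hε']; exact lt_min hε one_pos
  have hε'1 : ε' ≤ 1 := by rw [hε']; exact min_le_right _ _
  have hε'ε : ε' ≤ ε := by rw [hε']; exact min_le_left _ _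
  set D : ℝ := ε' / (m + 1) with hD
  have hm : (0 : ℝ) ≤ m := Nat.cast_nonneg m
  have hD0 : 0 < D := by rw [hD]; positivity
  have hDm : ((m : ℝ) + 1) * D = ε' := by rw [hD]; field_simp
  have hKi : ∀ i, κ i ≤ K := by
    intro i
    have := Finset.single_le_sum (f := κ) (fun i _ => Nat.zero_le _) (mem_univ i)
    omega
  obtain ⟨M, x1, hx⟩ := unwz_mem K c1 D hD0
  refine ⟨M, max x1 (max (Real.exp 1296) (Real.exp (1 / ε'))), ?_⟩
  intro Y U w' S hY hR h hh
  have hYx : x1 ≤ Y := (le_max_left _ _).trans hY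
  have hYexp : Real.exp 1296 ≤ (Y : ℝ) := (le_max_left _ _).trans ((le_max_right _ _).trans hY)
  have hYexp3 : Real.exp (1 / ε') ≤ (Y : ℝ) := (le_max_right _ _).trans ((le_max_right _ _).trans hY)
  have hYpos : (0 : ℝ) < Y := lt_of_lt_of_le (Real.exp_pos _) hYexp
  have hYnat : 0 < Y := by exact_mod_cast hYpos
  set L : ℝ := Real.log Y with hLdef
  have hL : (1296 : ℝ) ≤ L := by
    rw [hLdef, Real.le_log_iff_exp_le hYpos]; exact hYexp
  have hLε : 1 / ε' ≤ L := by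
    rw [hLdef, Real.le_log_iff_exp_le hYpos]; exact hYexp3
  have hεL : 1 ≤ ε' * L := by
    rw [div_le_iff₀ hε'0] at hLε
    linarith
  have hLpos : (0 : ℝ) < L := by linarith
  have hlog2 := Real.log_two_lt_d9
  have hlog2' : 0 ≤ Real.log 2 := Real.log_nonneg (by norm_num)
  have hD1 : D ≤ 1 := by nlinarith
  -- the members
  obtain ⟨v, hv⟩ : ∃ v : Fin m → ℕ → ℝ, v = fun i n =>
      if κ i = 1 then (if n + h i ≤ 32 * Y then lp (n + h i) / Real.log (32 * Y : ℕ) else 0)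
        else FZ Y (κ i) U (S i) (n + h i) := ⟨_, rfl⟩
  obtain ⟨good, hgood⟩ : ∃ good : Fin m → ℕ → Prop, good = fun i n =>
      if κ i = 1 then (n + h i).Prime else EL (κ i) U (S i) (n + h i) := ⟨_, rfl⟩
  have hval : ∀ n ∈ Ioc Y (2 * Y), ∀ i, (0 ≤ v i n ∧ v i n ≤ 1) ∧ (good i n → 1 - D ≤ v i n) ∧ (v i n ≠ 0 → good i n) := by
    intro n hn i
    rw [mem_Ioc] at hn
    have hhi := hh i
    rw [hv, hgood]
    exact hx (κ i) (hκ i) (hKi i) Y U w' (S i) hYx (hR i) (n + h i) (by omega) (by omega)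
  have hwc : wcA Y κ (fun i => FZ Y (κ i) U (S i)) h = ∑ n ∈ Ioc Y (2 * Y), lp n * ∏ i, v i n := by
    rw [hv]
    rfl
  have hlp0 : ∀ n : ℕ, 0 ≤ lp n := by
    intro n
    unfold Pool.Agent.Lib.G3.lp
    split_ifs
    · exact Real.log_natCast_nonneg n
    · exact le_rfl
  have hlp2 : ∀ n ∈ Ioc Y (2 * Y), lp n ≤ Real.log 2 + L := by
    intro n hn
    rw [mem_Ioc] at hn
    unfold Pool.Agent.Lib.G3.lp
    split_ifs
    · have hnpos : (0 : ℝ) < n := by
        have : 0 < n := by omega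
        exact_mod_cast this
      have h1 : (n : ℝ) ≤ 2 * Y := by exact_mod_cast hn.2
      have h3 := Real.log_le_log hnpos h1
      rwa [Real.log_mul (by norm_num) hYpos.ne'] at h3
    · linarith
  have hprod01 : ∀ n ∈ Ioc Y (2 * Y), 0 ≤ ∏ i, v i n ∧ ∏ i, v i n ≤ 1 := by
    intro n hn
    exact ⟨Finset.prod_nonneg fun i _ => (hval n hn i).1.1,
      Finset.prod_le_one (fun i _ => (hval n hn i).1.1) fun i _ => (hval n hn i).1.2⟩
  obtain ⟨G, hG⟩ : ∃ G : Finset ℕ, G = (Ioc Y (2 * Y)).filter fun n => n.Prime ∧ ∀ i, good i n := ⟨_, rfl⟩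
  have hcnt : cntE Y U κ S h = G.card := by
    rw [hG, hgood]
    unfold cntE
    congr
  rw [hcnt, hwc]
  have hGc : (0 : ℝ) ≤ (G.card : ℝ) := Nat.cast_nonneg _
  constructor
  · -- lower bound
    have hterm : ∀ n ∈ G, (1 - ε') * L ≤ lp n * ∏ i, v i n := by
      intro n hn
      rw [hG, mem_filter] at hn
      obtain ⟨hnI, hnp, hni⟩ := hn
      have hnI' := mem_Ioc.mp hnI
      have hlpn : lp n = Real.log n := by unfold Pool.Agent.Lib.G3.lp; rw [if_pos hnp]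
      have hl1 : L ≤ Real.log n := Real.log_le_log hYpos (by exact_mod_cast hnI'.1.le)
      have hprod2 : 1 - ε' ≤ ∏ i, v i n := by
        have h3 : ∏ _i : Fin m, (1 - D) ≤ ∏ i, v i n :=
          Finset.prod_le_prod (fun i _ => by linarith) (fun i _ => (hval n hnI i).2.1 (hni i))
        rw [Finset.prod_const, Finset.card_univ, Fintype.card_fin] at h3
        have h4 : 1 + (m : ℝ) * (-D) ≤ (1 + (-D)) ^ m :=
          one_add_mul_le_pow (by linarith) m
        have h5 : (m : ℝ) * D ≤ ε' := by nlinarith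
        have e : (1 + (-D)) ^ m = (1 - D) ^ m := by ring_nf
        rw [e] at h4
        linarith
      rw [hlpn, mul_comm]
      exact mul_le_mul hl1 hprod2 (by linarith) (by linarith)
    have h1 := Finset.card_nsmul_le_sum G _ _ hterm
    rw [nsmul_eq_mul] at h1
    have h2 : ∑ n ∈ G, lp n * ∏ i, v i n ≤ ∑ n ∈ Ioc Y (2 * Y), lp n * ∏ i, v i n := by
      refine Finset.sum_le_sum_of_subset_of_nonneg ?_ fun n hn _ => ?_
      · rw [hG]
        exact filter_subset _ _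
      · exact mul_nonneg (hlp0 n) (hprod01 n hn).1
    have h3 : (1 - ε) * L * G.card ≤ (1 - ε') * L * G.card :=
      mul_le_mul_of_nonneg_right (mul_le_mul_of_nonneg_right (by linarith) hLpos.le) hGc
    refine h3.trans ?_
    rw [mul_comm]
    exact h1.trans h2
  · -- upper bound
    have hterm : ∀ n ∈ Ioc Y (2 * Y), lp n * ∏ i, v i n ≤ if n ∈ G then (1 + ε) * L else 0 := by
      intro n hn
      by_cases hnG : n ∈ G
      · rw [if_pos hnG]
        have h6 : lp n * ∏ i, v i n ≤ (Real.log 2 + L) * 1 :=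
          mul_le_mul (hlp2 n hn) (hprod01 n hn).2 (hprod01 n hn).1 (by linarith)
        have h7 : ε' * L ≤ ε * L := mul_le_mul_of_nonneg_right hε'ε hLpos.le
        have e : (1 + ε) * L = L + ε * L := by ring
        rw [e]
        linarith
      · rw [if_neg hnG]
        by_cases hp : n.Prime
        · have hex : ∃ i, ¬ good i n := by
            by_contra hall
            push Not at hall
            exact hnG (by rw [hG, mem_filter]; exact ⟨hn, hp, hall⟩)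
          obtain ⟨i, hi⟩ := hex
          have hz : v i n = 0 := by
            by_contra hz
            exact hi ((hval n hn i).2.2 hz)
          rw [Finset.prod_eq_zero (mem_univ i) hz, mul_zero]
        · have hlp : lp n = 0 := by unfold Pool.Agent.Lib.G3.lp; rw [if_neg hp]
          rw [hlp, zero_mul]
    refine (Finset.sum_le_sum hterm).trans ?_
    rw [Finset.sum_ite_mem, Finset.sum_const, nsmul_eq_mul, mul_comm]
    refine mul_le_mul_of_nonneg_left ?_ (by positivity)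
    exact_mod_cast card_le_card inter_subset_right

end Pool.Agent.Lib.T8
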