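import Pool.Agent.Lib.T8.Asm
import Pool.Agent.Lib.T8.Var
import Pool.Agent.Lib.T8.Pl
import Pool.Agent.Lib.T8.Bd
import Pool.Agent.Lib.T8.Unw
import Pool.Agent.Lib.VK.TPos

/-!
# T8, row Fin: the formula for the typical tuples (compare VK/WFin.lean)

PROOF IN WORDS. `L = log Y`, `l = log 32Y`, `K = ∑ κ_i + 2`, `A1 = A + B + 3m + 8`. `asmA κ A1` gives `A'`, `c2`; `varZ K A' c2` gives `g ≥ c2`, `a1`; `c10 = a1 + 1`; for `c1 ≥ c10` take `varZ` at `c1 - 1 ≥ a1` (so `RgL .. c1 ..` is `RgL .. ((c1 - 1) + 1) ..`): it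
gives `c6`; use `c6' = c6 + A1 + 20` in `asmA` (`4g + A1 + 20 ≤ c6'`), `C = c6' + 1` (`l^c6' ≤ L^(c6'+1)` for large `Y`, `w' ≥ 1`). For `ε`: `M = max (1000 K) (M of unwZ c1 ε')`, `ε' = min ε 1/8`; `RgL` with the larger `M` implies the one with
the smaller (`U = 0` is trivial). `F i = FZ Y (κ i) U (S i)`, `r i = rZ ..`, `s i = sL (κ i) U (S i)`: the five hypotheses of `asmA` are `FZ_le`, `rZ_le`, `platZ`, `sL_le` (all with `c1`) and `varZ` (`w' l^c6 ≤ H`). The exceptional set is contained in that of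
`asmA` (`∏/L^A1 ≤ ∏/L^A`). For the other `h` (in the box, so `1 ≤ h_i ≤ Y`): `h` injective, `W = wcA`, `T = cntE`, `D = dA κ s ∈ [0, L^m]`, `HL h ≥ 0` (it is `≥ s(m) > 0` or `0`, `VKT.pos`, `VKT.zero`), `|W - D/l^m Y HL| ≤ Y/L^A1`, `(1-ε') L T ≤ W ≤ (1+ε') L T`.
`L^m/l^m → 1`: `|D/l^m - D/L^m| ≤ ε' D/L^m`. So `|T - HL D Y/L^(m+1)| ≤ ε HL D Y/L^(m+1) + 4Y/L^(A1+1) ≤ ε (HL D + L^(-B)) Y/L^(m+1)`.
-/

set_option autoImplicit false

open Finset Filter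

namespace Pool.Agent.Lib.T8

open Pool.Agent.Lib.VKT (HL box)
open Pool.Agent.Lib.G8 (di SL aL IL bL sL EL RgL)

private theorem finZ_real {q l D w c Yr a ε δ : ℝ} {m A1 B : ℕ} (hq : 4 ≤ q) (hql : q ≤ l)
    (hl : l ≤ q + 4) (hD : 0 ≤ D) (hc : 0 ≤ c) (hY : 0 < Yr) (ha : 0 ≤ a) (hδ : 0 < δ) (hδ1 : δ ≤ 1 / 8) (hδε : 8 * δ ≤ ε)
    (hA1 : m + B + 1 ≤ A1)
    (h1 : (1 - δ) * q * c ≤ w) (h2 : w ≤ (1 + δ) * q * c)
    (h3 : |w - D / l ^ m * Yr * a| ≤ Yr / q ^ A1) (hm : 8 * m / q ≤ ε) (hε2 : 4 / q ≤ ε) :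
    |c - a * D * (Yr / q ^ (m + 1))| ≤ ε * (a * D + 1 / q ^ B) * (Yr / q ^ (m + 1)) := by
  have hq0 : 0 < q := by linarith
  have hl0 : 0 < l := by linarith
  obtain ⟨η, hη⟩ : ∃ η : ℝ, η = 1 / q := ⟨_, rfl⟩
  have hη0 : 0 < η := by rw [hη]; positivity
  obtain ⟨e, he⟩ : ∃ e : ℝ, e = 1 / q ^ B := ⟨_, rfl⟩
  have he0 : 0 < e := by rw [he]; positivity
  obtain ⟨F, hF⟩ : ∃ F : ℝ, F = q ^ m / Yr := ⟨_, rfl⟩
  have hF0 : 0 < F := by rw [hF]; positivity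
  obtain ⟨W, hW⟩ : ∃ W : ℝ, W = w * F := ⟨_, rfl⟩
  obtain ⟨C0, hC0⟩ : ∃ C0 : ℝ, C0 = q * c * F := ⟨_, rfl⟩
  have hC00 : 0 ≤ C0 := by rw [hC0]; positivity
  have hU0 : 0 < Yr / q ^ (m + 1) := by positivity
  have eC : c = C0 * (Yr / q ^ (m + 1)) := by
    rw [hC0, hF, pow_succ]
    field_simp
  have hpow : Yr / q ^ A1 * F ≤ η * e := by
    obtain ⟨r, rfl⟩ := Nat.exists_eq_add_of_le hA1
    have e' : Yr / q ^ (m + B + 1 + r) * F = 1 / (q * q ^ B * q ^ r) := by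
      rw [hF, show m + B + 1 + r = m + (B + (1 + r)) by ring, pow_add, pow_add, pow_add, pow_one]
      field_simp
    rw [e', hη, he, one_div_mul_one_div]
    refine one_div_le_one_div_of_le (by positivity) ?_
    have h1r : 1 ≤ q ^ r := one_le_pow₀ (by linarith)
    have h2r : 0 ≤ q * q ^ B := by positivity
    nlinarith
  have h1' : (1 - δ) * C0 ≤ W := by
    rw [hC0, hW]
    calc (1 - δ) * (q * c * F) = ((1 - δ) * q * c) * F := by ring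
      _ ≤ w * F := mul_le_mul_of_nonneg_right h1 hF0.le
  have h2' : W ≤ (1 + δ) * C0 := by
    rw [hC0, hW]
    calc w * F ≤ ((1 + δ) * q * c) * F := mul_le_mul_of_nonneg_right h2 hF0.le
      _ = (1 + δ) * (q * c * F) := by ring
  obtain ⟨x, hx⟩ : ∃ x : ℝ, x = q / l := ⟨_, rfl⟩
  have hx0 : 0 < x := by rw [hx]; positivity
  have hx1 : x ≤ 1 := by rw [hx]; exact (div_le_one hl0).2 hql
  obtain ⟨T, hT⟩ : ∃ T : ℝ, T = a * D := ⟨_, rfl⟩
  have hT0 : 0 ≤ T := by rw [hT]; positivity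
  have e1 : D / l ^ m * Yr * a * F = x ^ m * T := by
    rw [hF, hx, hT, div_pow]
    have : l ^ m ≠ 0 := by positivity
    field_simp
  have h3' : |W - x ^ m * T| ≤ η * e := by
    have e2 : W - x ^ m * T = (w - D / l ^ m * Yr * a) * F := by
      rw [hW, ← e1]
      ring
    rw [e2, abs_mul, abs_of_pos hF0]
    calc |w - D / l ^ m * Yr * a| * F ≤ Yr / q ^ A1 * F :=
          mul_le_mul_of_nonneg_right h3 hF0.le
      _ ≤ η * e := hpow
  have hxm : 0 ≤ x ^ m := by positivity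
  have hxm1 : x ^ m ≤ 1 := pow_le_one₀ hx0.le hx1
  have hxm2 : 1 - x ^ m ≤ 4 * m * η := by
    have hb := one_add_mul_le_pow (a := x - 1) (by linarith) m
    have e3 : (1 : ℝ) + (x - 1) = x := by ring
    rw [e3] at hb
    have h6 : 1 - x ≤ 4 * (1 / q) := by
      rw [hx]
      have : 1 - q / l = (l - q) / l := by field_simp
      rw [this, ← mul_div_assoc, mul_one]
      exact div_le_div₀ (by norm_num) (by linarith) hq0 hql
    have h8 : (m : ℝ) * (1 - x) ≤ m * (4 * η) := by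
      refine mul_le_mul_of_nonneg_left ?_ (Nat.cast_nonneg _)
      rw [← hη] at h6
      linarith
    linarith
  obtain ⟨h3a, h3b⟩ := abs_le.1 h3'
  have hWle : W ≤ T + η * e := by
    have h9 : x ^ m * T ≤ T := by nlinarith
    linarith
  have hmε : 4 * m * η ≤ ε / 2 := by
    have : 8 * (m : ℝ) / q = 2 * (4 * m * η) := by rw [hη]; ring
    linarith
  have h4η : 4 * η ≤ ε := by
    rw [hη]
    calc 4 * (1 / q) = 4 / q := by ring
      _ ≤ ε := hε2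
  have hxT : (1 - x ^ m) * T ≤ ε / 2 * T := mul_le_mul_of_nonneg_right (hxm2.trans hmε) hT0
  have hxT0 : 0 ≤ (1 - x ^ m) * T := mul_nonneg (by linarith) hT0
  have hWT : W - T = (W - x ^ m * T) - (1 - x ^ m) * T := by ring
  have hηe : 0 ≤ η * e := by positivity
  have hWT1 : W - T ≤ η * e := by linarith
  have hWT2 : -(ε / 2 * T + η * e) ≤ W - T := by linarith
  have hC2 : C0 ≤ 2 * (T + η * e) := by nlinarith
  have hδC : δ * C0 ≤ δ * (2 * (T + η * e)) := mul_le_mul_of_nonneg_left hC2 hδ.le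
  have hδC0 : 0 ≤ δ * C0 := by positivity
  have hδη : δ * (η * e) ≤ 1 / 8 * (η * e) := mul_le_mul_of_nonneg_right hδ1 hηe
  have hδT : δ * T ≤ ε / 8 * T := mul_le_mul_of_nonneg_right (by linarith) hT0
  have hεT : 0 ≤ ε * T := mul_nonneg (by linarith) hT0
  have hεe : 4 * (η * e) ≤ ε * e := by
    calc 4 * (η * e) = (4 * η) * e := by ring
      _ ≤ ε * e := mul_le_mul_of_nonneg_right h4η he0.le
  have hCT : |C0 - T| ≤ ε * (T + e) := by
    have hCW1 : C0 - W ≤ 2 * (δ * T) + 2 * (δ * (η * e)) := by linarith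
    have hCW2 : -(2 * (δ * T) + 2 * (δ * (η * e))) ≤ C0 - W := by linarith
    rw [abs_le]
    constructor
    · linarith
    · linarith
  have e4 : c - a * D * (Yr / q ^ (m + 1)) = (C0 - T) * (Yr / q ^ (m + 1)) := by
    rw [hT, sub_mul, ← eC]
  rw [e4, abs_mul, abs_of_pos hU0, ← hT, ← he]
  exact mul_le_mul_of_nonneg_right hCT hU0.le

private theorem finZ_sL0 (k U : ℕ) (S : Finset ℕ) : 0 ≤ sL k U S := by
  unfold sL Pool.Agent.Lib.G5.esy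
  exact sum_nonneg fun p _ => mul_nonneg (by positivity)
    (sum_nonneg fun s _ => prod_nonneg fun p _ => by positivity)

private theorem finZ_dA0 {m : ℕ} (κ : Fin m → ℕ) (s : Fin m → ℝ) (hs : ∀ i, 0 ≤ s i) : 0 ≤ dA κ s := by
  unfold dA
  refine prod_nonneg fun i _ => ?_
  split_ifs with h
  · norm_num
  · exact hs i

private theorem finZ_HL {m : ℕ} {Y : ℕ} (hY : 1 ≤ Y) {h : Fin m → ℕ} (hi : Function.Injective h)
    (hh : ∀ i, 1 ≤ h i ∧ h i ≤ Y) : 0 ≤ HL h := by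
  obtain ⟨C, D, hC, htail⟩ := Pool.Agent.Lib.VKT.tail m
  have hcond : ∀ z : ℕ, ⌈C * Real.log ((2 * Y : ℕ) : ℝ)⌉₊ + 2 ≤ z → C * Real.log ((2 * Y : ℕ) : ℝ) ≤ z := by
    intro z hz
    refine (Nat.le_ceil _).trans ?_
    exact_mod_cast (by omega : ⌈C * Real.log ((2 * Y : ℕ) : ℝ)⌉₊ ≤ z)
  have hz0 : 2 ≤ ⌈C * Real.log ((2 * Y : ℕ) : ℝ)⌉₊ + 2 := by omega
  have ht := (htail _ (2 * Y) h hz0 (by omega) hi (fun i => ⟨(hh i).1, by have := (hh i).2; omega⟩) (hcond _ le_rfl)).1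
  refine ge_of_tendsto ht ?_
  filter_upwards [eventually_ge_atTop (⌈C * Real.log ((2 * Y : ℕ) : ℝ)⌉₊ + 2)] with z hz
  exact (htail z (2 * Y) h (by omega) (by omega) hi (fun i => ⟨(hh i).1, by have := (hh i).2; omega⟩)
    (hcond z hz)).2.2.1

private theorem finZ_rg {Y U w' c1 M M1 : ℕ} {S : Finset ℕ} (hM : M1 ≤ M) (hw : 1 ≤ w') (hR : RgL Y U w' c1 M S) :
    RgL Y U w' c1 M1 S := by
  have hU : 0 < U := by
    have := hR.h2
    omega
  exact ⟨hR.hS, hR.h2, (Nat.pow_le_pow_right hU hM).trans hR.h3⟩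

open Classical in
theorem finZ {m : ℕ} (κ : Fin m → ℕ) (hκ : ∀ i, 1 ≤ κ i) (A B : ℕ) : ∃ c10 : ℕ, ∀ c1 : ℕ, c10 ≤ c1 → ∃ C : ℕ, ∀ ε : ℝ, 0 < ε →
    ∃ (M : ℕ) (x0 : ℝ), ∀ (Y U w' H : ℕ) (S : Fin m → Finset ℕ), x0 ≤ Y → (∀ i, κ i ≠ 1 → RgL (4 * Y) U w' c1 M (S i)) → 1 ≤ w' →
      (w' : ℝ) * (Real.log Y) ^ C ≤ H → H ≤ Y → ∀ b : Fin m → ℕ, (∀ i, (κ i = 1 → b i = 0) ∧ (κ i ≠ 1 → b i + H ≤ Y)) →
        (((box b fun i => if κ i = 1 then Y else H).filter fun h => ¬ (Function.Injective h ∧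
          |(cntE Y U κ S h : ℝ) - HL h * dA κ (fun i => sL (κ i) U (S i)) * (Y / (Real.log Y) ^ (m + 1))| ≤
            ε * (HL h * dA κ (fun i => sL (κ i) U (S i)) + 1 / (Real.log Y) ^ B) * (Y / (Real.log Y) ^ (m + 1)))).card : ℝ) ≤
          (∏ i, ((if κ i = 1 then Y else H : ℕ) : ℝ)) / (Real.log Y) ^ A := by
  obtain ⟨A1, hA1⟩ : ∃ A1 : ℕ, A1 = A + B + 3 * m + 8 := ⟨_, rfl⟩
  obtain ⟨K, hK⟩ : ∃ K : ℕ, K = ∑ i, κ i + 2 := ⟨_, rfl⟩
  obtain ⟨A', c2, hasm⟩ := asmA κ A1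
  obtain ⟨g, hg, a1, hvar⟩ := varZ K A' c2
  refine ⟨a1 + 1, fun c1 hc1 => ?_⟩
  obtain ⟨c6, hc6, x1, h1⟩ := hvar (c1 - 1) (by omega)
  have ec1 : c1 - 1 + 1 = c1 := by omega
  rw [ec1] at h1
  obtain ⟨x2, h2⟩ := hasm g hg (c6 + A1 + 20) (by omega)
  obtain ⟨x4, hFZ⟩ := FZ_le K c1
  obtain ⟨x5, hrZ⟩ := rZ_le K c1
  obtain ⟨x6, hpl⟩ := platZ K c1
  obtain ⟨x7, hsL⟩ := sL_le K c1
  refine ⟨c6 + A1 + 20 + 1, fun ε hε => ?_⟩
  obtain ⟨δ, hδ⟩ : ∃ δ : ℝ, δ = min ε 1 / 8 := ⟨_, rfl⟩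
  have hmin : 0 < min ε 1 := lt_min hε one_pos
  have hδ0 : 0 < δ := by rw [hδ]; positivity
  have hδ1 : δ ≤ 1 / 8 := by
    have := min_le_right ε 1
    rw [hδ]
    linarith
  have hδε : 8 * δ ≤ ε := by
    have := min_le_left ε 1
    rw [hδ]
    linarith
  obtain ⟨M2, x3, hunw⟩ := unwZ κ hκ c1 δ hδ0
  obtain ⟨C6, hC6⟩ : ∃ C6 : ℕ, C6 = c6 + A1 + 20 := ⟨_, rfl⟩
  rw [← hC6] at h2 ⊢
  obtain ⟨qs, hqs⟩ : ∃ qs : ℝ, qs = 8 * m / ε + 4 / ε + 2 ^ C6 + 10 := ⟨_, rfl⟩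
  refine ⟨max (1000 * K) M2, max (max (max x1 x2) (max x3 x4)) (max (max x5 x6) (max x7 (Real.exp qs))), ?_⟩
  intro Y U w' H S hYx hRg hw'1 hCH hHY b hb
  have hx1 : x1 ≤ Y := le_trans (by simp) hYx
  have hx2 : x2 ≤ Y := le_trans (by simp) hYx
  have hx3 : x3 ≤ Y := le_trans (by simp) hYx
  have hx4 : x4 ≤ Y := le_trans (by simp) hYx
  have hx5 : x5 ≤ Y := le_trans (by simp) hYx
  have hx6 : x6 ≤ Y := le_trans (by simp) hYx
  have hx7 : x7 ≤ Y := le_trans (by simp) hYx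
  have hxe : Real.exp qs ≤ Y := le_trans (by simp) hYx
  have hY0 : (0 : ℝ) < Y := lt_of_lt_of_le (Real.exp_pos _) hxe
  have hYn : 0 < Y := by exact_mod_cast hY0
  obtain ⟨q, hq⟩ : ∃ q : ℝ, q = Real.log Y := ⟨_, rfl⟩
  obtain ⟨l, hl⟩ : ∃ l : ℝ, l = Real.log (32 * Y : ℕ) := ⟨_, rfl⟩
  have hqq : qs ≤ q := by
    rw [hq]
    exact (Real.le_log_iff_exp_le hY0).2 hxe
  have hpos1 : (0 : ℝ) ≤ 8 * m / ε := by positivity
  have hpos2 : (0 : ℝ) < 4 / ε := by positivity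
  have hpos3 : (0 : ℝ) < 2 ^ C6 := by positivity
  have hq10 : 10 ≤ q := by linarith
  have hq0 : 0 < q := by linarith
  have hqc6 : (2 : ℝ) ^ C6 ≤ q := by linarith
  have hqm : 8 * m / ε ≤ q := by linarith
  have hqε : 4 / ε ≤ q := by linarith
  have hε4 : 4 / q ≤ ε := by
    rw [div_le_iff₀ hq0]
    rw [div_le_iff₀ hε] at hqε
    linarith
  have hεm : 8 * m / q ≤ ε := by
    rw [div_le_iff₀ hq0]
    rw [div_le_iff₀ hε] at hqm
    linarith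
  have hlq : l = Real.log 32 + q := by
    rw [hl, hq]
    push_cast
    rw [Real.log_mul (by norm_num) hY0.ne']
  have hlog32 : Real.log 32 ≤ 4 := by
    have : Real.log 32 = 5 * Real.log 2 := by
      rw [show (32 : ℝ) = 2 ^ 5 by norm_num, Real.log_pow]
      norm_num
    rw [this]
    have := Real.log_two_lt_d9
    linarith
  have hlog320 : 0 ≤ Real.log 32 := Real.log_nonneg (by norm_num)
  have hql : q ≤ l := by linarith
  have hl4 : l ≤ q + 4 := by linarith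
  have hl2 : l ≤ 2 * q := by linarith
  have hl0 : 0 < l := by linarith
  have hlC : l ^ C6 ≤ q ^ (C6 + 1) := by
    calc l ^ C6 ≤ (2 * q) ^ C6 := pow_le_pow_left₀ hl0.le hl2 C6
      _ = 2 ^ C6 * q ^ C6 := mul_pow _ _ _
      _ ≤ q * q ^ C6 := mul_le_mul_of_nonneg_right hqc6 (by positivity)
      _ = q ^ (C6 + 1) := by rw [pow_succ]; ring
  have hw'r : (1 : ℝ) ≤ w' := by exact_mod_cast hw'1
  have hCH' : (w' : ℝ) * q ^ (C6 + 1) ≤ H := by rw [hq]; exact hCH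
  have hH1 : (w' : ℝ) * (Real.log (32 * Y : ℕ)) ^ c6 ≤ H := by
    rw [← hl]
    refine le_trans (mul_le_mul_of_nonneg_left ?_ (Nat.cast_nonneg _)) hCH'
    calc l ^ c6 ≤ l ^ C6 := pow_le_pow_right₀ (by linarith) (by omega)
      _ ≤ q ^ (C6 + 1) := hlC
  have hH2 : (Real.log (32 * Y : ℕ)) ^ C6 ≤ H := by
    rw [← hl]
    calc l ^ C6 ≤ q ^ (C6 + 1) := hlC
      _ = 1 * q ^ (C6 + 1) := (one_mul _).symm
      _ ≤ w' * q ^ (C6 + 1) := mul_le_mul_of_nonneg_right hw'r (by positivity)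
      _ ≤ H := hCH'
  have hR1 : ∀ i, κ i ≠ 1 → RgL (4 * Y) U w' c1 (1000 * K) (S i) :=
    fun i hi => finZ_rg (le_max_left _ _) hw'1 (hRg i hi)
  have hR2 : ∀ i, κ i ≠ 1 → RgL (4 * Y) U w' c1 M2 (S i) :=
    fun i hi => finZ_rg (le_max_right _ _) hw'1 (hRg i hi)
  have hk2 : ∀ i, κ i ≠ 1 → 2 ≤ κ i := fun i hi => by
    have := hκ i
    omega
  have hkK : ∀ i, κ i ≤ K := fun i => by
    have := single_le_sum (f := κ) (fun j _ => Nat.zero_le (κ j)) (mem_univ i)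
    omega
  have hbox := h2 Y H hx2 hH2 hHY (fun i => FZ Y (κ i) U (S i)) (fun i => rZ Y (κ i) U (S i)) (fun i => sL (κ i) U (S i))
    (fun i hi n => hFZ Y hx4 U w' (S i) (hR1 i hi) (κ i) (hk2 i hi) (hkK i) n)
    (fun i hi n => hrZ Y hx5 U w' (S i) (hR1 i hi) (κ i) (hk2 i hi) (hkK i) n)
    (fun i hi n hn1 hn2 => hpl Y hx6 U w' (S i) (hR1 i hi) (κ i) (hk2 i hi) (hkK i) n hn1 hn2)
    (fun i hi => hsL Y hx7 U w' (1000 * K) (S i) (by omega) (hR1 i hi) (κ i) (hk2 i hi) (hkK i))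
    (fun i hi α => h1 Y hx1 (κ i) U w' (S i) (hk2 i hi) (hkK i) (hR1 i hi) H hH1 α) b hb
  have hsub : ((box b fun i => if κ i = 1 then Y else H).filter fun h => ¬ (Function.Injective h ∧
          |(cntE Y U κ S h : ℝ) - HL h * dA κ (fun i => sL (κ i) U (S i)) * (Y / (Real.log Y) ^ (m + 1))| ≤
            ε * (HL h * dA κ (fun i => sL (κ i) U (S i)) + 1 / (Real.log Y) ^ B) * (Y / (Real.log Y) ^ (m + 1)))) ⊆
      ((box b fun i => if κ i = 1 then Y else H).filter fun h => ¬ (Function.Injective h ∧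
          |wcA Y κ (fun i => FZ Y (κ i) U (S i)) h - dA κ (fun i => sL (κ i) U (S i)) / (Real.log (32 * Y : ℕ)) ^ m * Y * HL h| ≤
            Y / (Real.log Y) ^ A1)) := by
    intro h hh
    rw [mem_filter] at hh ⊢
    refine ⟨hh.1, fun hgood => hh.2 ⟨hgood.1, ?_⟩⟩
    have hmem : ∀ i, 1 ≤ h i ∧ h i ≤ Y := by
      intro i
      have h2 := (Fintype.mem_piFinset.1 hh.1) i
      rw [mem_Ioc] at h2
      have h3 := hb i
      by_cases ht : κ i = 1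
      · have h4 := h3.1 ht
        simp only [ht, if_true] at h2
        omega
      · have h4 := h3.2 ht
        simp only [ht, if_false] at h2
        omega
    obtain ⟨hu1, hu2⟩ := hunw Y U w' S hx3 hR2 h (fun i => (hmem i).2)
    have hHL := finZ_HL hYn hgood.1 hmem
    have hmain := finZ_real (A1 := A1) (B := B) (m := m) (c := cntE Y U κ S h) (Yr := Y) (l := l) (q := q)
      (D := dA κ (fun i => sL (κ i) U (S i))) (a := HL h) (ε := ε) (δ := δ)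
      (w := wcA Y κ (fun i => FZ Y (κ i) U (S i)) h) (by linarith) hql hl4
      (finZ_dA0 κ _ fun i => finZ_sL0 _ _ _) (Nat.cast_nonneg _) hY0 hHL hδ0 hδ1 hδε (by omega)
      (by rw [hq]; exact hu1) (by rw [hq]; exact hu2) (by rw [hq, hl]; exact hgood.2) hεm hε4
    rw [← hq]
    exact hmain
  calc (((box b fun i => if κ i = 1 then Y else H).filter fun h => ¬ (Function.Injective h ∧
          |(cntE Y U κ S h : ℝ) - HL h * dA κ (fun i => sL (κ i) U (S i)) * (Y / (Real.log Y) ^ (m + 1))| ≤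
            ε * (HL h * dA κ (fun i => sL (κ i) U (S i)) + 1 / (Real.log Y) ^ B) * (Y / (Real.log Y) ^ (m + 1)))).card : ℝ)
      ≤ ((box b fun i => if κ i = 1 then Y else H).filter fun h => ¬ (Function.Injective h ∧
          |wcA Y κ (fun i => FZ Y (κ i) U (S i)) h - dA κ (fun i => sL (κ i) U (S i)) / (Real.log (32 * Y : ℕ)) ^ m * Y * HL h| ≤
            Y / (Real.log Y) ^ A1)).card := by exact_mod_cast card_le_card hsub
    _ ≤ (∏ i, ((if κ i = 1 then Y else H : ℕ) : ℝ)) / (Real.log Y) ^ A1 := hbox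
    _ ≤ (∏ i, ((if κ i = 1 then Y else H : ℕ) : ℝ)) / (Real.log Y) ^ A := by
        rw [← hq]
        exact div_le_div_of_nonneg_left (prod_nonneg fun i _ => Nat.cast_nonneg _) (by positivity)
          (pow_le_pow_right₀ (by linarith) (by omega))

end Pool.Agent.Lib.T8
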