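import Pool.Agent.Lib.T8.Vec
import Pool.Agent.Lib.VK.XSv
import Pool.Agent.Lib.VK.TPos

/-!
# T8, row Rest: almost all tuples are typical (compare the second half of VK/YRest.lean)

PROOF IN WORDS. `L = log Y`, `Kt = ∑ κ_i + 1`, `svc m Kt` gives `C1`, `E`. `M0 = max E (4 m Kt + 4 Kt) + 1`; for `M ≥ M0` let `z = ⌊Y^(1/M0)⌋`: `z^M0 ≤ Y < (z+1)^M0` (Nat root), so `z^E ≤ Y`, `z^κ_i ≤ Y`, `U ≤ z` (else `(z+1)^M0 ≤ U^M ≤ Y`), `L^2 ≤ z` for large `Y`, `log z ≥ L/(2 M0)`. `w = ⌈L^(m+B+4)⌉ - 1`: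
`w < q` for all `q ∈ S i`, `w ≥ L^(m+B+4)/2`; `2 q ≤ 2 Y^η ≤ U` if `η < 1/(2M)`. `covZ`, then `svc` for each `g ∈ VE i0` (`g_i ≥ 1`, at most `Kt` prime factors): at most `C1 (HL h Y/(lcm g · (log z)^(m+1))) + √Y`. The number of vectors is at most `∏ z^κ_i ≤ z^Kt ≤ Y^(1/4)`. Sum by `vecZ` with
`ε'' = ε/(4 m C1 (2 M0)^(m+1) + 1)`: `≤ (ε/4) HL h (Y/L^(m+1)) dA`. The other terms: `m Y^(3/4) + m (2Y/L^(m+B+4) + 2 √Y) + m^2 (4 · 2 L · 2 Y/L^(m+B+4)) ≤ (ε/2) s Y/L^(m+1+B)` for large `Y`, `HL h ≥ s > 0` (`VKT.pos`).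
-/

set_option autoImplicit false

open Finset Filter

namespace Pool.Agent.Lib.T8

open Pool.Agent.Lib.VKT (HL nu)

private theorem RestZ_ev (m B M0 M : ℕ) (hM0 : 1 ≤ M0) (hM : 1 ≤ M) (ε s x1 y1 : ℝ) (hε : 0 < ε) (hs : 0 < s) :
    ∃ x0 : ℝ, ∀ Y : ℕ, x0 ≤ Y → x1 ≤ Y ∧ y1 ≤ Y ∧ 2 * (Real.log Y) ^ 2 ≤ (Y : ℝ) ^ ((1 : ℝ) / M0) ∧
      6 ≤ (Y : ℝ) ^ ((1 : ℝ) / M0) ∧ 3 ≤ Real.log Y ∧ 2 * M0 * Real.log 2 ≤ Real.log Y ∧
      3 ≤ (Y : ℝ) ^ ((1 : ℝ) / (2 * M)) ∧ (2 * (m : ℝ) + 8 * (m : ℝ) ^ 2) ≤ ε * s / 4 * Real.log Y ∧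
      3 * (m : ℝ) * (Real.log Y) ^ (m + B + 1) ≤ ε * s / 4 * (Y : ℝ) ^ ((1 : ℝ) / 4) := by
  have hL := Real.tendsto_log_atTop
  have hM0' : (0 : ℝ) < 1 / M0 := by
    have : (0:ℝ) < M0 := by exact_mod_cast hM0
    positivity
  have hM' : (0 : ℝ) < 1 / (2 * M) := by
    have : (0:ℝ) < M := by exact_mod_cast hM
    positivity
  have key : ∀ᶠ y : ℝ in atTop, x1 ≤ y ∧ y1 ≤ y ∧ 2 * (Real.log y) ^ 2 ≤ y ^ ((1 : ℝ) / M0) ∧
      6 ≤ y ^ ((1 : ℝ) / M0) ∧ 3 ≤ Real.log y ∧ 2 * M0 * Real.log 2 ≤ Real.log y ∧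
      3 ≤ y ^ ((1 : ℝ) / (2 * M)) ∧ (2 * (m : ℝ) + 8 * (m : ℝ) ^ 2) ≤ ε * s / 4 * Real.log y ∧
      3 * (m : ℝ) * (Real.log y) ^ (m + B + 1) ≤ ε * s / 4 * y ^ ((1 : ℝ) / 4) := by
    have a1 := (isLittleO_log_rpow_rpow_atTop (2 : ℕ) hM0').bound (show (0:ℝ) < 1 / 2 by norm_num)
    have a2 := (isLittleO_log_rpow_rpow_atTop ((m + B + 1 : ℕ) : ℝ) (show (0:ℝ) < 1 / 4 by norm_num)).bound
      (show 0 < ε * s / (12 * (m + 1)) by positivity)
    filter_upwards [a1, a2, eventually_ge_atTop x1, eventually_ge_atTop y1, eventually_ge_atTop (1:ℝ),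
      (tendsto_rpow_atTop hM0').eventually_ge_atTop 6, hL.eventually_ge_atTop 3,
      hL.eventually_ge_atTop (2 * M0 * Real.log 2), (tendsto_rpow_atTop hM').eventually_ge_atTop 3,
      hL.eventually_ge_atTop ((2 * (m : ℝ) + 8 * (m : ℝ) ^ 2) / (ε * s / 4))] with y b1 b2 b3 b4 b5 b6 b7 b8 b9 b10
    have hy0 : (0:ℝ) ≤ y := by linarith
    rw [Real.rpow_natCast, Real.norm_of_nonneg (by positivity), Real.norm_of_nonneg (by positivity)] at b1
    rw [Real.rpow_natCast, Real.norm_of_nonneg (pow_nonneg (by linarith) _), Real.norm_of_nonneg (by positivity)] at b2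
    refine ⟨b3, b4, by linarith, b6, b7, b8, b9, ?_, ?_⟩
    · rw [div_le_iff₀ (by positivity)] at b10
      linarith
    · have hy4 : 0 ≤ y ^ ((1 : ℝ) / 4) := by positivity
      calc 3 * (m : ℝ) * (Real.log y) ^ (m + B + 1)
          ≤ 3 * (m : ℝ) * (ε * s / (12 * (m + 1)) * y ^ ((1 : ℝ) / 4)) := mul_le_mul_of_nonneg_left b2 (by positivity)
        _ = (m / (m + 1)) * (ε * s / 4 * y ^ ((1 : ℝ) / 4)) := by field_simp; ring
        _ ≤ 1 * (ε * s / 4 * y ^ ((1 : ℝ) / 4)) := by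
          refine mul_le_mul_of_nonneg_right ?_ (by positivity)
          rw [div_le_one (by positivity)]
          linarith
        _ = _ := one_mul _
  obtain ⟨x0, hx0⟩ := eventually_atTop.mp key
  exact ⟨x0, fun Y hY => hx0 Y hY⟩

private theorem RestZ_card {m : ℕ} (κ : Fin m → ℕ) (z U : ℕ) (hz : 1 ≤ z) (S : Fin m → Finset ℕ) (i0 : Fin m) :
    (VE z U κ S i0).card ≤ z ^ (∑ i, κ i) := by
  classical
  unfold VE
  refine (card_filter_le _ _).trans ?_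
  unfold VF
  rw [Fintype.card_piFinset, ← Finset.prod_pow_eq_pow_sum]
  refine prod_le_prod' fun i _ => ?_
  split_ifs with hk
  · rw [card_singleton]
    exact Nat.one_le_pow _ _ hz
  · unfold QF
    refine (card_filter_le _ _).trans ?_
    simp

/-- the powers of the logarithm in the remaining terms -/
private theorem RestZ_num (m B : ℕ) {Y L w ε s q : ℝ} (hL : 3 ≤ L) (hε : 0 < ε) (hs : 0 < s) (hq : 1 ≤ q) (hq4 : q ^ 4 = Y)
    (hw : L ^ (m + B + 4) / 2 ≤ w) (e7 : (2 * (m : ℝ) + 8 * (m : ℝ) ^ 2) ≤ ε * s / 4 * L)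
    (e8 : 3 * (m : ℝ) * L ^ (m + B + 1) ≤ ε * s / 4 * q) {l2 : ℝ} (hl : l2 ≤ 2 * L) (hl0 : 0 ≤ l2) :
    (m : ℝ) * (Y / w + 2 * q ^ 2) + (m : ℝ) ^ 2 * (2 * l2 * (Y / w)) + m * (q * q ^ 2) ≤
      ε / 2 * (s * (Y / L ^ (m + B + 1))) := by
  have hY0 : 0 < Y := by rw [← hq4]; positivity
  have hL0 : 0 < L := by linarith
  set P := L ^ (m + B + 1) with hP
  have hP0 : 0 < P := by positivity
  have hP4 : L ^ (m + B + 4) = P * L ^ 3 := by rw [hP]; ring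
  have hw0 : 0 < w := lt_of_lt_of_le (by positivity) hw
  -- `Y / w ≤ 2 Y / (P L^3)`
  have h1 : Y / w ≤ 2 * (Y / (P * L ^ 3)) := by
    rw [hP4] at hw
    calc Y / w ≤ Y / (P * L ^ 3 / 2) := div_le_div_of_nonneg_left hY0.le (by positivity) hw
      _ = 2 * (Y / (P * L ^ 3)) := by field_simp
  have h2 : (m : ℝ) * (Y / w) ≤ 2 * m / L * (Y / P) := by
    calc (m : ℝ) * (Y / w) ≤ m * (2 * (Y / (P * L ^ 3))) := mul_le_mul_of_nonneg_left h1 (by positivity)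
      _ = 2 * m / L * (Y / P) * (1 / L ^ 2) := by field_simp
      _ ≤ 2 * m / L * (Y / P) * 1 := by
        refine mul_le_mul_of_nonneg_left ?_ (by positivity)
        rw [div_le_one (by positivity)]
        nlinarith
      _ = _ := mul_one _
  have h3 : (m : ℝ) ^ 2 * (2 * l2 * (Y / w)) ≤ 8 * m ^ 2 / L * (Y / P) := by
    calc (m : ℝ) ^ 2 * (2 * l2 * (Y / w)) ≤ (m : ℝ) ^ 2 * (2 * (2 * L) * (2 * (Y / (P * L ^ 3)))) := by
          refine mul_le_mul_of_nonneg_left ?_ (by positivity)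
          exact mul_le_mul (by linarith) h1 (by positivity) (by positivity)
      _ = 8 * m ^ 2 / L * (Y / P) * (1 / L) := by field_simp; ring
      _ ≤ 8 * m ^ 2 / L * (Y / P) * 1 := by
        refine mul_le_mul_of_nonneg_left ?_ (by positivity)
        rw [div_le_one (by positivity)]
        linarith
      _ = _ := mul_one _
  have h4 : (2 * m / L + 8 * m ^ 2 / L) * (Y / P) ≤ ε * s / 4 * (Y / P) := by
    refine mul_le_mul_of_nonneg_right ?_ (by positivity)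
    rw [← add_div, div_le_iff₀ hL0]
    exact e7
  have h5 : 3 * (m : ℝ) * (q * q ^ 2) ≤ ε * s / 4 * (Y / P) := by
    rw [← hq4, ← mul_div_assoc, le_div_iff₀ hP0]
    calc 3 * (m : ℝ) * (q * q ^ 2) * P = (3 * m * P) * q ^ 3 := by ring
      _ ≤ (ε * s / 4 * q) * q ^ 3 := mul_le_mul_of_nonneg_right e8 (by positivity)
      _ = _ := by ring
  have h6 : (m : ℝ) * (2 * q ^ 2) ≤ 2 * m * (q * q ^ 2) := by
    have : q ^ 2 ≤ q * q ^ 2 := by nlinarith [sq_nonneg q]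
    nlinarith [Nat.cast_nonneg (α := ℝ) m]
  have h7 : ε / 2 * (s * (Y / P)) = ε * s / 4 * (Y / P) + ε * s / 4 * (Y / P) := by ring
  rw [h7]
  nlinarith

theorem restZ {m : ℕ} (κ : Fin m → ℕ) (hκ : ∀ i, 1 ≤ κ i) (B : ℕ) : ∃ M0 : ℕ, ∀ M : ℕ, M0 ≤ M → ∀ ε : ℝ, 0 < ε → ∃ η : ℝ, 0 < η ∧ ∃ x0 : ℝ,
    ∀ (Y U : ℕ) (S : Fin m → Finset ℕ), x0 ≤ Y → U ^ M ≤ Y → Y ≤ (U + 1) ^ M →
      (∀ i, κ i ≠ 1 → ∀ q ∈ S i, q.Prime ∧ (Real.log Y) ^ (m + B + 4) ≤ q ∧ (q : ℝ) ≤ (Y : ℝ) ^ η) →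
      ∀ h : Fin m → ℕ, Function.Injective h → (∀ i, 1 ≤ h i ∧ h i ≤ Y) → (∀ p : ℕ, p.Prime → nu h p < p) →
        (cntE Y U κ S h : ℝ) ≤ cntT Y κ S h ∧
          (cntT Y κ S h : ℝ) ≤ cntE Y U κ S h +
            ε * (HL h * (dA κ (fun i => dT (κ i) (S i) Y) + 1 / (Real.log Y) ^ B) * (Y / (Real.log Y) ^ (m + 1))) := by
  classical
  obtain ⟨Kt, hKt⟩ : ∃ Kt, Kt = ∑ i, κ i + 1 := ⟨_, rfl⟩
  obtain ⟨C1, E, x1, hC1, hsv⟩ := Pool.Agent.Lib.VKT.svc m Kt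
  obtain ⟨s, hs, hpos⟩ := Pool.Agent.Lib.VKT.pos m
  obtain ⟨M0, hM0def⟩ : ∃ M0, M0 = max E (4 * Kt) + 1 := ⟨_, rfl⟩
  refine ⟨M0, fun M hMM ε hε => ?_⟩
  have hM01 : 1 ≤ M0 := by omega
  have hM1 : 1 ≤ M := by omega
  have hM0r : (0:ℝ) < M0 := by exact_mod_cast hM01
  have hMr : (0:ℝ) < M := by exact_mod_cast hM1
  obtain ⟨ε2, hε2def⟩ : ∃ ε2 : ℝ, ε2 = ε / (4 * (m + 1) * C1 * (2 * M0) ^ (m + 1)) := ⟨_, rfl⟩
  have hε2 : 0 < ε2 := by rw [hε2def]; positivity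
  obtain ⟨η1, hη1, y1, hvec⟩ := vecZ κ hκ M hM1 ε2 hε2
  refine ⟨min η1 (1 / (2 * M)), by positivity, ?_⟩
  obtain ⟨x0, hx0⟩ := RestZ_ev m B M0 M hM01 hM1 ε s x1 y1 hε hs
  refine ⟨x0, ?_⟩
  intro Y U S hY hUM hYU hS h hinj hh hnu
  obtain ⟨e1, e1', e2, e3, e4, e5, e6, e7, e8⟩ := hx0 Y hY
  have hHL : s ≤ HL h := hpos h hinj (fun i => (hh i).1) hnu
  have hHL0 : 0 < HL h := hs.trans_le hHL
  have hκt : ∀ i, κ i + 1 ≤ Kt := fun i => by
    have := single_le_sum (f := κ) (fun j _ => Nat.zero_le _) (mem_univ i); omega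
  -- the level z
  obtain ⟨z, hzdef⟩ : ∃ z : ℕ, z = ⌊(Y : ℝ) ^ ((1 : ℝ) / M0)⌋₊ := ⟨_, rfl⟩
  have hzle : (z : ℝ) ≤ (Y : ℝ) ^ ((1 : ℝ) / M0) := by rw [hzdef]; exact Nat.floor_le (by positivity)
  have hzM : z ^ M0 ≤ Y := by
    have : (z : ℝ) ^ M0 ≤ Y := by
      calc (z : ℝ) ^ M0 ≤ ((Y : ℝ) ^ ((1 : ℝ) / M0)) ^ M0 := pow_le_pow_left₀ (by positivity) hzle _
        _ = Y := by rw [← Real.rpow_natCast, ← Real.rpow_mul (by positivity), one_div_mul_cancel hM0r.ne', Real.rpow_one]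
    exact_mod_cast this
  have hzlt : (Y : ℝ) ^ ((1 : ℝ) / M0) < z + 1 := by rw [hzdef]; exact Nat.lt_floor_add_one _
  have hz1 : 1 ≤ z := by
    have : (0:ℝ) < z := by linarith
    exact_mod_cast this
  have hz1r : (1:ℝ) ≤ z := by exact_mod_cast hz1
  have hz2 : (Y : ℝ) ^ ((1 : ℝ) / M0) ≤ 2 * z := by linarith
  have hz3 : (3:ℝ) ≤ z := by linarith
  have hpw : ∀ j, j ≤ max E (4 * Kt) + 1 → z ^ j ≤ Y := fun j hj =>
    (Nat.pow_le_pow_right (by omega) (by omega)).trans hzM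
  have hzY : z ≤ Y := by simpa using hpw 1 (by omega)
  have hYr : (3:ℝ) ≤ Y := hz3.trans (by exact_mod_cast hzY)
  have hY1 : (1:ℝ) ≤ Y := by linarith
  have hUle : (U : ℝ) ≤ (Y : ℝ) ^ ((1 : ℝ) / M) := by
    have h1 : (U : ℝ) ^ M ≤ Y := by exact_mod_cast hUM
    calc (U : ℝ) = ((U : ℝ) ^ M) ^ ((1 : ℝ) / M) := by
          rw [← Real.rpow_natCast, ← Real.rpow_mul (by positivity), mul_one_div_cancel hMr.ne', Real.rpow_one]
      _ ≤ (Y : ℝ) ^ ((1 : ℝ) / M) := Real.rpow_le_rpow (by positivity) h1 (by positivity)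
  have hUge : (Y : ℝ) ^ ((1 : ℝ) / M) ≤ U + 1 := by
    have h1 : (Y : ℝ) ≤ ((U : ℝ) + 1) ^ M := by exact_mod_cast hYU
    calc (Y : ℝ) ^ ((1 : ℝ) / M) ≤ (((U : ℝ) + 1) ^ M) ^ ((1 : ℝ) / M) := Real.rpow_le_rpow (by positivity) h1 (by positivity)
      _ = (U : ℝ) + 1 := by
          rw [← Real.rpow_natCast, ← Real.rpow_mul (by positivity), mul_one_div_cancel hMr.ne', Real.rpow_one]
  have hUz : U ≤ z := by
    rw [hzdef]
    refine Nat.le_floor (hUle.trans ?_)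
    refine Real.rpow_le_rpow_of_exponent_le hY1 ?_
    exact one_div_le_one_div_of_le hM0r (by exact_mod_cast hMM)
  have hlz : Real.log Y / (2 * M0) ≤ Real.log z := by
    have h1 : Real.log Y / M0 ≤ Real.log 2 + Real.log z := by
      rw [← Real.log_mul (by norm_num) (by linarith)]
      calc Real.log Y / M0 = Real.log ((Y : ℝ) ^ ((1 : ℝ) / M0)) := by
            rw [Real.log_rpow (by linarith)]; ring
        _ ≤ Real.log (2 * z) := Real.log_le_log (by positivity) hz2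
    have h2 : Real.log 2 ≤ Real.log Y / (2 * M0) := by
      rw [le_div_iff₀ (by positivity)]; linarith
    have h3 : Real.log Y / M0 = Real.log Y / (2 * M0) + Real.log Y / (2 * M0) := by
      field_simp; ring
    linarith
  set L := Real.log Y with hLdef
  have hL0 : 0 < L := by linarith
  -- the level w
  have hLp : 2 ≤ L ^ (m + B + 4) := by
    calc (2 : ℝ) ≤ 3 ^ 1 := by norm_num
      _ ≤ L ^ 1 := pow_le_pow_left₀ (by norm_num) e4 _
      _ ≤ L ^ (m + B + 4) := pow_le_pow_right₀ (by linarith) (by omega)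
  obtain ⟨w, hwdef⟩ : ∃ w : ℕ, w = ⌈L ^ (m + B + 4)⌉₊ - 1 := ⟨_, rfl⟩
  have hceil : 2 ≤ ⌈L ^ (m + B + 4)⌉₊ := by
    have h1 : (2:ℝ) ≤ ⌈L ^ (m + B + 4)⌉₊ := hLp.trans (Nat.le_ceil _)
    exact_mod_cast h1
  have hw1 : 1 ≤ w := by omega
  have hwr : L ^ (m + B + 4) / 2 ≤ w := by
    have h1 : (w : ℝ) + 1 = ⌈L ^ (m + B + 4)⌉₊ := by
      have : w + 1 = ⌈L ^ (m + B + 4)⌉₊ := by omega
      exact_mod_cast this
    have h2 := Nat.le_ceil (L ^ (m + B + 4))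
    linarith
  have ht2 : (Y : ℝ) ^ ((1 : ℝ) / M) = (Y : ℝ) ^ ((1 : ℝ) / (2 * M)) * (Y : ℝ) ^ ((1 : ℝ) / (2 * M)) := by
    rw [← Real.rpow_add (by linarith)]
    congr 1
    field_simp
    ring
  have hScov : ∀ i, κ i ≠ 1 → ∀ q ∈ S i, q.Prime ∧ w < q ∧ 2 * q ≤ U := by
    intro i hi q hq
    obtain ⟨q1, q2, q3⟩ := hS i hi q hq
    refine ⟨q1, ?_, ?_⟩
    · have h1 : ⌈L ^ (m + B + 4)⌉₊ ≤ q := Nat.ceil_le.mpr q2
      omega
    · have h1 : (q : ℝ) ≤ (Y : ℝ) ^ ((1 : ℝ) / (2 * M)) :=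
        q3.trans (Real.rpow_le_rpow_of_exponent_le hY1 (min_le_right _ _))
      have h2 : (2 : ℝ) * q + 1 ≤ U + 1 := by
        refine le_trans ?_ hUge
        rw [ht2]
        nlinarith
      have h3 : ((2 * q : ℕ) : ℝ) ≤ U := by push_cast; linarith
      exact_mod_cast h3
  obtain ⟨c1, c2⟩ := covZ κ hκ Y U w z S hw1 hScov hUz hz1
    (fun i => hpw _ (by have := hκt i; omega)) hzY h hinj (fun i => (hh i).2)
  refine ⟨c1, c2.trans ?_⟩
  -- the vectors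
  have hD := hvec Y U z S e1' hUM hYU (fun i => hpw _ (by have := hκt i; omega)) (fun i hi q hq => by
    obtain ⟨q1, q2, q3⟩ := hS i hi q hq
    refine ⟨q1, ?_, q3.trans (Real.rpow_le_rpow_of_exponent_le hY1 (min_le_left _ _))⟩
    refine le_trans ?_ q2
    calc L = L ^ 1 := (pow_one _).symm
      _ ≤ L ^ (m + B + 4) := pow_le_pow_right₀ (by linarith) (by omega))
  set D := dA κ (fun i => dT (κ i) (S i) Y) with hDdef
  have hD0 : 0 ≤ D := by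
    rcases Nat.eq_zero_or_pos m with h0 | h0
    · subst h0
      rw [hDdef]
      unfold dA
      simp
    · have h1 := hD ⟨0, h0⟩
      have h2 : 0 ≤ ∑ g ∈ VE z U κ S ⟨0, h0⟩, (1 : ℝ) / ((univ.lcm g : ℕ) : ℝ) := sum_nonneg fun _ _ => by positivity
      have h3 : 0 ≤ ε2 * D := h2.trans h1
      exact nonneg_of_mul_nonneg_right h3 hε2
  have hL'1 : 0 < Real.log z := lt_of_lt_of_le (by positivity) hlz
  have hcl : ∀ i0 : Fin m, ∀ g ∈ VE z U κ S i0, (((Ioc Y (2 * Y)).filter fun n => (∀ i, g i ∣ n + h i) ∧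
        ∀ p : ℕ, p.Prime → p ≤ z → ¬ p ∣ n ∧ ∀ i, p ∣ n + h i → p ∣ g i).card : ℝ) ≤
      C1 * (HL h * (Y / (Real.log z) ^ (m + 1))) * (1 / ((univ.lcm g : ℕ) : ℝ)) + Real.sqrt Y := by
    intro i0 g hg
    unfold VE VF at hg
    rw [mem_filter, Fintype.mem_piFinset] at hg
    refine (hsv Y z e1 (by linarith) (hpw E (by omega)) h hinj hh hnu g fun i => ?_).trans (le_of_eq ?_)
    · have h0 := hg.1 i
      split_ifs at h0 with hk
      · rw [mem_singleton] at h0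
        rw [h0]
        exact ⟨le_rfl, by simp⟩
      · unfold QF at h0
        rw [mem_filter, mem_Icc] at h0
        refine ⟨h0.1.1, ?_⟩
        have h2 : (g i).primeFactors.card ≤ (g i).primeFactorsList.length := by
          rw [Nat.primeFactors]; exact List.toFinset_card_le _
        have h3 := hκt i
        have h4 := h0.2.1
        omega
    · congr 1
      rw [mul_assoc, mul_assoc, div_mul_div_comm, mul_one, mul_comm ((Real.log z) ^ (m + 1))]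
  obtain ⟨q, hq⟩ : ∃ q : ℝ, q = (Y : ℝ) ^ ((1 : ℝ) / 4) := ⟨_, rfl⟩
  have hq0 : 0 < q := by rw [hq]; positivity
  have hq4 : q ^ 4 = Y := by
    rw [hq, ← Real.rpow_natCast, ← Real.rpow_mul (by positivity)]
    norm_num
  have hq1 : 1 ≤ q := by rw [hq]; exact Real.one_le_rpow hY1 (by norm_num)
  have hsq : Real.sqrt Y = q ^ 2 := by
    rw [← hq4, show q ^ 4 = (q ^ 2) ^ 2 by ring, Real.sqrt_sq (by positivity)]
  have hcard : ∀ i0 : Fin m, ((VE z U κ S i0).card : ℝ) ≤ q := by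
    intro i0
    refine le_of_pow_le_pow_left₀ (n := 4) (by norm_num) hq0.le ?_
    rw [hq4]
    have h1 : (VE z U κ S i0).card ^ 4 ≤ Y := by
      refine (Nat.pow_le_pow_left (RestZ_card κ z U hz1 S i0) 4).trans ?_
      rw [← pow_mul]
      exact hpw _ (by omega)
    exact_mod_cast h1
  set G := (Y : ℝ) / L ^ (m + 1) with hG
  have hG0 : 0 ≤ G := by positivity
  have hzG : (Y : ℝ) / (Real.log z) ^ (m + 1) ≤ (2 * M0) ^ (m + 1) * G := by
    calc (Y : ℝ) / (Real.log z) ^ (m + 1) ≤ Y / (L / (2 * M0)) ^ (m + 1) :=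
          div_le_div_of_nonneg_left (by positivity) (by positivity)
            (pow_le_pow_left₀ (by positivity) hlz _)
      _ = (2 * M0) ^ (m + 1) * G := by
          rw [hG, div_pow]; field_simp
  have hone : ∀ i0 : Fin m, ∑ g ∈ VE z U κ S i0, (((Ioc Y (2 * Y)).filter fun n => (∀ i, g i ∣ n + h i) ∧
        ∀ p : ℕ, p.Prime → p ≤ z → ¬ p ∣ n ∧ ∀ i, p ∣ n + h i → p ∣ g i).card : ℝ) ≤
      ε / (4 * (m + 1)) * (HL h * G * D) + q * q ^ 2 := by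
    intro i0
    refine (sum_le_sum (hcl i0)).trans ?_
    rw [sum_add_distrib, ← mul_sum, sum_const, nsmul_eq_mul, hsq]
    refine add_le_add ?_ (mul_le_mul_of_nonneg_right (hcard i0) (by positivity))
    calc C1 * (HL h * (Y / (Real.log z) ^ (m + 1))) * ∑ g ∈ VE z U κ S i0, (1 / ((univ.lcm g : ℕ) : ℝ))
        ≤ C1 * (HL h * ((2 * M0) ^ (m + 1) * G)) * (ε2 * D) := by
          refine mul_le_mul (mul_le_mul_of_nonneg_left (mul_le_mul_of_nonneg_left hzG hHL0.le) hC1.le)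
            (hD i0) (sum_nonneg fun _ _ => by positivity) (by positivity)
      _ = ε / (4 * (m + 1)) * (HL h * G * D) := by
          rw [hε2def]
          field_simp
  have htot : ∑ i0 : Fin m, ∑ g ∈ VE z U κ S i0, (((Ioc Y (2 * Y)).filter fun n => (∀ i, g i ∣ n + h i) ∧
        ∀ p : ℕ, p.Prime → p ≤ z → ¬ p ∣ n ∧ ∀ i, p ∣ n + h i → p ∣ g i).card : ℝ) ≤
      ε / 4 * (HL h * G * D) + m * (q * q ^ 2) := by
    refine (sum_le_sum fun i0 _ => hone i0).trans ?_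
    rw [sum_const, card_univ, Fintype.card_fin, nsmul_eq_mul, mul_add]
    refine add_le_add ?_ le_rfl
    calc (m : ℝ) * (ε / (4 * (m + 1)) * (HL h * G * D)) = (m / (m + 1)) * (ε / 4 * (HL h * G * D)) := by
          field_simp
      _ ≤ 1 * (ε / 4 * (HL h * G * D)) := by
          refine mul_le_mul_of_nonneg_right ?_ (by positivity)
          rw [div_le_one (by positivity)]
          linarith
      _ = _ := one_mul _
  have hlog2 : ((Nat.log 2 Y : ℕ) : ℝ) ≤ 2 * L := by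
    have h1 : ((Nat.log 2 Y : ℕ) : ℝ) * Real.log 2 ≤ L := by
      rw [← Real.log_pow, hLdef]
      refine Real.log_le_log (by positivity) ?_
      have h2 : 2 ^ Nat.log 2 Y ≤ Y := Nat.pow_log_le_self 2 (by
        intro h3
        rw [h3] at hY1
        norm_num at hY1)
      exact_mod_cast h2
    have h3 := Real.log_two_gt_d9
    nlinarith [Nat.cast_nonneg (α := ℝ) (Nat.log 2 Y)]
  have hnum := RestZ_num m B e4 hε hs hq1 hq4 hwr e7 (by rw [hq]; exact e8) hlog2 (Nat.cast_nonneg _)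
  have hfin : ε / 2 * (s * ((Y : ℝ) / L ^ (m + B + 1))) ≤ ε / 2 * (HL h * (1 / L ^ B) * G) := by
    refine mul_le_mul_of_nonneg_left ?_ (by positivity)
    have h1 : (Y : ℝ) / L ^ (m + B + 1) = 1 / L ^ B * G := by
      rw [hG, div_mul_div_comm, one_mul, ← pow_add]
      congr 2
      omega
    rw [h1, mul_assoc (HL h)]
    exact mul_le_mul_of_nonneg_right hHL (by positivity)
  have hexp : ε * (HL h * (D + 1 / L ^ B) * G) = ε * (HL h * G * D) + ε * (HL h * (1 / L ^ B) * G) := by ring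
  rw [hexp, hsq]
  have p1 : 0 ≤ HL h * G * D := by positivity
  have p2 : 0 ≤ HL h * (1 / L ^ B) * G := by positivity
  nlinarith

end Pool.Agent.Lib.T8
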