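import Pool.Agent.Lib.T8.Fin
import Pool.Agent.Lib.T8.Rest

/-!
# T8, row Main: the formula for the tuples with the least prime factors in given sets

PROOF IN WORDS. `X = Y`, `L = log Y`. `B1 = B (m) + 1` (that is `m * B + 1`). `finZ κ hκ A B1` gives `c10`; `c1 = c10 + m + B1 + 4`, its `C`; `c0 = c1 + 2`. For `ε ≤ 1` (w.l.o.g.) let `ε' = ε/(100 · 2^m)`-small (see the end). `restZ κ hκ B1` gives `M0`; `finZ` with `ε'` gives `M1`; `M = max M0 M1`. `merA` for each `i` with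
`κ_i ≠ 1` (`κ_i`, `M`, `ε2`) gives `η_i`; `restZ` with `M`, `ε'` gives `η'`; `η = min (all) (1/(2M))`. `U = ⌊Y^(1/M)⌋`: `U^M ≤ Y ≤ (U+1)^M`. `W = ⌊w'⌋ ≥ 1`: all `q ∈ S i` are `≤ W`, `2 W ≤ 2 Y^η ≤ U`, `(log 4Y)^(c1+1) ≤ L^(c1+2) ≤ q`: `RgL (4Y) U W c1 M1 (S i)` (`U^M1 ≤ U^M ≤ Y ≤ 4Y`, `U ≥ 1`); `W L^C ≤ w' L^C ≤ H`.
Exceptional set contained in that of `finZ`. For the other `h` (`h` injective, `1 ≤ h_i ≤ Y`). (a) `h` admissible: `HL h ≥ s > 0` (`VKT.pos`). `T = cntT`, `T' = cntE`, `D = dA κ dT`, `D' = dA κ sL`, `V = Y/L^(m+1)`: `|T - T'| ≤ ε' HL (D + L^(-B1)) V`, `|T' - HL D' V| ≤ ε' (HL D' + L^(-B1)) V`. By `merA`, summed over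
`q ∈ S i` with the weights `1/q`: `|sL - dT| ≤ ε2 dT` for each `i`, so `|D' - D| ≤ ((1+ε2)^m - 1) D ≤ ε' D` (private lemmas `etf_prod`, `etf_small` of Results/MP_092512_nt/ExactTupleFormula.lean). `D ≥ ∏ L^(-B)/(κ_i - 2)!` over the `i` with `κ_i ≠ 1` (`λ ≥ 1` by merC or as `η ≤ 1/e`), so `L^(-B1) ≤ D` and `L^(-B1) ≤ HL D` for large `Y` (`HL ≥ s`, one more
`L`). Total `≤ 10 ε' HL D V ≤ ε HL D V`. (b) `h` not admissible, `nu h p = p`: `p ≤ m + 1`, `HL h = 0` (`VKT.zero`), and `cntT = 0`: `p` divides `n` or some `n + h_i` for every `n` (private lemma `etf_div` of ExactTupleFormula.lean); `n > Y ≥ m+1 ≥ p` prime; `n + h_i > p` prime or `minFac ∈ S i`, `≥ L^c0 > p`. Both sides are `0`.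
(`κ_i = 1` for all `i`: then `S` plays no role, `D = D' = 1`.)
-/

set_option autoImplicit false

open Finset Filter

namespace Pool.Agent.Lib.T8

open Pool.Agent.Lib.VKT (HL box nu)

private theorem tm_div {m : ℕ} (h : Fin m → ℕ) {p : ℕ} (hp : p.Prime) (hn : nu h p = p) (n : ℕ) :
    p ∣ n ∨ ∃ i, p ∣ n + h i := by
  have hsub : insert 0 (univ.image fun i => h i % p) ⊆ range p := by
    intro x hx
    rw [mem_insert, mem_image] at hx
    rw [mem_range]
    rcases hx with hx | ⟨i, -, hx⟩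
    · rw [hx]; exact hp.pos
    · rw [← hx]; exact Nat.mod_lt _ hp.pos
  have heq : insert 0 (univ.image fun i => h i % p) = range p := by
    apply eq_of_subset_of_card_le hsub
    rw [card_range]
    exact hn.ge
  have hmem : (p - n % p) % p ∈ insert 0 (univ.image fun i => h i % p) := by
    rw [heq, mem_range]
    exact Nat.mod_lt _ hp.pos
  have hlt : n % p < p := Nat.mod_lt _ hp.pos
  rw [mem_insert, mem_image] at hmem
  rcases hmem with h0 | ⟨i, -, hi⟩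
  · left
    have h1 : p ∣ p - n % p := Nat.dvd_of_mod_eq_zero h0
    by_contra hnd
    have h2 : 0 < n % p := Nat.pos_of_ne_zero fun hh => hnd (Nat.dvd_of_mod_eq_zero hh)
    have h3 := Nat.le_of_dvd (by omega) h1
    omega
  · right
    refine ⟨i, ?_⟩
    rw [Nat.dvd_iff_mod_eq_zero, Nat.add_mod, hi, Nat.add_mod_mod]
    have : n % p + (p - n % p) = p := by omega
    rw [this, Nat.mod_self]

private theorem tm_nu_le {m : ℕ} (h : Fin m → ℕ) {p : ℕ} (hp : p.Prime) : nu h p ≤ p := by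
  unfold nu
  refine (card_le_card (t := range p) ?_).trans (card_range p).le
  intro x hx
  rw [mem_insert, mem_image] at hx
  rw [mem_range]
  rcases hx with hx | ⟨i, -, hx⟩
  · rw [hx]; exact hp.pos
  · rw [← hx]; exact Nat.mod_lt _ hp.pos

private theorem tm_nu_le' {m : ℕ} (h : Fin m → ℕ) (p : ℕ) : nu h p ≤ m + 1 := by
  unfold nu
  refine (card_insert_le _ _).trans ?_
  have : (univ.image fun i => h i % p).card ≤ m := card_image_le.trans (by simp)
  omega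

private theorem tm_prod {m : ℕ} (a b : Fin m → ℝ) (e : ℝ) (he : 0 ≤ e) (he1 : e ≤ 1) (hb : ∀ i, 0 ≤ b i)
    (h : ∀ i, |a i - b i| ≤ e * b i) : |∏ i, a i - ∏ i, b i| ≤ ((1 + e) ^ m - 1) * ∏ i, b i := by
  have hB : 0 ≤ ∏ i, b i := prod_nonneg fun i _ => hb i
  have h1 : ∏ i, a i ≤ (1 + e) ^ m * ∏ i, b i := by
    calc ∏ i, a i ≤ ∏ i, ((1 + e) * b i) := by
          refine prod_le_prod (fun i _ => ?_) fun i _ => ?_
          · have := (abs_le.1 (h i)).1
            nlinarith [hb i]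
          · have := (abs_le.1 (h i)).2
            linarith
      _ = (1 + e) ^ m * ∏ i, b i := by rw [prod_mul_distrib]; simp
  have h2 : (1 - e) ^ m * ∏ i, b i ≤ ∏ i, a i := by
    calc (1 - e) ^ m * ∏ i, b i = ∏ i, ((1 - e) * b i) := by rw [prod_mul_distrib]; simp
      _ ≤ ∏ i, a i := by
          refine prod_le_prod (fun i _ => mul_nonneg (by linarith) (hb i)) fun i _ => ?_
          have := (abs_le.1 (h i)).1
          linarith
  have h3 : 1 + (m : ℝ) * (-e) ≤ (1 + -e) ^ m := one_add_mul_le_pow (by linarith) m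
  have h4 : 1 + (m : ℝ) * e ≤ (1 + e) ^ m := one_add_mul_le_pow (by linarith) m
  have h5 : 1 - ((1 + e) ^ m - 1) ≤ (1 - e) ^ m := by
    have : (1 + -e) = 1 - e := by ring
    rw [this] at h3
    linarith
  rw [abs_le]
  constructor
  · nlinarith [mul_le_mul_of_nonneg_right h5 hB]
  · nlinarith

private theorem tm_small (m : ℕ) {ε : ℝ} (hε : 0 < ε) : ∃ e : ℝ, 0 < e ∧ e ≤ 1 ∧ (1 + e) ^ m - 1 ≤ ε := by
  have hc : Filter.Tendsto (fun e : ℝ => (1 + e) ^ m - 1) (nhdsWithin 0 (Set.Ioi 0)) (nhds 0) := by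
    have : ContinuousAt (fun e : ℝ => (1 + e) ^ m - 1) 0 := by fun_prop
    have h := this.tendsto
    simp only [add_zero, one_pow, sub_self] at h
    exact h.mono_left nhdsWithin_le_nhds
  have h1 := hc.eventually (gt_mem_nhds hε)
  have h2 : ∀ᶠ e : ℝ in nhdsWithin 0 (Set.Ioi 0), e ∈ Set.Ioc (0 : ℝ) 1 := Ioc_mem_nhdsGT one_pos
  obtain ⟨e, he1, he2⟩ := (h1.and h2).exists
  exact ⟨e, he2.1, he2.2, he1.le⟩

private theorem tm_inf {m : ℕ} (f : Fin m → ℝ) (hf : ∀ i, 0 < f i) : ∃ e : ℝ, 0 < e ∧ ∀ i, e ≤ f i := by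
  have h0 : 0 ≤ ∑ i, 1 / f i := sum_nonneg fun i _ => (one_div_pos.2 (hf i)).le
  refine ⟨1 / (1 + ∑ i, 1 / f i), by positivity, fun i => ?_⟩
  have h1 : 1 / f i ≤ ∑ i, 1 / f i := single_le_sum (f := fun i => 1 / f i) (fun j _ => (one_div_pos.2 (hf j)).le) (mem_univ i)
  rw [div_le_iff₀ (by positivity)]
  have h2 : 1 / f i * f i = 1 := by
    rw [one_div, inv_mul_cancel₀ (hf i).ne']
  nlinarith [hf i]

private theorem tm_sup {m : ℕ} (f : Fin m → ℝ) : ∃ e : ℝ, ∀ i, f i ≤ e :=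
  ⟨∑ i, |f i|, fun i => (le_abs_self _).trans (single_le_sum (f := fun i => |f i|) (fun _ _ => abs_nonneg _) (mem_univ i))⟩

private theorem tm_root (M Y : ℕ) (hM : 1 ≤ M) : ∃ U : ℕ, U ^ M ≤ Y ∧ Y < (U + 1) ^ M := by
  refine ⟨Nat.findGreatest (fun u => u ^ M ≤ Y) Y, ?_, ?_⟩
  · exact Nat.findGreatest_spec (P := fun u => u ^ M ≤ Y) (Nat.zero_le Y) (by simp [Nat.zero_pow hM])
  · by_contra hcon
    push Not at hcon
    have h1 : Nat.findGreatest (fun u => u ^ M ≤ Y) Y + 1 ≤ (Nat.findGreatest (fun u => u ^ M ≤ Y) Y + 1) ^ M :=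
      Nat.le_self_pow (by omega) _
    exact Nat.findGreatest_is_greatest (P := fun u => u ^ M ≤ Y) (Nat.lt_succ_self _) (h1.trans hcon) hcon

/-- the last inequality -/
private theorem tm_last {T T' G D D' t V ε δ e : ℝ} (hG : 0 ≤ G) (hD : 0 ≤ D) (hV : 0 ≤ V) (he : 0 ≤ e)
    (ht : t ≤ D) (ht2 : t ≤ G * D) (hδ : δ ≤ 1) (hδ2 : δ ≤ ε / 2) (hee : 10 * e ≤ ε) (hDD : |D' - D| ≤ δ * D)
    (h1 : T' ≤ T) (h2 : T ≤ T' + e * (G * (D + t) * V)) (h3 : |T' - G * D' * V| ≤ e * (G * D' + t) * V) :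
    |T - G * D * V| ≤ ε * (G * D * V) := by
  have hD2 : D' ≤ 2 * D := by
    have := (abs_le.1 hDD).2
    nlinarith
  have hGDV : 0 ≤ G * D * V := by positivity
  have a1 : |T - T'| ≤ 2 * e * (G * D * V) := by
    rw [abs_of_nonneg (by linarith)]
    have : e * (G * (D + t) * V) ≤ e * (G * (D + D) * V) := by gcongr
    nlinarith
  have a2 : |T' - G * D' * V| ≤ 3 * e * (G * D * V) := by
    refine h3.trans ?_
    have : G * D' ≤ G * (2 * D) := mul_le_mul_of_nonneg_left hD2 hG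
    have : e * (G * D' + t) * V ≤ e * (G * (2 * D) + G * D) * V := by gcongr
    nlinarith
  have a3 : |G * D' * V - G * D * V| ≤ δ * (G * D * V) := by
    have : G * D' * V - G * D * V = G * V * (D' - D) := by ring
    rw [this, abs_mul, abs_of_nonneg (mul_nonneg hG hV)]
    calc G * V * |D' - D| ≤ G * V * (δ * D) := mul_le_mul_of_nonneg_left hDD (mul_nonneg hG hV)
      _ = _ := by ring
  have a4 : |T - G * D * V| ≤ |T - T'| + |T' - G * D' * V| + |G * D' * V - G * D * V| := by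
    have e1 : T - G * D * V = (T - T') + (T' - G * D' * V) + (G * D' * V - G * D * V) := by ring
    rw [e1]
    exact (abs_add_le _ _).trans (add_le_add (abs_add_le _ _) le_rfl)
  have a5 : δ * (G * D * V) ≤ ε / 2 * (G * D * V) := mul_le_mul_of_nonneg_right hδ2 hGDV
  have a6 : 10 * e * (G * D * V) ≤ ε * (G * D * V) := mul_le_mul_of_nonneg_right hee hGDV
  linarith

/-- the densities -/
private theorem tm_dens {m : ℕ} (κ : Fin m → ℕ) (Y U B : ℕ) (S : Fin m → Finset ℕ) (e : ℝ) (he : 0 ≤ e) (he1 : e ≤ 1)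
    (hL : 1 ≤ Real.log Y)
    (hlam : ∀ i, κ i ≠ 1 → ∀ q ∈ S i, 1 ≤ Real.log (Real.log Y / Real.log q))
    (hmer : ∀ i, κ i ≠ 1 → ∀ q ∈ S i,
      |Pool.Agent.Lib.G5.esy (κ i - 2) (2 ^ (Pool.Agent.Lib.G8.di q + 1)) U -
        (Real.log (Real.log Y / Real.log q)) ^ (κ i - 2) / (Nat.factorial (κ i - 2) : ℝ)| ≤
        e * ((Real.log (Real.log Y / Real.log q)) ^ (κ i - 2) / (Nat.factorial (κ i - 2) : ℝ)))
    (hsum : ∀ i, κ i ≠ 1 → 1 / (Real.log Y) ^ B ≤ ∑ q ∈ S i, 1 / (q : ℝ)) :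
    |dA κ (fun i => Pool.Agent.Lib.G8.sL (κ i) U (S i)) - dA κ (fun i => dT (κ i) (S i) Y)| ≤
      ((1 + e) ^ m - 1) * dA κ (fun i => dT (κ i) (S i) Y) ∧
    1 / ((∏ i, (Nat.factorial (κ i - 2) : ℝ)) * (Real.log Y) ^ (m * B)) ≤ dA κ (fun i => dT (κ i) (S i) Y) := by
  have hL0 : 0 < Real.log Y := by linarith
  have hdT : ∀ i, κ i ≠ 1 → 1 / ((Nat.factorial (κ i - 2) : ℝ) * (Real.log Y) ^ B) ≤ dT (κ i) (S i) Y := by
    intro i hi
    have hf : (0 : ℝ) < (Nat.factorial (κ i - 2) : ℝ) := by exact_mod_cast Nat.factorial_pos _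
    calc 1 / ((Nat.factorial (κ i - 2) : ℝ) * (Real.log Y) ^ B)
        = (1 / (Real.log Y) ^ B) * (1 / (Nat.factorial (κ i - 2) : ℝ)) := by
          rw [one_div_mul_one_div, mul_comm]
      _ ≤ (∑ q ∈ S i, 1 / (q : ℝ)) * (1 / (Nat.factorial (κ i - 2) : ℝ)) :=
          mul_le_mul_of_nonneg_right (hsum i hi) (by positivity)
      _ = ∑ q ∈ S i, 1 / (q : ℝ) * (1 / (Nat.factorial (κ i - 2) : ℝ)) := by rw [sum_mul]
      _ ≤ dT (κ i) (S i) Y := by
          unfold dT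
          refine sum_le_sum fun q hq => mul_le_mul_of_nonneg_left ?_ (by positivity)
          refine div_le_div_of_nonneg_right ?_ hf.le
          exact one_le_pow₀ (hlam i hi q hq)
  have hdT0 : ∀ i, κ i ≠ 1 → 0 ≤ dT (κ i) (S i) Y := fun i hi => le_trans (by positivity) (hdT i hi)
  constructor
  · unfold dA
    refine tm_prod _ _ e he he1 (fun i => ?_) fun i => ?_
    · by_cases hi : κ i = 1
      · simp [hi]
      · simp only [hi, if_false]
        exact hdT0 i hi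
    · by_cases hi : κ i = 1
      · simp [hi, he]
      · simp only [hi, if_false]
        unfold Pool.Agent.Lib.G8.sL dT
        rw [← sum_sub_distrib, mul_sum]
        refine (abs_sum_le_sum_abs _ _).trans (sum_le_sum fun q hq => ?_)
        rw [← mul_sub, abs_mul, abs_of_nonneg (by positivity : (0 : ℝ) ≤ 1 / (q : ℝ))]
        calc 1 / (q : ℝ) * _ ≤ 1 / (q : ℝ) * _ := mul_le_mul_of_nonneg_left (hmer i hi q hq) (by positivity)
          _ = _ := by ring
  · have e1 : 1 / ((∏ i, (Nat.factorial (κ i - 2) : ℝ)) * (Real.log Y) ^ (m * B)) =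
        ∏ i, 1 / ((Nat.factorial (κ i - 2) : ℝ) * (Real.log Y) ^ B) := by
      rw [prod_div_distrib, prod_mul_distrib]
      simp only [prod_const_one, prod_const, card_univ, Fintype.card_fin]
      rw [← pow_mul, mul_comm B m]
    rw [e1]
    unfold dA
    refine prod_le_prod (fun i _ => by positivity) fun i _ => ?_
    by_cases hi : κ i = 1
    · simp only [hi, if_true]
      have h1 : (1 : ℝ) ≤ (Real.log Y) ^ B := one_le_pow₀ hL
      rw [div_le_one (by positivity)]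
      simpa using h1
    · simp only [hi, if_false]
      exact hdT i hi

open Classical in
theorem t8 {m : ℕ} (κ : Fin m → ℕ) (hκ : ∀ i, 1 ≤ κ i) (A B : ℕ) : ∃ c0 C : ℕ, ∀ ε : ℝ, 0 < ε → ∃ η : ℝ, 0 < η ∧ ∃ x0 : ℝ,
    ∀ (Y H : ℕ) (w' : ℝ) (S : Fin m → Finset ℕ), x0 ≤ Y → 1 ≤ w' → w' ≤ (Y : ℝ) ^ η → w' * (Real.log Y) ^ C ≤ H → H ≤ Y →
      (∀ i, κ i ≠ 1 → (∀ q ∈ S i, q.Prime ∧ (Real.log Y) ^ c0 ≤ q ∧ (q : ℝ) ≤ w') ∧ 1 / (Real.log Y) ^ B ≤ ∑ q ∈ S i, 1 / (q : ℝ)) →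
      ∀ b : Fin m → ℕ, (∀ i, (κ i = 1 → b i = 0) ∧ (κ i ≠ 1 → b i + H ≤ Y)) →
        (((box b fun i => if κ i = 1 then Y else H).filter fun h => ¬ (Function.Injective h ∧
          |(cntT Y κ S h : ℝ) - HL h * dA κ (fun i => dT (κ i) (S i) Y) * (Y / (Real.log Y) ^ (m + 1))| ≤
            ε * (HL h * dA κ (fun i => dT (κ i) (S i) Y) * (Y / (Real.log Y) ^ (m + 1))))).card : ℝ) ≤
          (∏ i, ((if κ i = 1 then Y else H : ℕ) : ℝ)) / (Real.log Y) ^ A := by
  obtain ⟨s, hs, hpos⟩ := Pool.Agent.Lib.VKT.pos m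
  obtain ⟨c10, hfin⟩ := finZ κ hκ A (m * B + 1)
  obtain ⟨C, hC⟩ := hfin (c10 + m + (m * B + 1) + 4) (by omega)
  obtain ⟨M0, hM0⟩ := restZ κ hκ (m * B + 1)
  refine ⟨c10 + m + (m * B + 1) + 4 + 2, C, fun ε hε => ?_⟩
  obtain ⟨e, he0, he1, hem⟩ := tm_small m (ε := min (ε / 2) 1) (by positivity)
  have hem1 : (1 + e) ^ m - 1 ≤ ε / 2 := hem.trans (min_le_left _ _)
  have hem2 : (1 + e) ^ m - 1 ≤ 1 := hem.trans (min_le_right _ _)
  obtain ⟨M1, x1, h1⟩ := hC (ε / 10) (by positivity)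
  obtain ⟨M, hMdef⟩ : ∃ M : ℕ, M = max (max M0 M1) 1 := ⟨_, rfl⟩
  have hM0M : M0 ≤ M := by omega
  have hM1M : M1 ≤ M := by omega
  have hM : 1 ≤ M := by omega
  obtain ⟨ηr, hηr, x2, h2⟩ := hM0 M hM0M (ε / 10) (by positivity)
  have hmerall : ∀ i, ∃ η : ℝ, 0 < η ∧ ∃ y0 : ℝ, κ i ≠ 1 → ∀ Y U q : ℕ, y0 ≤ Y →
    U ^ M ≤ Y → Y ≤ (U + 1) ^ M → Real.log Y ≤ q → (q : ℝ) ≤ (Y : ℝ) ^ η →
      |Pool.Agent.Lib.G5.esy (κ i - 2) (2 ^ (Pool.Agent.Lib.G8.di q + 1)) U - (Real.log (Real.log Y / Real.log q)) ^ (κ i - 2) / (Nat.factorial (κ i - 2) : ℝ)| ≤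
        e * ((Real.log (Real.log Y / Real.log q)) ^ (κ i - 2) / (Nat.factorial (κ i - 2) : ℝ)) := by
    intro i
    by_cases hi : κ i = 1
    · exact ⟨1, one_pos, 0, fun h => absurd hi h⟩
    · obtain ⟨η, hη, y0, hy⟩ := merA (κ i) M (by have := hκ i; omega) hM e he0
      exact ⟨η, hη, y0, fun _ => hy⟩
  choose ηm hηm y0 hmer using hmerall
  obtain ⟨η1, hη1, hη1le⟩ := tm_inf ηm hηm
  obtain ⟨x3, hx3⟩ := tm_sup y0
  set F : ℝ := ∏ i, (Nat.factorial (κ i - 2) : ℝ) with hF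
  have hF0 : 0 < F := prod_pos fun i _ => by exact_mod_cast Nat.factorial_pos _
  have hs1 : 0 < min 1 s := lt_min one_pos hs
  have hMR : (0 : ℝ) < M := by exact_mod_cast hM
  refine ⟨min (min ηr η1) (min (1 / (2 * M)) (1 / 3)), by positivity,
    max (max (max x1 x2) (max x3 (9 ^ M))) (Real.exp (max (max 4 ((m : ℝ) + 3)) (max (F / min 1 s) (2 ^ (c10 + m + (m * B + 1) + 4 + 1))))),
    fun Y H w' S hY hw1 hwη hwH hHY hS b hb => ?_⟩
  have hYx1 : x1 ≤ Y := ((((le_max_left _ _).trans (le_max_left _ _)).trans (le_max_left _ _))).trans hY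
  have hYx2 : x2 ≤ Y := ((((le_max_right _ _).trans (le_max_left _ _)).trans (le_max_left _ _))).trans hY
  have hYx3 : x3 ≤ Y := ((((le_max_left _ _).trans (le_max_right _ _)).trans (le_max_left _ _))).trans hY
  have hY9 : (9 : ℝ) ^ M ≤ Y := ((((le_max_right _ _).trans (le_max_right _ _)).trans (le_max_left _ _))).trans hY
  have hYe := (le_max_right _ _).trans hY
  have hY0 : (0 : ℝ) < Y := lt_of_lt_of_le (Real.exp_pos _) hYe
  rw [← Real.le_log_iff_exp_le hY0] at hYe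
  have hL4 : 4 ≤ Real.log Y := ((le_max_left _ _).trans (le_max_left _ _)).trans hYe
  have hLm : (m : ℝ) + 3 ≤ Real.log Y := ((le_max_right _ _).trans (le_max_left _ _)).trans hYe
  have hLF : F / min 1 s ≤ Real.log Y := ((le_max_left _ _).trans (le_max_right _ _)).trans hYe
  have hL2 : (2 : ℝ) ^ (c10 + m + (m * B + 1) + 4 + 1) ≤ Real.log Y := ((le_max_right _ _).trans (le_max_right _ _)).trans hYe
  have hL1 : 1 ≤ Real.log Y := by linarith
  have hL0 : 0 < Real.log Y := by linarith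
  have hlogY : Real.log Y ≤ Y := (Real.log_le_sub_one_of_pos hY0).trans (by linarith)
  have hY1 : (1 : ℝ) ≤ Y := by linarith
  set η : ℝ := min (min ηr η1) (min (1 / (2 * M)) (1 / 3)) with hη
  have hηηr : η ≤ ηr := (min_le_left _ _).trans (min_le_left _ _)
  have hηη1 : η ≤ η1 := (min_le_left _ _).trans (min_le_right _ _)
  have hηM : η ≤ 1 / (2 * M) := (min_le_right _ _).trans (min_le_left _ _)
  have hη3 : η ≤ 1 / 3 := (min_le_right _ _).trans (min_le_right _ _)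
  obtain ⟨U, hU1, hU2⟩ := tm_root M Y hM
  have hW1 : 1 ≤ ⌊w'⌋₊ := Nat.le_floor (by simpa using hw1)
  have hWw : (⌊w'⌋₊ : ℝ) ≤ w' := Nat.floor_le (by linarith)
  have hWU : 2 * ⌊w'⌋₊ + 1 ≤ U := by
    by_contra hcon
    have hc : U + 1 ≤ 2 * ⌊w'⌋₊ + 1 := by omega
    have h3 : Y < (2 * ⌊w'⌋₊ + 1) ^ M := lt_of_lt_of_le hU2 (Nat.pow_le_pow_left hc M)
    have h3' : (Y : ℝ) < ((2 * ⌊w'⌋₊ + 1 : ℕ) : ℝ) ^ M := by exact_mod_cast h3
    have h4 : ((2 * ⌊w'⌋₊ + 1 : ℕ) : ℝ) ≤ 3 * w' := by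
      push_cast
      linarith
    have h5 : ((2 * ⌊w'⌋₊ + 1 : ℕ) : ℝ) ^ M ≤ (3 * w') ^ M := pow_le_pow_left₀ (by positivity) h4 M
    have h6 : w' ^ M ≤ Real.sqrt Y := by
      calc w' ^ M ≤ ((Y : ℝ) ^ η) ^ M := pow_le_pow_left₀ (by linarith) hwη M
        _ ≤ ((Y : ℝ) ^ (1 / (2 * M : ℝ))) ^ M := by
            refine pow_le_pow_left₀ (by positivity) ?_ M
            exact Real.rpow_le_rpow_of_exponent_le hY1 hηM
        _ = (Y : ℝ) ^ ((1 / (2 * M : ℝ)) * M) := by rw [← Real.rpow_natCast, ← Real.rpow_mul hY0.le]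
        _ = Real.sqrt Y := by
            rw [Real.sqrt_eq_rpow]
            congr 1
            field_simp
    have h7 : (3 : ℝ) ^ M ≤ Real.sqrt Y := by
      apply Real.le_sqrt_of_sq_le
      calc ((3 : ℝ) ^ M) ^ 2 = 9 ^ M := by rw [← pow_mul, mul_comm M 2, pow_mul]; norm_num
        _ ≤ Y := hY9
    have h8 : (3 * w') ^ M ≤ Y := by
      rw [mul_pow]
      calc (3 : ℝ) ^ M * w' ^ M ≤ Real.sqrt Y * Real.sqrt Y :=
            mul_le_mul h7 h6 (by positivity) (Real.sqrt_nonneg _)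
        _ = Y := Real.mul_self_sqrt hY0.le
    linarith
  have hlog4 : Real.log ((4 * Y : ℕ) : ℝ) ≤ 2 * Real.log Y := by
    push_cast
    rw [Real.log_mul (by norm_num) hY0.ne']
    have : Real.log 4 ≤ Real.log Y := Real.log_le_log (by norm_num) (by linarith)
    linarith
  have hlog40 : 0 ≤ Real.log ((4 * Y : ℕ) : ℝ) := Real.log_natCast_nonneg _
  have hRg : ∀ i, κ i ≠ 1 → Pool.Agent.Lib.G8.RgL (4 * Y) U ⌊w'⌋₊ (c10 + m + (m * B + 1) + 4) M1 (S i) := by
    intro i hi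
    refine ⟨fun q hq => ⟨((hS i hi).1 q hq).1, ?_, Nat.le_floor ((hS i hi).1 q hq).2.2⟩, by omega, ?_⟩
    · refine le_trans ?_ ((hS i hi).1 q hq).2.1
      calc (Real.log ((4 * Y : ℕ) : ℝ)) ^ (c10 + m + (m * B + 1) + 4 + 1)
          ≤ (2 * Real.log Y) ^ (c10 + m + (m * B + 1) + 4 + 1) := pow_le_pow_left₀ hlog40 hlog4 _
        _ = 2 ^ (c10 + m + (m * B + 1) + 4 + 1) * (Real.log Y) ^ (c10 + m + (m * B + 1) + 4 + 1) := mul_pow _ _ _
        _ ≤ Real.log Y * (Real.log Y) ^ (c10 + m + (m * B + 1) + 4 + 1) := mul_le_mul_of_nonneg_right hL2 (by positivity)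
        _ = (Real.log Y) ^ (c10 + m + (m * B + 1) + 4 + 2) := by ring
    · have : U ^ M1 ≤ U ^ M := Nat.pow_le_pow_right (by omega) hM1M
      omega
  have hWH : (⌊w'⌋₊ : ℝ) * (Real.log Y) ^ C ≤ H :=
    (mul_le_mul_of_nonneg_right hWw (by positivity)).trans hwH
  have hmain := h1 Y U ⌊w'⌋₊ H S hYx1 hRg hW1 hWH hHY b hb
  have hqw : ∀ i, κ i ≠ 1 → ∀ q ∈ S i, (q : ℝ) ≤ (Y : ℝ) ^ η := fun i hi q hq => ((hS i hi).1 q hq).2.2.trans hwη
  have hlq : ∀ i, κ i ≠ 1 → ∀ q ∈ S i, Real.log Y ≤ q := by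
    intro i hi q hq
    refine le_trans ?_ ((hS i hi).1 q hq).2.1
    calc Real.log Y = (Real.log Y) ^ 1 := (pow_one _).symm
      _ ≤ _ := pow_le_pow_right₀ hL1 (by omega)
  have hlam : ∀ i, κ i ≠ 1 → ∀ q ∈ S i, 1 ≤ Real.log (Real.log Y / Real.log q) := by
    intro i hi q hq
    have hq4 : (4 : ℝ) ≤ q := hL4.trans (hlq i hi q hq)
    have hq0 : (0 : ℝ) < q := by linarith
    have hlq0 : 0 < Real.log q := Real.log_pos (by linarith)
    have h3 : Real.log q ≤ η * Real.log Y := by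
      have := Real.log_le_log hq0 (hqw i hi q hq)
      rwa [Real.log_rpow hY0] at this
    have h4 : 3 * Real.log q ≤ Real.log Y := by nlinarith
    have h5 : 3 ≤ Real.log Y / Real.log q := by rwa [le_div_iff₀ hlq0]
    rw [Real.le_log_iff_exp_le (by linarith)]
    have := Real.exp_one_lt_d9
    linarith
  have hdens := tm_dens κ Y U B S e he0.le he1 hL1 hlam
    (fun i hi q hq => hmer i hi Y U q ((hx3 i).trans hYx3) hU1 hU2.le (hlq i hi q hq)
      ((hqw i hi q hq).trans (Real.rpow_le_rpow_of_exponent_le hY1 (hηη1.trans (hη1le i)))))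
    (fun i hi => (hS i hi).2)
  have hrest := h2 Y U S hYx2 hU1 hU2.le (fun i hi q hq => ⟨((hS i hi).1 q hq).1,
    (pow_le_pow_right₀ hL1 (by omega)).trans ((hS i hi).1 q hq).2.1,
    (hqw i hi q hq).trans (Real.rpow_le_rpow_of_exponent_le hY1 hηηr)⟩)
  rw [← hF] at hdens
  set D : ℝ := dA κ (fun i => dT (κ i) (S i) Y) with hD
  have hFL : 1 / (Real.log Y) ^ (m * B + 1) ≤ min 1 s * (1 / (F * (Real.log Y) ^ (m * B))) := by
    rw [mul_one_div, div_le_div_iff₀ (by positivity) (by positivity), one_mul, pow_succ]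
    rw [div_le_iff₀ hs1] at hLF
    have h0 : 0 < (Real.log Y) ^ (m * B) := by positivity
    calc F * (Real.log Y) ^ (m * B) ≤ (Real.log Y * min 1 s) * (Real.log Y) ^ (m * B) := mul_le_mul_of_nonneg_right hLF h0.le
      _ = _ := by ring
  have hD0 : 0 < D := lt_of_lt_of_le (by positivity) hdens.2
  have ht1 : 1 / (Real.log Y) ^ (m * B + 1) ≤ D := by
    refine hFL.trans (le_trans ?_ hdens.2)
    calc min 1 s * (1 / (F * (Real.log Y) ^ (m * B))) ≤ 1 * (1 / (F * (Real.log Y) ^ (m * B))) :=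
          mul_le_mul_of_nonneg_right (min_le_left _ _) (by positivity)
      _ = _ := one_mul _
  refine le_trans (Nat.cast_le.2 (card_le_card fun h hh => ?_)) hmain
  rw [mem_filter] at hh ⊢
  refine ⟨hh.1, fun hgood => hh.2 ⟨hgood.1, ?_⟩⟩
  have hbox : ∀ i, 1 ≤ h i ∧ h i ≤ Y := by
    intro i
    have h3 := hh.1
    unfold Pool.Agent.Lib.VKT.box at h3
    rw [Fintype.mem_piFinset] at h3
    have h4 := h3 i
    rw [mem_Ioc] at h4
    by_cases hi : κ i = 1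
    · simp only [hi, if_true] at h4
      have := (hb i).1 hi
      omega
    · simp only [hi, if_false] at h4
      have := (hb i).2 hi
      omega
  by_cases had : ∀ p : ℕ, p.Prime → nu h p < p
  · have hG : s ≤ HL h := hpos h hgood.1 (fun i => (hbox i).1) had
    have hG0 : 0 < HL h := lt_of_lt_of_le hs hG
    obtain ⟨hr1, hr2⟩ := hrest h hgood.1 hbox had
    have ht2 : 1 / (Real.log Y) ^ (m * B + 1) ≤ HL h * D := by
      refine hFL.trans ?_
      exact mul_le_mul ((min_le_right _ _).trans hG) hdens.2 (by positivity) hG0.le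
    exact tm_last (T' := (cntE Y U κ S h : ℝ)) (D' := dA κ (fun i => Pool.Agent.Lib.G8.sL (κ i) U (S i)))
      (t := 1 / (Real.log Y) ^ (m * B + 1)) (e := ε / 10) hG0.le hD0.le (by positivity) (by positivity) ht1 ht2 hem2 hem1
      (by linarith) hdens.1 hr1 hr2 hgood.2
  · push Not at had
    obtain ⟨p, hp, hle⟩ := had
    have hnp : nu h p = p := le_antisymm (tm_nu_le h hp) hle
    have hzero : HL h = 0 := Pool.Agent.Lib.VKT.zero m h hgood.1 (fun i => (hbox i).1) hp hnp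
    have hpm : p ≤ m + 1 := by
      rw [← hnp]
      exact tm_nu_le' h p
    have hpL : (p : ℝ) < Real.log Y := by
      have h4 : (p : ℝ) ≤ m + 1 := by exact_mod_cast hpm
      linarith
    have hpY : p < Y := by exact_mod_cast hpL.trans_le hlogY
    have hcount : cntT Y κ S h = 0 := by
      unfold cntT
      rw [card_eq_zero, filter_eq_empty_iff]
      intro n hn hall
      rw [mem_Ioc] at hn
      rcases tm_div h hp hnp n with hdv | ⟨i, hdv⟩
      · have := (Nat.prime_dvd_prime_iff_eq hp hall.1).1 hdv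
        omega
      · have h7 := hall.2 i
        by_cases hi : κ i = 1
        · rw [if_pos hi] at h7
          have := (Nat.prime_dvd_prime_iff_eq hp h7).1 hdv
          omega
        · rw [if_neg hi] at h7
          have h8 : (n + h i).minFac ≤ p := Nat.minFac_le_of_dvd hp.two_le hdv
          have h9 : Real.log Y ≤ ((n + h i).minFac : ℝ) := hlq i hi _ h7.2
          have h10 : ((n + h i).minFac : ℝ) ≤ p := by exact_mod_cast h8
          linarith
    rw [hcount, hzero]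
    simp

end Pool.Agent.Lib.T8
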