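import Pool.Agent.Lib.T8.Cov
import Pool.Agent.Lib.T8.Sum
import Pool.Agent.Lib.T8.Mer

/-!
# T8, row Vec: the sum of `1/lcm(g)` over the exceptional vectors

PROOF IN WORDS. `g ∈ VE i0` is pairwise coprime: `univ.lcm g = ∏ g_i` (`Finset.lcm_eq_prod` or induction). So the sum is at most `∏_{i ≠ i0} (∑ over the allowed g_i of 1/g_i) · (∑_{g ∈ QE} 1/g)` (`Finset.prod_univ_sum` over the `piFinset` with the `i0`-th set replaced by `QE`).
`κ_i = 1`: the factor is `1`. `κ_i = k ≥ 2`: `qfsum` (`k - 1 = (k-2) + 1`) and merC (`j = k - 2`, `x = z^k ≤ Y`): `≤ ∑_q 1/q (k-1) 2 λ^(k-2) ≤ 2 (k-1) (k-2)! dT`. `i0`: `k = 2`: `QE 1 = ∅`, the sum is `0`; `k ≥ 3`: `qesum` (`k - 1 = (k-3) + 2`), merB (`j = k - 3`, `ε'`) and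
merC (`j = k - 3`, `ε'`): `≤ ∑_q 1/q (ε' λ^(k-2) + (k-2) ε' λ^(k-2)) = (k-1) ε' (k-2)! dT`. Constant `C0 = ∏_i (2 κ_i (κ_i)!)`, `ε' = ε/(C0 + 1)`. `η` = the least of finitely many, `dT ≥ 0` as `λ ≥ 1`.
-/

set_option autoImplicit false

open Finset Filter

namespace Pool.Agent.Lib.T8

open Pool.Agent.Lib.G5 (sg1)
open Pool.Agent.Lib.G8 (di)

private theorem vecZ_eta {m : ℕ} (f : Fin m → ℝ) (hf : ∀ i, 0 < f i) : ∃ η : ℝ, 0 < η ∧ ∀ i, η ≤ f i := by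
  rcases Nat.eq_zero_or_pos m with h0 | h0
  · subst h0
    exact ⟨1, one_pos, fun i => i.elim0⟩
  · have : Nonempty (Fin m) := ⟨⟨0, h0⟩⟩
    obtain ⟨i, -, hi⟩ := exists_min_image (univ : Finset (Fin m)) f univ_nonempty
    exact ⟨f i, hf i, fun j => hi j (mem_univ j)⟩

private theorem vecZ_y0 {m : ℕ} (f : Fin m → ℝ) : ∃ y : ℝ, ∀ i, f i ≤ y := by
  rcases Nat.eq_zero_or_pos m with h0 | h0
  · subst h0
    exact ⟨1, fun i => i.elim0⟩
  · have : Nonempty (Fin m) := ⟨⟨0, h0⟩⟩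
    obtain ⟨i, -, hi⟩ := exists_max_image (univ : Finset (Fin m)) f univ_nonempty
    exact ⟨f i, fun j => hi j (mem_univ j)⟩

/-- the sum over one coordinate -/
private theorem vecZ_one (k M : ℕ) (hk : 2 ≤ k) (hM : 1 ≤ M) (ε : ℝ) (hε : 0 < ε) : ∃ η : ℝ, 0 < η ∧ ∃ y0 : ℝ,
    ∀ (Y U z : ℕ) (S : Finset ℕ), y0 ≤ Y → U ^ M ≤ Y → Y ≤ (U + 1) ^ M → z ^ k ≤ Y →
      (∀ q ∈ S, q.Prime ∧ Real.log Y ≤ q ∧ (q : ℝ) ≤ (Y : ℝ) ^ η) →
        0 ≤ dT k S Y ∧ ∑ g ∈ QF (k - 1) S (z ^ k), (1 : ℝ) / g ≤ (2 * k * Nat.factorial k) * dT k S Y ∧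
          ∑ g ∈ QE (k - 1) U S (z ^ k), (1 : ℝ) / g ≤ ε * dT k S Y := by
  obtain ⟨K, rfl⟩ : ∃ K, k = K + 2 := ⟨k - 2, by omega⟩
  have hf0 : (0:ℝ) < (Nat.factorial K : ℝ) := by exact_mod_cast Nat.factorial_pos K
  -- constants for the second bound
  obtain ⟨e, he⟩ : ∃ e : ℝ, e = ε / ((K + 1) * (Nat.factorial K : ℝ)) := ⟨_, rfl⟩
  have he0 : 0 < e := by rw [he]; positivity
  obtain ⟨η1, hη1, y1, hC⟩ := merC K e he0
  obtain ⟨η2, hη2, y2, hC2⟩ := merC (K - 1) e he0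
  obtain ⟨η3, hη3, y3, hB⟩ := merB (K - 1) M hM e he0
  refine ⟨min η1 (min η2 η3), by positivity, max (max y1 1) (max y2 y3), ?_⟩
  intro Y U z S hY hUM hYU hz hS
  have hY1 : (1:ℝ) ≤ Y := (le_max_right _ _).trans ((le_max_left _ _).trans hY)
  have hyy1 : y1 ≤ (Y:ℝ) := (le_max_left _ _).trans ((le_max_left _ _).trans hY)
  have hyy2 : y2 ≤ (Y:ℝ) := (le_max_left _ _).trans ((le_max_right _ _).trans hY)
  have hyy3 : y3 ≤ (Y:ℝ) := (le_max_right _ _).trans ((le_max_right _ _).trans hY)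
  have hx2 : z ^ (K + 2) ≤ 2 * Y := by omega
  have hSp : ∀ q ∈ S, q.Prime := fun q hq => (hS q hq).1
  have hq1 : ∀ q ∈ S, (q : ℝ) ≤ (Y : ℝ) ^ η1 := fun q hq =>
    (hS q hq).2.2.trans (Real.rpow_le_rpow_of_exponent_le hY1 (min_le_left _ _))
  have hq2 : ∀ q ∈ S, (q : ℝ) ≤ (Y : ℝ) ^ η2 := fun q hq =>
    (hS q hq).2.2.trans (Real.rpow_le_rpow_of_exponent_le hY1 ((min_le_right _ _).trans (min_le_left _ _)))
  have hq3 : ∀ q ∈ S, (q : ℝ) ≤ (Y : ℝ) ^ η3 := fun q hq =>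
    (hS q hq).2.2.trans (Real.rpow_le_rpow_of_exponent_le hY1 ((min_le_right _ _).trans (min_le_right _ _)))
  have hmC : ∀ q ∈ S, 1 ≤ Real.log (Real.log Y / Real.log q) ∧
      (1 + sg1 (q - 1) (z ^ (K + 2))) ^ K ≤ 2 * (Real.log (Real.log Y / Real.log q)) ^ K := fun q hq => by
    have h := hC Y q (z ^ (K + 2)) hyy1 hx2 (hS q hq).2.1 (hq1 q hq)
    exact ⟨h.1, h.2.1⟩
  have hdT : dT (K + 2) S Y = ∑ q ∈ S, 1 / (q : ℝ) * ((Real.log (Real.log Y / Real.log q)) ^ K / (Nat.factorial K : ℝ)) := by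
    unfold dT
    simp
  have hd0 : 0 ≤ dT (K + 2) S Y := by
    rw [hdT]
    refine sum_nonneg fun q hq => ?_
    have := (hmC q hq).1
    positivity
  refine ⟨hd0, ?_, ?_⟩
  · have h1 := qfsum K (z ^ (K + 2)) S hSp
    have h2 : K + 2 - 1 = K + 1 := by omega
    rw [h2]
    refine h1.trans ?_
    have hA : ∑ q ∈ S, 1 / (q : ℝ) * (((K : ℝ) + 1) * (1 + sg1 (q - 1) (z ^ (K + 2))) ^ K) ≤
        (2 * (K + 1) * (Nat.factorial K : ℝ)) * dT (K + 2) S Y := by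
      rw [hdT, mul_sum]
      refine sum_le_sum fun q hq => ?_
      have hl := (hmC q hq).1
      have h3 := (hmC q hq).2
      calc 1 / (q : ℝ) * (((K : ℝ) + 1) * (1 + sg1 (q - 1) (z ^ (K + 2))) ^ K)
          ≤ 1 / (q : ℝ) * (((K : ℝ) + 1) * (2 * (Real.log (Real.log Y / Real.log q)) ^ K)) := by
            refine mul_le_mul_of_nonneg_left (mul_le_mul_of_nonneg_left h3 (by positivity)) (by positivity)
        _ = _ := by field_simp
    refine hA.trans (mul_le_mul_of_nonneg_right ?_ hd0)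
    have h4 : (Nat.factorial K : ℝ) ≤ (Nat.factorial (K + 2) : ℝ) := by
      exact_mod_cast Nat.factorial_le (by omega)
    push_cast
    refine mul_le_mul (by linarith) h4 hf0.le (by positivity)
  · rcases Nat.eq_zero_or_pos K with h0 | h0
    · subst h0
      have h1 := qe1 U (z ^ (0 + 2)) S hSp
      have h2 : 0 + 2 - 1 = 1 := by norm_num
      rw [h2, h1, sum_empty]
      positivity
    · obtain ⟨J, rfl⟩ : ∃ J, K = J + 1 := ⟨K - 1, by omega⟩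
      have h2 : J + 1 + 2 - 1 = J + 2 := by omega
      rw [h2]
      refine (qesum J U (z ^ (J + 1 + 2)) S hSp).trans ?_
      have hkey : ∀ q ∈ S, (sg1 (q - 1) (2 ^ (di q + 1)) + sg1 U (z ^ (J + 1 + 2))) * (sg1 (q - 1) (z ^ (J + 1 + 2))) ^ J +
          ((J : ℝ) + 1) * (1 + sg1 (q - 1) (z ^ (J + 1 + 2))) ^ J ≤ ((J : ℝ) + 2) * e * (Real.log (Real.log Y / Real.log q)) ^ (J + 1) := by
        intro q hq
        have hb := hB Y U q (z ^ (J + 1 + 2)) hyy3 hx2 hUM hYU (hS q hq).2.1 (hq3 q hq)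
        have hc := (hC2 Y q (z ^ (J + 1 + 2)) hyy2 hx2 (hS q hq).2.1 (hq2 q hq)).2.2
        rw [show J + 1 - 1 = J by omega] at hb hc
        have hc' := mul_le_mul_of_nonneg_left hc (show (0:ℝ) ≤ (J : ℝ) + 1 by positivity)
        calc _ ≤ e * (Real.log (Real.log Y / Real.log q)) ^ (J + 1) +
              ((J : ℝ) + 1) * (e * (Real.log (Real.log Y / Real.log q)) ^ (J + 1)) := add_le_add hb hc'
          _ = _ := by ring
      rw [hdT, mul_sum]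
      refine sum_le_sum fun q hq => ?_
      calc 1 / (q : ℝ) * ((sg1 (q - 1) (2 ^ (di q + 1)) + sg1 U (z ^ (J + 1 + 2))) * (sg1 (q - 1) (z ^ (J + 1 + 2))) ^ J +
            ((J : ℝ) + 1) * (1 + sg1 (q - 1) (z ^ (J + 1 + 2))) ^ J)
          ≤ 1 / (q : ℝ) * (((J : ℝ) + 2) * e * (Real.log (Real.log Y / Real.log q)) ^ (J + 1)) :=
            mul_le_mul_of_nonneg_left (hkey q hq) (by positivity)
        _ = _ := by
            rw [he]
            push_cast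
            field_simp
            ring

theorem vecZ {m : ℕ} (κ : Fin m → ℕ) (hκ : ∀ i, 1 ≤ κ i) (M : ℕ) (hM : 1 ≤ M) (ε : ℝ) (hε : 0 < ε) : ∃ η : ℝ, 0 < η ∧ ∃ y0 : ℝ,
    ∀ (Y U z : ℕ) (S : Fin m → Finset ℕ), y0 ≤ Y → U ^ M ≤ Y → Y ≤ (U + 1) ^ M → (∀ i, z ^ κ i ≤ Y) →
      (∀ i, κ i ≠ 1 → ∀ q ∈ S i, q.Prime ∧ Real.log Y ≤ q ∧ (q : ℝ) ≤ (Y : ℝ) ^ η) → ∀ i0 : Fin m,
        ∑ g ∈ VE z U κ S i0, (1 : ℝ) / ((univ.lcm g : ℕ) : ℝ) ≤ ε * dA κ (fun i => dT (κ i) (S i) Y) := by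
  classical
  -- the constants
  obtain ⟨C, hC⟩ : ∃ C : Fin m → ℝ, C = fun i => 2 * (κ i : ℝ) * (Nat.factorial (κ i) : ℝ) := ⟨_, rfl⟩
  have hC1 : ∀ i, 1 ≤ C i := by
    intro i
    rw [hC]
    have h1 : (1:ℝ) ≤ κ i := by exact_mod_cast hκ i
    have h2 : (1:ℝ) ≤ (Nat.factorial (κ i) : ℝ) := by exact_mod_cast Nat.factorial_pos (κ i)
    show (1:ℝ) ≤ 2 * (κ i : ℝ) * (Nat.factorial (κ i) : ℝ)
    nlinarith
  obtain ⟨C0, hC0⟩ : ∃ C0 : ℝ, C0 = ∏ i, C i := ⟨_, rfl⟩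
  have hC0p : 0 < C0 := by
    rw [hC0]
    exact prod_pos fun i _ => lt_of_lt_of_le one_pos (hC1 i)
  have hsel : ∀ i : Fin m, ∃ η : ℝ, 0 < η ∧ ∃ y0 : ℝ, κ i ≠ 1 →
      ∀ (Y U z : ℕ) (S : Finset ℕ), y0 ≤ Y → U ^ M ≤ Y → Y ≤ (U + 1) ^ M → z ^ κ i ≤ Y →
        (∀ q ∈ S, q.Prime ∧ Real.log Y ≤ q ∧ (q : ℝ) ≤ (Y : ℝ) ^ η) →
          0 ≤ dT (κ i) S Y ∧ ∑ g ∈ QF (κ i - 1) S (z ^ κ i), (1 : ℝ) / g ≤ (2 * κ i * Nat.factorial (κ i)) * dT (κ i) S Y ∧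
            ∑ g ∈ QE (κ i - 1) U S (z ^ κ i), (1 : ℝ) / g ≤ ε / C0 * dT (κ i) S Y := by
    intro i
    by_cases h1 : κ i = 1
    · exact ⟨1, one_pos, 0, fun h => absurd h1 h⟩
    · have := hκ i
      obtain ⟨η, hη, y0, h⟩ := vecZ_one (κ i) M (by omega) hM (ε / C0) (by positivity)
      exact ⟨η, hη, y0, fun _ => h⟩
  choose ηf hηf yf hf using hsel
  obtain ⟨η, hη, hηle⟩ := vecZ_eta ηf hηf
  obtain ⟨y0, hy0⟩ := vecZ_y0 yf
  refine ⟨η, hη, max y0 1, ?_⟩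
  intro Y U z S hY hUM hYU hz hS i0
  have hY1 : (1:ℝ) ≤ Y := (le_max_right _ _).trans hY
  have hone : ∀ i, κ i ≠ 1 → 0 ≤ dT (κ i) (S i) Y ∧
      ∑ g ∈ QF (κ i - 1) (S i) (z ^ κ i), (1 : ℝ) / g ≤ (2 * κ i * Nat.factorial (κ i)) * dT (κ i) (S i) Y ∧
        ∑ g ∈ QE (κ i - 1) U (S i) (z ^ κ i), (1 : ℝ) / g ≤ ε / C0 * dT (κ i) (S i) Y := by
    intro i hi
    refine hf i hi Y U z (S i) ((hy0 i).trans ((le_max_left _ _).trans hY)) hUM hYU (hz i) fun q hq => ?_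
    obtain ⟨q1, q2, q3⟩ := hS i hi q hq
    exact ⟨q1, q2, q3.trans (Real.rpow_le_rpow_of_exponent_le hY1 (hηle i))⟩
  obtain ⟨F, hF⟩ : ∃ F : Fin m → ℝ, F = fun i => if κ i = 1 then 1 else dT (κ i) (S i) Y := ⟨_, rfl⟩
  have hF0 : ∀ i, 0 ≤ F i := by
    intro i
    rw [hF]
    show (0:ℝ) ≤ if κ i = 1 then 1 else dT (κ i) (S i) Y
    split_ifs with h
    · exact zero_le_one
    · exact (hone i h).1
  have hdA : dA κ (fun i => dT (κ i) (S i) Y) = ∏ i, F i := by rw [hF]; rfl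
  have hFp : 0 ≤ ∏ i, F i := prod_nonneg fun i _ => hF0 i
  rw [hdA]
  by_cases hi0 : κ i0 = 1
  · have : VE z U κ S i0 = ∅ := by
      unfold VE
      exact filter_eq_empty_iff.mpr fun g _ h => h.1 hi0
    rw [this, sum_empty]
    positivity
  -- the sets
  obtain ⟨T, hT⟩ : ∃ T : Fin m → Finset ℕ, T = fun i => if κ i = 1 then {1} else
      if i = i0 then QE (κ i - 1) U (S i) (z ^ κ i) else QF (κ i - 1) (S i) (z ^ κ i) := ⟨_, rfl⟩
  have hsub : VE z U κ S i0 ⊆ Fintype.piFinset T := by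
    intro g hg
    unfold VE VF at hg
    rw [mem_filter, Fintype.mem_piFinset] at hg
    rw [Fintype.mem_piFinset]
    intro i
    have h1 := hg.1 i
    rw [hT]
    show g i ∈ if κ i = 1 then {1} else if i = i0 then QE (κ i - 1) U (S i) (z ^ κ i) else QF (κ i - 1) (S i) (z ^ κ i)
    split_ifs with h2 h3
    · rw [if_pos h2] at h1
      exact h1
    · subst h3
      exact hg.2.2.1
    · rw [if_neg h2] at h1
      exact h1
  have hlcm : ∀ g ∈ VE z U κ S i0, (1 : ℝ) / ((univ.lcm g : ℕ) : ℝ) = ∏ i, (1 : ℝ) / (g i : ℝ) := by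
    intro g hg
    unfold VE at hg
    have hp := (mem_filter.mp hg).2.2.2
    have h1 : (univ : Finset (Fin m)).lcm g = ∏ i, g i := by
      refine Finset.lcm_eq_prod ?_
      intro i _ j _ hij
      exact hp i j hij
    rw [h1]
    push_cast
    rw [prod_div_distrib]
    simp
  calc ∑ g ∈ VE z U κ S i0, (1 : ℝ) / ((univ.lcm g : ℕ) : ℝ) = ∑ g ∈ VE z U κ S i0, ∏ i, (1 : ℝ) / (g i : ℝ) :=
        sum_congr rfl hlcm
    _ ≤ ∑ g ∈ Fintype.piFinset T, ∏ i, (1 : ℝ) / (g i : ℝ) :=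
        sum_le_sum_of_subset_of_nonneg hsub fun g _ _ => prod_nonneg fun i _ => by positivity
    _ = ∏ i, ∑ a ∈ T i, (1 : ℝ) / (a : ℝ) := (prod_univ_sum T fun _ a => (1 : ℝ) / (a : ℝ)).symm
    _ ≤ ∏ i, ((if i = i0 then ε / C0 else C i) * F i) := by
        refine prod_le_prod (fun i _ => sum_nonneg fun a _ => by positivity) fun i _ => ?_
        rw [hT, hF]
        show ∑ a ∈ (if κ i = 1 then {1} else if i = i0 then QE (κ i - 1) U (S i) (z ^ κ i) else QF (κ i - 1) (S i) (z ^ κ i)), (1 : ℝ) / (a : ℝ) ≤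
          (if i = i0 then ε / C0 else C i) * (if κ i = 1 then 1 else dT (κ i) (S i) Y)
        by_cases h2 : κ i = 1
        · have h3 : i ≠ i0 := fun h => hi0 (h ▸ h2)
          rw [if_pos h2, if_pos h2, if_neg h3, sum_singleton]
          simpa using hC1 i
        · rw [if_neg h2, if_neg h2]
          by_cases h3 : i = i0
          · rw [if_pos h3, if_pos h3]
            exact (hone i h2).2.2
          · rw [if_neg h3, if_neg h3, hC]
            exact (hone i h2).2.1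
    _ = (∏ i, if i = i0 then ε / C0 else C i) * ∏ i, F i := prod_mul_distrib
    _ ≤ ε * ∏ i, F i := by
        refine mul_le_mul_of_nonneg_right ?_ hFp
        have h4 : ∏ i, (if i = i0 then ε / C0 else C i) = (ε / C0) * ∏ i ∈ univ.erase i0, C i := by
          rw [← mul_prod_erase univ _ (mem_univ i0), if_pos rfl]
          congr 1
          refine prod_congr rfl fun i hi => ?_
          rw [if_neg (ne_of_mem_erase hi)]
        have h5 : ∏ i ∈ univ.erase i0, C i ≤ C0 := by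
          rw [hC0, ← mul_prod_erase univ C (mem_univ i0)]
          have h6 : 0 ≤ ∏ i ∈ univ.erase i0, C i := prod_nonneg fun i _ => zero_le_one.trans (hC1 i)
          have := hC1 i0
          nlinarith
        rw [h4]
        calc ε / C0 * ∏ i ∈ univ.erase i0, C i ≤ ε / C0 * C0 := mul_le_mul_of_nonneg_left h5 (by positivity)
          _ = ε := div_mul_cancel₀ _ hC0p.ne'

end Pool.Agent.Lib.T8
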